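import Pool.Agent.P.MP_1e26d1_co.Limit

/-!
Upper bounds for Turan densities from random labellings.
-/

namespace Pool.Agent.P.MP_1e26d1_co.B

open Finset Filter Topology

variable {Ω : Type} [Fintype Ω] [DecidableEq Ω] {r : ℕ}

/-- every labelled vertex set without an `r`-tuple of distinct vertices whose labels satisfy `Q`
has at most `a` elements -/
def Cap (Q : (Fin r → Ω) → Prop) (a : ℕ) : Prop :=
  ∀ (n : ℕ) (S : Finset (Fin n)) (f : Fin n → Ω),
    (∀ g : Fin r ↪ Fin n, (∀ i, g i ∈ S) → ¬ Q (f ∘ g)) → S.card ≤ a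

/-- `Q` does not depend on the order of the tuple -/
def Symm (Q : (Fin r → Ω) → Prop) : Prop :=
  ∀ (σ : Equiv.Perm (Fin r)) (w : Fin r → Ω), Q w → Q (w ∘ σ)

theorem fiber_card {n : ℕ} (g : Fin r ↪ Fin n) (w : Fin r → Ω) :
    (univ.filter (fun f : Fin n → Ω => f ∘ g = w)).card = Fintype.card Ω ^ (n - r) := by
  classical
  let t : Fin n → Finset Ω := fun i => if h : ∃ j, g j = i then {w h.choose} else univ
  have h1 : univ.filter (fun f : Fin n → Ω => f ∘ g = w) = Fintype.piFinset t := by
    ext f
    simp only [mem_filter, mem_univ, true_and, Fintype.mem_piFinset]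
    constructor
    · intro h i
      by_cases hi : ∃ j, g j = i
      · simp only [t, dif_pos hi, mem_singleton]
        have := congrFun h hi.choose
        rw [Function.comp_apply, hi.choose_spec] at this
        exact this
      · simp only [t, dif_neg hi, mem_univ]
    · intro h
      funext j
      have hi : ∃ j', g j' = g j := ⟨j, rfl⟩
      have h2 := h (g j)
      simp only [t, dif_pos hi, mem_singleton] at h2
      rw [g.injective hi.choose_spec] at h2
      exact h2
  rw [h1, Fintype.card_piFinset]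
  have h3 : ∀ i, (t i).card = if i ∈ univ.map g then 1 else Fintype.card Ω := by
    intro i
    by_cases hi : ∃ j, g j = i
    · have : i ∈ univ.map g := by simpa using hi
      simp only [t, dif_pos hi, if_pos this, card_singleton]
    · have : i ∉ univ.map g := by simpa using hi
      simp only [t, dif_neg hi, if_neg this, card_univ]
  simp only [h3]
  rw [prod_ite, prod_const_one, one_mul, prod_const]
  congr 1
  rw [filter_not, filter_mem_eq_inter, univ_inter, card_univ_sdiff, card_map]
  simp

theorem comp_card {n : ℕ} (g : Fin r ↪ Fin n) (Q : (Fin r → Ω) → Prop) [DecidablePred Q] :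
    (univ.filter (fun f : Fin n → Ω => Q (f ∘ g))).card
      = (univ.filter Q).card * Fintype.card Ω ^ (n - r) := by
  classical
  rw [card_eq_sum_card_fiberwise (f := fun f : Fin n → Ω => f ∘ g) (t := univ.filter Q)
    (fun f hf => by simpa using hf)]
  rw [sum_congr rfl (g := fun _ => Fintype.card Ω ^ (n - r)), sum_const, smul_eq_mul]
  intro w hw
  rw [← fiber_card g w]
  congr 1
  ext f
  simp only [mem_filter, mem_univ, true_and] at hw ⊢
  exact ⟨fun h => h.2, fun h => ⟨h ▸ hw, h⟩⟩

theorem turan_le_labels [Nonempty Ω] {Q : (Fin r → Ω) → Prop} [DecidablePred Q] {a : ℕ}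
    (hc : Cap Q a) (hs : Symm Q) {n k : ℕ} (hk : a < k) (hn : r ≤ n) :
    turanNumber n k r * Fintype.card Ω ^ r ≤ (univ.filter Q).card * n.choose r := by
  classical
  let P : (Fin n → Ω) → Finset (Fin n) → Prop := fun f e =>
    ∃ h : e.card = r, Q (f ∘ (e.orderEmbOfFin h).toEmbedding)
  let H : (Fin n → Ω) → Finset (Finset (Fin n)) := fun f => (powersetCard r univ).filter (P f)
  have hsys : ∀ f, IsTuranSystem n k r (H f) := by
    intro f
    refine ⟨fun e he => (mem_powersetCard.1 (mem_filter.1 he).1).2, fun S hS => ?_⟩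
    refine lt_of_le_of_lt (hc n S f fun g hg hQ => ?_) hk
    have hcard : (univ.map g).card = r := by simp
    refine hS (univ.map g) (mem_filter.2 ⟨mem_powersetCard.2 ⟨subset_univ _, hcard⟩, hcard, ?_⟩)
      fun x hx => ?_
    · have hex : ∀ i, ∃ j, g j = (univ.map g).orderEmbOfFin hcard i := fun i => by
        obtain ⟨j, _, hj⟩ := Finset.mem_map.1 ((univ.map g).orderEmbOfFin_mem hcard i)
        exact ⟨j, hj⟩
      choose s hsj using hex
      have hinj : Function.Injective s := fun i j hij => by
        apply ((univ.map g).orderEmbOfFin hcard).injective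
        rw [← hsj, ← hsj, hij]
      have := hs (Equiv.ofBijective s (Finite.injective_iff_bijective.1 hinj)) _ hQ
      have he : (f ∘ g) ∘ (Equiv.ofBijective s (Finite.injective_iff_bijective.1 hinj))
          = f ∘ ((univ.map g).orderEmbOfFin hcard).toEmbedding := by
        funext i
        simp only [Function.comp_apply, Equiv.ofBijective_apply, hsj]
        rfl
      rwa [he] at this
    · obtain ⟨i, _, rfl⟩ := Finset.mem_map.1 hx
      exact hg i
  have h1 : ∑ _f : Fin n → Ω, turanNumber n k r ≤ ∑ f : Fin n → Ω, (H f).card :=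
    sum_le_sum fun f _ => turan_le (hsys f)
  have h2 : ∑ f : Fin n → Ω, (H f).card
      = ∑ _e ∈ powersetCard r (univ : Finset (Fin n)),
          (univ.filter Q).card * Fintype.card Ω ^ (n - r) := by
    simp only [H, card_filter (P _)]
    rw [sum_comm]
    refine sum_congr rfl fun e he => ?_
    have hcard : e.card = r := (mem_powersetCard.1 he).2
    rw [← card_filter, ← comp_card (e.orderEmbOfFin hcard).toEmbedding Q]
    congr 1
    ext f
    simp only [mem_filter, mem_univ, true_and, P]
    exact ⟨fun ⟨_, h⟩ => h, fun h => ⟨hcard, h⟩⟩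
  rw [h2] at h1
  simp only [sum_const, card_univ, Fintype.card_fun, Fintype.card_fin, smul_eq_mul,
    card_powersetCard] at h1
  have hp : 0 < Fintype.card Ω ^ (n - r) := pow_pos Fintype.card_pos _
  refine Nat.le_of_mul_le_mul_right ?_ hp
  calc turanNumber n k r * Fintype.card Ω ^ r * Fintype.card Ω ^ (n - r)
      = Fintype.card Ω ^ n * turanNumber n k r := by
        rw [mul_assoc, ← pow_add, Nat.add_sub_cancel' hn, mul_comm]
    _ ≤ _ := h1
    _ = _ := by ring

theorem density_le_labels [Nonempty Ω] {Q : (Fin r → Ω) → Prop} [DecidablePred Q] {a : ℕ}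
    (hc : Cap Q a) (hs : Symm Q) {k : ℕ} (hk : a < k) (hr : r ≤ k) :
    turanDensity k r ≤ ((univ.filter Q).card : ℝ) / (Fintype.card Ω : ℝ) ^ r := by
  refine le_of_tendsto (ratio_tendsto hr) ?_
  filter_upwards [eventually_ge_atTop r] with n hn
  have p1 : (0 : ℝ) < n.choose r := by exact_mod_cast Nat.choose_pos hn
  have p2 : (0 : ℝ) < (Fintype.card Ω : ℝ) ^ r := by
    have : (0 : ℝ) < Fintype.card Ω := by exact_mod_cast Fintype.card_pos
    positivity
  unfold turanRatio
  rw [div_le_div_iff₀ p1 p2]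
  exact_mod_cast turan_le_labels hc hs hk hn

/-- `G` disjoint copies of a labelled system -/
def Copies (G : ℕ) (Q : (Fin r → Ω) → Prop) (w : Fin r → Fin G × Ω) : Prop :=
  (∀ i j, (w i).1 = (w j).1) ∧ Q (Prod.snd ∘ w)

omit [Fintype Ω] [DecidableEq Ω] in
theorem Copies.symm {G : ℕ} {Q : (Fin r → Ω) → Prop} (hs : Symm Q) : Symm (Copies G Q) :=
  fun σ _ h => ⟨fun _ _ => h.1 _ _, hs σ _ h.2⟩

omit [Fintype Ω] [DecidableEq Ω] in
theorem Copies.cap {G a : ℕ} {Q : (Fin r → Ω) → Prop} (hc : Cap Q a) :
    Cap (Copies G Q) (G * a) := by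
  intro n S f h
  rw [card_eq_sum_card_fiberwise (f := fun u => (f u).1) (t := univ) (fun _ _ => by simp)]
  calc _ ≤ ∑ _j : Fin G, a := sum_le_sum fun j _ => ?_
    _ = G * a := by simp
  refine hc n _ (Prod.snd ∘ f) fun g hg hQ => h g (fun i => (mem_filter.1 (hg i)).1) ⟨?_, hQ⟩
  intro i i'
  exact ((mem_filter.1 (hg i)).2).trans ((mem_filter.1 (hg i')).2).symm

omit [DecidableEq Ω] in
theorem Copies.card_le {G : ℕ} (Q : (Fin (r + 1) → Ω) → Prop) [DecidablePred Q]
    [DecidablePred (Copies G Q)] :
    (univ.filter (Copies G Q)).card ≤ G * (univ.filter Q).card := by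
  have : G * (univ.filter Q).card = ((univ : Finset (Fin G)) ×ˢ univ.filter Q).card := by simp
  rw [this]
  refine card_le_card_of_injOn (fun w => ((w 0).1, Prod.snd ∘ w)) (fun w hw => ?_) ?_
  · have hw' : Copies G Q w := by simpa using hw
    simpa using hw'.2
  · intro w hw w' hw' he
    have h1 : Copies G Q w := by simpa using hw
    have h2 : Copies G Q w' := by simpa using hw'
    simp only [Prod.mk.injEq] at he
    funext i
    exact Prod.ext ((h1.1 i 0).trans (he.1.trans (h2.1 0 i))) (congrFun he.2 i)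

/-- density bound from `G` copies -/
theorem density_le_copies [Nonempty Ω] {Q : (Fin (r + 1) → Ω) → Prop} [DecidablePred Q] {a : ℕ}
    (hc : Cap Q a) (hs : Symm Q) {G k : ℕ} (hG : 0 < G) (hk : G * a < k) (hr : r + 1 ≤ k) :
    turanDensity k (r + 1)
      ≤ ((univ.filter Q).card : ℝ) / (Fintype.card Ω : ℝ) ^ (r + 1) / (G : ℝ) ^ r := by
  classical
  have : Nonempty (Fin G) := ⟨⟨0, hG⟩⟩
  refine (density_le_labels (Copies.cap hc) (Copies.symm hs) hk hr).trans ?_
  have p0 : (0 : ℝ) < G := by exact_mod_cast hG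
  have p1 : (0 : ℝ) < Fintype.card Ω := by exact_mod_cast Fintype.card_pos
  have h1 : ((univ.filter (Copies G Q)).card : ℝ) ≤ G * (univ.filter Q).card := by
    exact_mod_cast Copies.card_le Q
  rw [Fintype.card_prod, Fintype.card_fin, Nat.cast_mul]
  calc _ ≤ (G * (univ.filter Q).card : ℝ) / ((G : ℝ) * Fintype.card Ω) ^ (r + 1) := by gcongr
    _ = _ := by rw [mul_pow]; field_simp; ring

end Pool.Agent.P.MP_1e26d1_co.B
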