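import Mathlib

/-!
A subset of the six-dimensional binary space without four distinct elements of sum zero has at
most nine elements (Plotkin count).
-/

namespace Pool.Agent.P.MP_1e26d1_co.B

open Finset

theorem sum_symmDiff {α W : Type} [DecidableEq α] [AddCommGroup W] (h2 : ∀ w : W, w + w = 0)
    (g : α → W) (A B : Finset α) : ∑ x ∈ symmDiff A B, g x = ∑ x ∈ A, g x + ∑ x ∈ B, g x := by
  have e1 : ∑ x ∈ A \ B, g x + ∑ x ∈ A ∩ B, g x = ∑ x ∈ A, g x := by
    rw [← sum_union (disjoint_sdiff_inter A B), sdiff_union_inter]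
  have e2 : ∑ x ∈ B \ A, g x + ∑ x ∈ A ∩ B, g x = ∑ x ∈ B, g x := by
    rw [inter_comm, ← sum_union (disjoint_sdiff_inter B A), sdiff_union_inter]
  rw [symmDiff_def, sup_eq_union, sum_union disjoint_sdiff_sdiff, ← e1, ← e2]
  have := h2 (∑ x ∈ A ∩ B, g x)
  rw [add_add_add_comm, this, add_zero]

theorem two_zmod (z : ZMod 2) : z + z = 0 := by revert z; decide

theorem two_pi {ι : Type} (w : ι → ZMod 2) : w + w = 0 := funext fun i => two_zmod (w i)

theorem sidon_le (T : Finset (Fin 6 → ZMod 2))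
    (hT : ∀ D ⊆ T, D.card = 4 → ∑ x ∈ D, x ≠ 0) : T.card ≤ 9 := by
  classical
  by_contra hlt
  obtain ⟨U, hU, hc⟩ := exists_subset_card_eq (show 10 ≤ T.card by omega)
  let g : (Fin 6 → ZMod 2) → ZMod 2 × (Fin 6 → ZMod 2) := fun x => (1, x)
  have h2 : ∀ w : ZMod 2 × (Fin 6 → ZMod 2), w + w = 0 := fun w =>
    Prod.ext (two_zmod w.1) (two_pi w.2)
  let K := U.powerset.filter (fun A => ∑ x ∈ A, g x = 0)
  have hsd : ∀ A B : Finset (Fin 6 → ZMod 2), A ⊆ U → B ⊆ U → symmDiff A B ⊆ U := by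
    intro A B hA hB x hx
    rcases mem_symmDiff.1 hx with h | h
    · exact hA h.1
    · exact hB h.1
  have hK8 : 8 ≤ K.card := by
    obtain ⟨y, -, hy⟩ := exists_le_card_fiber_of_mul_le_card_of_maps_to (s := U.powerset)
      (t := univ) (f := fun A => ∑ x ∈ A, g x) (n := 8) (fun _ _ => mem_univ _) univ_nonempty
      (by simp [hc])
    obtain ⟨A0, hA0⟩ := card_pos.1 (lt_of_lt_of_le (by norm_num) hy)
    refine hy.trans (card_le_card_of_injOn (fun A => symmDiff A A0) (fun A hA => ?_) ?_)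
    · have hA' := mem_filter.1 (mem_coe.1 hA)
      have hA0' := mem_filter.1 hA0
      refine mem_coe.2 (mem_filter.2 ⟨mem_powerset.2
        (hsd _ _ (mem_powerset.1 hA'.1) (mem_powerset.1 hA0'.1)), ?_⟩)
      rw [sum_symmDiff h2, hA'.2, hA0'.2, h2]
    · exact fun A _ B _ h => symmDiff_left_injective A0 h
  have hhalf : ∀ x, 2 * (K.filter (fun A => x ∈ A)).card ≤ K.card := by
    intro x
    rcases (K.filter (fun A => x ∈ A)).eq_empty_or_nonempty with h | ⟨B, hB⟩
    · simp [h]
    have hB' := mem_filter.1 hB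
    have hBK := mem_filter.1 hB'.1
    have h1 : (K.filter (fun A => x ∈ A)).card ≤ (K.filter (fun A => ¬ x ∈ A)).card := by
      refine card_le_card_of_injOn (fun A => symmDiff A B) (fun A hA => ?_)
        (fun A _ C _ h => symmDiff_left_injective B h)
      have hA' := mem_filter.1 (mem_coe.1 hA)
      have hAK := mem_filter.1 hA'.1
      refine mem_coe.2 (mem_filter.2 ⟨mem_filter.2 ⟨mem_powerset.2
        (hsd _ _ (mem_powerset.1 hAK.1) (mem_powerset.1 hBK.1)), ?_⟩, ?_⟩)
      · rw [sum_symmDiff h2, hAK.2, hBK.2, add_zero]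
      · simp [mem_symmDiff, hA'.2, hB'.2]
    have := card_filter_add_card_filter_not (s := K) (fun A => x ∈ A)
    omega
  have hsix : ∀ A ∈ K, A ≠ ∅ → 6 ≤ A.card := by
    intro A hA hne
    have hAK := mem_filter.1 hA
    have e1 : (A.card : ZMod 2) = 0 := by
      have := congrArg Prod.fst hAK.2
      simpa [g, Prod.fst_sum] using this
    have e2 : ∑ x ∈ A, x = 0 := by
      have := congrArg Prod.snd hAK.2
      simpa [g, Prod.snd_sum] using this
    have e3 : 2 ∣ A.card := (ZMod.natCast_eq_zero_iff _ _).1 e1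
    have e4 : A.card ≠ 4 := fun h => hT A ((mem_powerset.1 hAK.1).trans hU) h e2
    have e5 : A.card ≠ 0 := fun h => hne (card_eq_zero.1 h)
    have e6 : A.card ≠ 2 := fun h => by
      obtain ⟨a, b, hab, rfl⟩ := card_eq_two.1 h
      rw [sum_pair hab] at e2
      exact hab (add_right_cancel (e2.trans (two_pi b).symm))
    omega
  have hsum : ∑ A ∈ K, A.card = ∑ x ∈ U, (K.filter (fun A => x ∈ A)).card := by
    simp only [card_filter]
    rw [sum_comm]
    refine sum_congr rfl fun A hA => ?_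
    rw [← card_filter, filter_mem_eq_inter,
      inter_eq_right.2 (mem_powerset.1 (mem_filter.1 hA).1)]
  have hup : 2 * ∑ A ∈ K, A.card ≤ 10 * K.card := by
    rw [hsum, mul_sum]
    calc _ ≤ ∑ _x ∈ U, K.card := sum_le_sum fun x _ => hhalf x
      _ = _ := by simp [hc]
  have hlow : 6 * (K.erase ∅).card ≤ ∑ A ∈ K, A.card := by
    calc 6 * (K.erase ∅).card = ∑ _A ∈ K.erase ∅, 6 := by simp [mul_comm]
      _ ≤ ∑ A ∈ K.erase ∅, A.card :=
          sum_le_sum fun A hA => hsix A (mem_of_mem_erase hA) (ne_of_mem_erase hA)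
      _ ≤ _ := sum_le_sum_of_subset (erase_subset _ _)
  have := pred_card_le_card_erase (s := K) (a := ∅)
  omega

end Pool.Agent.P.MP_1e26d1_co.B
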