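import Pool.Agent.P.MP_1e26d1_co.BAvg
import Pool.Agent.P.MP_1e26d1_co.BSidon

/-!
The construction: copies of the binary affine space of dimension six, with hashed twin pairs.
-/

namespace Pool.Agent.P.MP_1e26d1_co.B

open Finset

/-- labels: (copy, point of the affine space) and a hash label -/
abbrev Lab (m M : ℕ) := (Fin m × (Fin 6 → ZMod 2)) × ZMod M

variable {m M : ℕ}

/-- four distinct points of one copy with sum zero -/
def E1 (w : Fin 4 → Lab m M) : Prop :=
  (∀ i j, (w i).1.1 = (w j).1.1) ∧ (∀ i j, (w i).1.2 = (w j).1.2 → i = j) ∧ ∑ i, (w i).1.2 = 0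

/-- two twin pairs with equal hash sums -/
def P2 (a b c d : Fin 4) (w : Fin 4 → Lab m M) : Prop :=
  (w b).1 = (w a).1 ∧ (w d).1 = (w c).1 ∧ (w a).2 + (w b).2 = (w c).2 + (w d).2

/-- three equal labels -/
def P3 (a b c : Fin 4) (w : Fin 4 → Lab m M) : Prop := w b = w a ∧ w c = w a

def Q (w : Fin 4 → Lab m M) : Prop :=
  E1 w ∨ ∃ a b c d : Fin 4, [a, b, c, d].Nodup ∧ (P2 a b c d w ∨ P3 a b c w)

theorem Q_symm : Symm (Q (m := m) (M := M)) := by
  rintro σ w (⟨h1, h2, h3⟩ | ⟨a, b, c, d, h1, h2⟩)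
  · refine Or.inl ⟨fun i j => h1 _ _, fun i j h => σ.injective (h2 _ _ h), ?_⟩
    rw [← h3]
    exact Equiv.sum_comp σ (fun i => (w i).1.2)
  · refine Or.inr ⟨σ.symm a, σ.symm b, σ.symm c, σ.symm d, h1.map σ.symm.injective, ?_⟩
    simpa [P2, P3] using h2

/-- the embedding of four distinct elements -/
def emb4 {ι : Type} (a b c d : ι) (hab : a ≠ b) (hac : a ≠ c) (had : a ≠ d) (hbc : b ≠ c)
    (hbd : b ≠ d) (hcd : c ≠ d) : Fin 4 ↪ ι :=
  ⟨![a, b, c, d], by
    intro i j h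
    fin_cases i <;> fin_cases j <;> simp_all [eq_comm]⟩

theorem exists_rep {ι κ : Type} [DecidableEq ι] [DecidableEq κ] (S : Finset ι) (c : ι → κ)
    (p : ι → Prop) :
    ∃ ρ : ι → ι, (∀ u ∈ S, ρ u ∈ S ∧ c (ρ u) = c u) ∧ (∀ u v, c u = c v → ρ u = ρ v) ∧
      (∀ u ∈ S, p u → p (ρ u)) ∧
      S.card ≤ (S.image c).card + (S.filter (fun u => ρ u ≠ u)).card := by
  classical
  rcases isEmpty_or_nonempty ι with h | h
  · exact ⟨id, fun u => isEmptyElim u, fun u => isEmptyElim u, fun u => isEmptyElim u, by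
      simp [Finset.eq_empty_of_isEmpty S]⟩
  let r : κ → ι := fun x =>
    if h : ∃ v ∈ S, c v = x ∧ p v then h.choose else Function.invFunOn c S x
  refine ⟨fun u => r (c u), fun u hu => ?_, fun u v huv => by simp only [huv], fun u hu hp => ?_,
    ?_⟩
  · by_cases h : ∃ v ∈ S, c v = c u ∧ p v
    · simp only [r, dif_pos h]
      exact ⟨h.choose_spec.1, h.choose_spec.2.1⟩
    · simp only [r, dif_neg h]
      exact Function.invFunOn_pos (f := c) (s := (S : Set ι)) ⟨u, hu, rfl⟩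
  · have h : ∃ v ∈ S, c v = c u ∧ p v := ⟨u, hu, rfl, hp⟩
    simp only [r, dif_pos h]
    exact h.choose_spec.2.2
  · have h1 := card_filter_add_card_filter_not (s := S) (fun u => r (c u) ≠ u)
    have h2 : (S.filter (fun u => ¬ r (c u) ≠ u)).card ≤ (S.image c).card := by
      refine card_le_card_of_injOn c (fun u hu => ?_) fun u hu v hv huv => ?_
      · exact mem_coe.2 (mem_image_of_mem c (mem_filter.1 (mem_coe.1 hu)).1)
      · have a1 := not_not.1 (mem_filter.1 (mem_coe.1 hu)).2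
        have a2 := not_not.1 (mem_filter.1 (mem_coe.1 hv)).2
        rw [← a1, ← a2, huv]
    beta_reduce
    omega

theorem Q_cap [NeZero M] (hm : 0 < m) : Cap (Q (m := m) (M := M)) (9 * m + M) := by
  classical
  intro n S f hS
  have key : ∀ a ∈ S, ∀ b ∈ S, ∀ c ∈ S, ∀ d ∈ S, a ≠ b → a ≠ c → a ≠ d → b ≠ c → b ≠ d →
      c ≠ d → ¬ Q ![f a, f b, f c, f d] := by
    intro a ha b hb c hc d hd hab hac had hbc hbd hcd hQ
    refine hS (emb4 a b c d hab hac had hbc hbd hcd) (fun i => ?_) ?_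
    · fin_cases i
      exacts [ha, hb, hc, hd]
    · have : f ∘ (emb4 a b c d hab hac had hbc hbd hcd) = ![f a, f b, f c, f d] := by
        funext i
        fin_cases i <;> rfl
      rwa [this]
  rcases le_or_gt S.card 3 with h3 | h3
  · omega
  have htri : ∀ a ∈ S, ∀ b ∈ S, ∀ c ∈ S, a ≠ b → a ≠ c → b ≠ c → f b = f a → f c ≠ f a := by
    intro a ha b hb c hc hab hac hbc e1 e2
    have hlt : ({a, b, c} : Finset (Fin n)).card < S.card := lt_of_le_of_lt card_le_three h3
    obtain ⟨d, hd, hd'⟩ := exists_mem_notMem_of_card_lt_card hlt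
    simp only [mem_insert, mem_singleton, not_or] at hd'
    exact key a ha b hb c hc d hd hab hac (Ne.symm hd'.1) hbc (Ne.symm hd'.2.1)
      (Ne.symm hd'.2.2) (Or.inr ⟨0, 1, 2, 3, by decide, Or.inr ⟨e1, e2⟩⟩)
  obtain ⟨ρ, hρ1, hρ2, hρ3, hρ4⟩ :=
    exists_rep S (fun u => (f u).1) (fun u => ∃ v ∈ S, v ≠ u ∧ f v = f u)
  have hext : (S.filter (fun u => ρ u ≠ u)).card ≤ M := by
    have hc : (univ : Finset (ZMod M)).card = M := by simp
    rw [← hc]
    refine card_le_card_of_injOn (fun u => (f u).2 + (f (ρ u)).2) (fun u _ => by simp)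
      fun u hu v hv huv => ?_
    obtain ⟨h1, h2⟩ := mem_filter.1 (mem_coe.1 hu)
    obtain ⟨h3, h4⟩ := mem_filter.1 (mem_coe.1 hv)
    have h5 : (f u).2 + (f (ρ u)).2 = (f v).2 + (f (ρ v)).2 := huv
    have a1 : (f (ρ u)).1 = (f u).1 := (hρ1 u h1).2
    have a2 : (f (ρ v)).1 = (f v).1 := (hρ1 v h3).2
    by_contra hne
    by_cases hc : (f u).1 = (f v).1
    · have h6 : ρ u = ρ v := hρ2 u v hc
      rw [h6] at h5
      have h7 : f v = f u := Prod.ext hc.symm (add_right_cancel h5).symm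
      have h8 : f (ρ u) ≠ f u :=
        htri u h1 v h3 (ρ u) (hρ1 u h1).1 hne h2.symm (by rw [h6]; exact h4.symm) h7
      obtain ⟨z, hz, hz1, hz2⟩ := hρ3 u h1 ⟨v, h3, Ne.symm hne, h7⟩
      refine key u h1 (ρ u) (hρ1 u h1).1 v h3 z hz h2.symm hne
        (ne_of_apply_ne f (by rw [hz2]; exact h8.symm)) (by rw [h6]; exact h4) hz1.symm
        (ne_of_apply_ne f (by rw [hz2, h7]; exact h8.symm))
        (Or.inr ⟨0, 1, 2, 3, by decide, Or.inl ⟨a1, ?_, ?_⟩⟩)
      · change (f z).1 = (f v).1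
        rw [hz2, a1, hc]
      · change (f u).2 + (f (ρ u)).2 = (f v).2 + (f z).2
        rw [hz2, h7]
    · exact key u h1 (ρ u) (hρ1 u h1).1 v h3 (ρ v) (hρ1 v h3).1 h2.symm hne
        (ne_of_apply_ne (fun x => (f x).1) (by rwa [a2]))
        (ne_of_apply_ne (fun x => (f x).1) (by rwa [a1]))
        (ne_of_apply_ne (fun x => (f x).1) (by rwa [a1, a2]))
        h4.symm (Or.inr ⟨0, 1, 2, 3, by decide, Or.inl ⟨a1, a2, h5⟩⟩)
  have hcls : (S.image (fun u => (f u).1)).card ≤ 9 * m := by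
    rw [card_eq_sum_card_fiberwise (f := fun u => u.1) (t := univ) (fun _ _ => by simp)]
    calc _ ≤ ∑ _j : Fin m, 9 := sum_le_sum fun j _ => ?_
      _ = 9 * m := by simp [mul_comm]
    have hinj : Set.InjOn Prod.snd (((S.image (fun u => (f u).1)).filter (fun u => u.1 = j) :
        Finset (Fin m × (Fin 6 → ZMod 2))) : Set (Fin m × (Fin 6 → ZMod 2))) := by
      intro u hu v hv huv
      exact Prod.ext (((mem_filter.1 (mem_coe.1 hu)).2).trans
        ((mem_filter.1 (mem_coe.1 hv)).2).symm) huv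
    rw [← card_image_of_injOn hinj]
    refine sidon_le _ fun D hD hD4 hsum => ?_
    obtain ⟨a, b, c, d, hab, hac, had, hbc, hbd, hcd, rfl⟩ := card_eq_four.1 hD4
    have lift : ∀ x ∈ ({a, b, c, d} : Finset (Fin 6 → ZMod 2)), ∃ p ∈ S, (f p).1 = (j, x) := by
      intro x hx
      obtain ⟨u, hu, rfl⟩ := mem_image.1 (hD hx)
      obtain ⟨hu1, hu2⟩ := mem_filter.1 hu
      obtain ⟨p, hp, rfl⟩ := mem_image.1 hu1
      exact ⟨p, hp, Prod.ext hu2 rfl⟩
    obtain ⟨pa, ha, ha'⟩ := lift a (by simp)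
    obtain ⟨pb, hb, hb'⟩ := lift b (by simp)
    obtain ⟨pc, hc, hc'⟩ := lift c (by simp)
    obtain ⟨pd, hd, hd'⟩ := lift d (by simp)
    have ne : ∀ {p q : Fin n} {x y : Fin 6 → ZMod 2}, (f p).1 = (j, x) → (f q).1 = (j, y) →
        x ≠ y → p ≠ q :=
      fun hp hq hxy h => hxy (by rw [h, hq] at hp; exact (Prod.ext_iff.1 hp).2.symm)
    refine key pa ha pb hb pc hc pd hd (ne ha' hb' hab) (ne ha' hc' hac) (ne ha' hd' had)
      (ne hb' hc' hbc) (ne hb' hd' hbd) (ne hc' hd' hcd)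
      (Or.inl ⟨fun i i' => ?_, fun i i' => ?_, ?_⟩)
    · fin_cases i <;> fin_cases i' <;> simp [ha', hb', hc', hd']
    · fin_cases i <;> fin_cases i' <;> simp [ha', hb', hc', hd', hab, hac, had, hbc, hbd, hcd,
        hab.symm, hac.symm, had.symm, hbc.symm, hbd.symm, hcd.symm]
    · rw [sum_insert (by simp [hab, hac, had]), sum_insert (by simp [hbc, hbd]),
        sum_pair hcd] at hsum
      simpa [Fin.sum_univ_four, ha', hb', hc', hd', add_assoc] using hsum
  omega

theorem card_E1 [NeZero M] [DecidablePred (E1 (m := m) (M := M))] :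
    (univ.filter (E1 (m := m) (M := M))).card ≤ m * (64 * 63 * 62) * M ^ 4 := by
  classical
  have hc : (univ : Finset (Fin m × (Fin 3 ↪ (Fin 6 → ZMod 2)) × (Fin 4 → ZMod M))).card
      = m * (64 * 63 * 62) * M ^ 4 := by
    simp [Nat.descFactorial, mul_assoc]
  rw [← hc, ← Fintype.card_subtype, card_univ]
  refine Fintype.card_le_of_injective (fun w => ((w.1 0).1.1,
    ⟨fun i => (w.1 i.castSucc).1.2, fun i j h => Fin.castSucc_injective _ (w.2.2.1 _ _ h)⟩,
    fun i => (w.1 i).2)) fun w w' h => ?_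
  simp only [Prod.mk.injEq, Function.Embedding.mk.injEq] at h
  obtain ⟨h1, h2, h3⟩ := h
  have h4 : ∀ i : Fin 3, (w.1 i.castSucc).1.2 = (w'.1 i.castSucc).1.2 := congrFun h2
  have h5 : (w.1 (Fin.last 3)).1.2 = (w'.1 (Fin.last 3)).1.2 := by
    have a1 := w.2.2.2
    have a2 := w'.2.2.2
    rw [Fin.sum_univ_castSucc] at a1 a2
    simp only [h4] at a1
    exact add_left_cancel (a1.trans a2.symm)
  refine Subtype.ext (funext fun i => Prod.ext (Prod.ext ?_ ?_) (congrFun h3 i))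
  · exact (w.2.1 i 0).trans (h1.trans (w'.2.1 0 i))
  · refine Fin.lastCases h5 h4 i

theorem card_P2 [NeZero M] (a b c d : Fin 4) (hall : ∀ i, i = a ∨ i = b ∨ i = c ∨ i = d)
    [DecidablePred (P2 (m := m) (M := M) a b c d)] :
    (univ.filter (P2 (m := m) (M := M) a b c d)).card ≤ (m * 64) ^ 2 * M ^ 3 := by
  classical
  have hc : (univ : Finset (Lab m M × Lab m M × ZMod M)).card = (m * 64) ^ 2 * M ^ 3 := by
    simp only [card_univ, Fintype.card_prod, Fintype.card_fun, Fintype.card_fin, ZMod.card]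
    ring
  rw [← hc]
  refine card_le_card_of_injOn (fun w => (w a, w c, (w b).2)) (fun _ _ => by simp)
    fun w hw w' hw' h => ?_
  obtain ⟨p1, p2, p3⟩ := (mem_filter.1 (mem_coe.1 hw)).2
  obtain ⟨q1, q2, q3⟩ := (mem_filter.1 (mem_coe.1 hw')).2
  simp only [Prod.mk.injEq] at h
  obtain ⟨h1, h2, h3⟩ := h
  funext i
  rcases hall i with rfl | rfl | rfl | rfl
  · exact h1
  · exact Prod.ext (by rw [p1, q1, h1]) h3
  · exact h2
  · refine Prod.ext (by rw [p2, q2, h2]) ?_
    rw [h1, h2, h3] at p3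
    exact add_left_cancel (p3.symm.trans q3)

theorem card_P3 [NeZero M] (a b c d : Fin 4) (hall : ∀ i, i = a ∨ i = b ∨ i = c ∨ i = d)
    [DecidablePred (P3 (m := m) (M := M) a b c)] :
    (univ.filter (P3 (m := m) (M := M) a b c)).card ≤ (m * 64) ^ 2 * M ^ 2 := by
  classical
  have hc : (univ : Finset (Lab m M × Lab m M)).card = (m * 64) ^ 2 * M ^ 2 := by
    simp only [card_univ, Fintype.card_prod, Fintype.card_fun, Fintype.card_fin, ZMod.card]
    ring
  rw [← hc]
  refine card_le_card_of_injOn (fun w => (w a, w d)) (fun _ _ => by simp)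
    fun w hw w' hw' h => ?_
  obtain ⟨p1, p2⟩ := (mem_filter.1 (mem_coe.1 hw)).2
  obtain ⟨q1, q2⟩ := (mem_filter.1 (mem_coe.1 hw')).2
  simp only [Prod.mk.injEq] at h
  obtain ⟨h1, h2⟩ := h
  funext i
  rcases hall i with rfl | rfl | rfl | rfl
  · exact h1
  · rw [p1, q1, h1]
  · rw [p2, q2, h1]
  · exact h2

theorem P2_cases {a b c d : Fin 4} (h : [a, b, c, d].Nodup) {w : Fin 4 → Lab m M}
    (hw : P2 a b c d w) : P2 0 1 2 3 w ∨ P2 0 2 1 3 w ∨ P2 0 3 1 2 w := by
  obtain ⟨h1, h2, h3⟩ := hw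
  have s1 := h1.symm
  have s2 := h2.symm
  have t1 := (add_comm _ _).trans h3
  have t2 := h3.trans (add_comm _ _)
  have t3 := t1.trans (add_comm _ _)
  have u0 := h3.symm
  have u1 := t1.symm
  have u2 := t2.symm
  have u3 := t3.symm
  fin_cases a <;> fin_cases b <;> fin_cases c <;> fin_cases d <;>
    first
    | exact absurd h (by decide)
    | exact Or.inl ⟨by assumption, by assumption, by assumption⟩
    | exact Or.inr (Or.inl ⟨by assumption, by assumption, by assumption⟩)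
    | exact Or.inr (Or.inr ⟨by assumption, by assumption, by assumption⟩)

theorem P3_cases {a b c d : Fin 4} (h : [a, b, c, d].Nodup) {w : Fin 4 → Lab m M}
    (hw : P3 a b c w) : P3 0 1 2 w ∨ P3 0 1 3 w ∨ P3 0 2 3 w ∨ P3 1 2 3 w := by
  obtain ⟨h1, h2⟩ := hw
  have s1 := h1.symm
  have s2 := h2.symm
  have t1 := h1.trans s2
  have t2 := t1.symm
  fin_cases a <;> fin_cases b <;> fin_cases c <;> fin_cases d <;>
    first
    | exact absurd h (by decide)
    | exact Or.inl ⟨by assumption, by assumption⟩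
    | exact Or.inr (Or.inl ⟨by assumption, by assumption⟩)
    | exact Or.inr (Or.inr (Or.inl ⟨by assumption, by assumption⟩))
    | exact Or.inr (Or.inr (Or.inr ⟨by assumption, by assumption⟩))

theorem card_Q [NeZero M] [DecidablePred (Q (m := m) (M := M))] :
    (univ.filter (Q (m := m) (M := M))).card
      ≤ m * (64 * 63 * 62) * M ^ 4 + 3 * ((m * 64) ^ 2 * M ^ 3) + 4 * ((m * 64) ^ 2 * M ^ 2) := by
  classical
  have hsub : univ.filter (Q (m := m) (M := M)) ⊆ univ.filter E1 ∪ (univ.filter (P2 0 1 2 3) ∪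
      (univ.filter (P2 0 2 1 3) ∪ (univ.filter (P2 0 3 1 2) ∪ (univ.filter (P3 0 1 2) ∪
      (univ.filter (P3 0 1 3) ∪ (univ.filter (P3 0 2 3) ∪ univ.filter (P3 1 2 3))))))) := by
    intro w hw
    simp only [mem_union, mem_filter, mem_univ, true_and] at hw ⊢
    rcases hw with h | ⟨a, b, c, d, h1, h2 | h2⟩
    · exact Or.inl h
    · rcases P2_cases h1 h2 with h | h | h <;> simp only [h, true_or, or_true]
    · rcases P3_cases h1 h2 with h | h | h | h <;> simp only [h, true_or, or_true]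
  have c1 := card_E1 (m := m) (M := M)
  have c2 := card_P2 (m := m) (M := M) 0 1 2 3 (by decide)
  have c3 := card_P2 (m := m) (M := M) 0 2 1 3 (by decide)
  have c4 := card_P2 (m := m) (M := M) 0 3 1 2 (by decide)
  have c5 := card_P3 (m := m) (M := M) 0 1 2 3 (by decide)
  have c6 := card_P3 (m := m) (M := M) 0 1 3 2 (by decide)
  have c7 := card_P3 (m := m) (M := M) 0 2 3 1 (by decide)
  have c8 := card_P3 (m := m) (M := M) 1 2 3 0 (by decide)
  refine (card_le_card hsub).trans ?_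
  refine ((card_union_le _ _).trans (Nat.add_le_add c1 ((card_union_le _ _).trans
    (Nat.add_le_add c2 ((card_union_le _ _).trans (Nat.add_le_add c3 ((card_union_le _ _).trans
    (Nat.add_le_add c4 ((card_union_le _ _).trans (Nat.add_le_add c5 ((card_union_le _ _).trans
    (Nat.add_le_add c6 ((card_union_le _ _).trans (Nat.add_le_add c7 c8)))))))))))))).trans ?_
  omega

/-- the density bound of the construction -/
theorem density_four {m M k : ℕ} (hm : 0 < m) (hM : 0 < M) (hk : 9 * m + M < k) :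
    turanDensity k 4 ≤ 1953 / (131072 * (m : ℝ) ^ 3) + 3 / (4096 * (m : ℝ) ^ 2 * M)
      + 1 / (1024 * (m : ℝ) ^ 2 * (M : ℝ) ^ 2) := by
  classical
  have : Nonempty (Fin m) := ⟨⟨0, hm⟩⟩
  have : NeZero M := ⟨hM.ne'⟩
  refine (density_le_labels (Q_cap (M := M) hm) Q_symm hk (by omega)).trans ?_
  have p0 : (0 : ℝ) < m := by exact_mod_cast hm
  have p1 : (0 : ℝ) < M := by exact_mod_cast hM
  have h1 : ((univ.filter (Q (m := m) (M := M))).card : ℝ)
      ≤ m * (64 * 63 * 62) * M ^ 4 + 3 * ((m * 64) ^ 2 * M ^ 3) + 4 * ((m * 64) ^ 2 * M ^ 2) := by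
    exact_mod_cast card_Q
  have h2 : (Fintype.card (Lab m M) : ℝ) = m * 64 * M := by simp
  rw [h2]
  calc _ ≤ ((m : ℝ) * (64 * 63 * 62) * M ^ 4 + 3 * ((m * 64) ^ 2 * M ^ 3)
        + 4 * ((m * 64) ^ 2 * M ^ 2)) / ((m : ℝ) * 64 * M) ^ 4 := by gcongr
    _ = _ := by field_simp; ring

end Pool.Agent.P.MP_1e26d1_co.B
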