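import Pool.Agent.P.MP_1e26d1_co.BCons

/-!
The upper bound for the rescaled density of complete 4-graphs.
-/

namespace Pool.Agent.P.MP_1e26d1_co.B

theorem numeric (u : ℝ) (h0 : 0 < u) (h1 : u ≤ 1 / 199) :
    1 / 24 * (1953 / 131072 * (75 / 8 * (1 + 971 / 100 * u)) ^ 3
      + 3 / 4096 * ((75 / 8 * (1 + 971 / 100 * u)) ^ 2 * 25)
      + 1 / 1024 * ((75 / 8 * (1 + 971 / 100 * u)) ^ 2 * 25 ^ 2 * u))
      ≤ 5787 / 10000 + 199 / 10 * u := by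
  have h2 : u ^ 2 ≤ u / 199 := by nlinarith
  have h3 : u ^ 3 ≤ u / 199 ^ 2 := by nlinarith
  nlinarith

theorem rescaled_four {k : ℕ} (hk : 200 ≤ k) :
    rescaledDensity k 4 ≤ 5787 / 10000 + 20 / (k : ℝ) := by
  obtain ⟨a, rfl⟩ : ∃ a, k = a + 1 := ⟨k - 1, by omega⟩
  obtain ⟨m, M, hm, hM, hsum, hm1, hM1⟩ : ∃ m M : ℕ, 0 < m ∧ 0 < M ∧ 9 * m + M = a ∧
      8 * a ≤ 75 * m + 74 ∧ a ≤ 25 * M :=
    ⟨8 * a / 75, a - 9 * (8 * a / 75), by omega, by omega, by omega, by omega, by omega⟩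
  have hd := density_four (k := a + 1) hm hM (by omega)
  have pa : (199 : ℝ) ≤ a := by exact_mod_cast (show 199 ≤ a by omega)
  have pa0 : (0 : ℝ) < a := by linarith
  have pm : (0 : ℝ) < m := by exact_mod_cast hm
  have pM : (0 : ℝ) < M := by exact_mod_cast hM
  have qm : 8 * (a : ℝ) ≤ 75 * m + 74 := by exact_mod_cast hm1
  have qM : (a : ℝ) ≤ 25 * M := by exact_mod_cast hM1
  have hu0 : (0 : ℝ) < 1 / a := by positivity
  have hu1 : 1 / (a : ℝ) ≤ 1 / 199 := by gcongr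
  have hX : (a : ℝ) / m ≤ 75 / 8 * (1 + 971 / 100 * (1 / a)) := by
    rw [div_le_iff₀ pm]
    have e : 75 / 8 * (1 + 971 / 100 * (1 / (a : ℝ))) * m = 75 * m * (a + 971 / 100) / (8 * a) := by
      field_simp
    rw [e, le_div_iff₀ (by positivity)]
    have h1 : (8 * (a : ℝ) - 74) * (a + 971 / 100) ≤ 75 * m * (a + 971 / 100) :=
      mul_le_mul_of_nonneg_right (by linarith) (by positivity)
    have h2 : (8 * (a : ℝ) - 74) * (a + 971 / 100) = a * (8 * a) + (368 / 100 * a - 71854 / 100) := by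
      ring
    linarith
  have hY : (a : ℝ) / M ≤ 25 := by rw [div_le_iff₀ pM]; exact qM
  have hn := numeric (1 / a) hu0 hu1
  have hlast : 199 / 10 * (1 / (a : ℝ)) ≤ 20 / ((a + 1 : ℕ) : ℝ) := by
    push_cast
    rw [mul_one_div, div_le_div_iff₀ pa0 (by positivity)]
    linarith
  unfold rescaledDensity
  have e1 : (((a + 1 : ℕ) : ℝ) - 1) ^ (4 - 1) / ((Nat.factorial 4 : ℕ) : ℝ) = (a : ℝ) ^ 3 / 24 := by
    norm_num [Nat.factorial]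
  rw [e1]
  calc _ ≤ (a : ℝ) ^ 3 / 24 * (1953 / (131072 * (m : ℝ) ^ 3) + 3 / (4096 * (m : ℝ) ^ 2 * M)
        + 1 / (1024 * (m : ℝ) ^ 2 * (M : ℝ) ^ 2)) := by gcongr
    _ = 1 / 24 * (1953 / 131072 * ((a : ℝ) / m) ^ 3 + 3 / 4096 * (((a : ℝ) / m) ^ 2 * (a / M))
        + 1 / 1024 * (((a : ℝ) / m) ^ 2 * ((a : ℝ) / M) ^ 2 * (1 / a))) := by field_simp
    _ ≤ 1 / 24 * (1953 / 131072 * (75 / 8 * (1 + 971 / 100 * (1 / (a : ℝ)))) ^ 3
        + 3 / 4096 * ((75 / 8 * (1 + 971 / 100 * (1 / (a : ℝ)))) ^ 2 * 25)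
        + 1 / 1024 * ((75 / 8 * (1 + 971 / 100 * (1 / (a : ℝ)))) ^ 2 * 25 ^ 2 * (1 / a))) := by
        gcongr
    _ ≤ _ := by linarith

end Pool.Agent.P.MP_1e26d1_co.B
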