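import Pool.Agent.P.MP_1e26d1_co.Merge

/-!
Counting lemmas for the triples of a hypergraph.
-/

namespace Pool.Agent.P.MP_1e26d1_co

open Finset

set_option linter.unusedSectionVars false

variable {V ι : Type*} [Fintype V] [DecidableEq V]

open Classical in
/-- indicator of the edges of size three -/
noncomputable def h3 (A : Finset ι) (E : ι → Finset V) (a b c : V) : ℝ :=
  if (∃ e ∈ A, E e = {a, b, c}) ∧ a ≠ b ∧ a ≠ c ∧ b ≠ c then 1 else 0

variable (A : Finset ι) (E : ι → Finset V)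

theorem h3_zo (a b c : V) : h3 A E a b c = 0 ∨ h3 A E a b c = 1 := by
  unfold h3; split_ifs <;> simp

theorem h3_nonneg (a b c : V) : 0 ≤ h3 A E a b c := by
  rcases h3_zo A E a b c with h | h <;> rw [h] <;> norm_num

theorem h3_12 (a b c : V) : h3 A E a b c = h3 A E b a c := by
  unfold h3
  have : ({a, b, c} : Finset V) = {b, a, c} := insert_comm a b {c}
  rw [this]
  congr 1
  apply propext
  constructor <;> rintro ⟨h, h1, h2, h3⟩ <;> exact ⟨h, h1.symm, h3, h2⟩

theorem h3_23 (a b c : V) : h3 A E a b c = h3 A E a c b := by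
  unfold h3
  have : ({a, b, c} : Finset V) = {a, c, b} := by rw [pair_comm b c]
  rw [this]
  congr 1
  apply propext
  constructor <;> rintro ⟨h, h1, h2, h3⟩ <;> exact ⟨h, h2, h1, h3.symm⟩

theorem h3_aab (a c : V) : h3 A E a a c = 0 := by simp [h3]
theorem h3_aba (a c : V) : h3 A E a c a = 0 := by simp [h3]
theorem h3_abb (a c : V) : h3 A E a c c = 0 := by simp [h3]

theorem h3_spec {a b c : V} (h : h3 A E a b c ≠ 0) :
    (∃ e ∈ A, E e = {a, b, c}) ∧ a ≠ b ∧ a ≠ c ∧ b ≠ c := by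
  unfold h3 at h
  by_contra hc
  rw [if_neg hc] at h
  exact h rfl

theorem count_six (s : Finset V) (hs : s.card = 3) :
    ∑ i, ∑ j, ∑ k, (if s = {i, j, k} ∧ i ≠ j ∧ i ≠ k ∧ j ≠ k then (1 : ℝ) else 0) ≤ 6 := by
  have h1 : ∑ i, ∑ j, ∑ k, (if s = {i, j, k} ∧ i ≠ j ∧ i ≠ k ∧ j ≠ k then (1 : ℝ) else 0)
      ≤ ∑ i, ∑ j, ∑ k, (if i ∈ s then (if j ∈ s.erase i then
          (if k ∈ (s.erase i).erase j then (1 : ℝ) else 0) else 0) else 0) := by
    refine sum_le_sum fun i _ => sum_le_sum fun j _ => sum_le_sum fun k _ => ?_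
    by_cases h : s = {i, j, k} ∧ i ≠ j ∧ i ≠ k ∧ j ≠ k
    · obtain ⟨rfl, h1, h2, h3⟩ := h
      simp [h1, h2, h3, h1.symm, h2.symm, h3.symm]
    · rw [if_neg h]
      split_ifs <;> norm_num
  refine h1.trans (le_of_eq ?_)
  have h2 : ∀ i ∈ s, ∀ j ∈ s.erase i,
      ∑ k, (if k ∈ (s.erase i).erase j then (1 : ℝ) else 0) = 1 := by
    intro i hi j hj
    rw [sum_ite_mem, univ_inter, sum_const, card_erase_of_mem hj, card_erase_of_mem hi, hs]
    simp
  have h3 : ∀ i ∈ s, ∑ j, ∑ k, (if j ∈ s.erase i then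
      (if k ∈ (s.erase i).erase j then (1 : ℝ) else 0) else 0) = 2 := by
    intro i hi
    have : ∀ j, ∑ k, (if j ∈ s.erase i then
      (if k ∈ (s.erase i).erase j then (1 : ℝ) else 0) else 0) = if j ∈ s.erase i then 1 else 0 := by
      intro j
      by_cases hj : j ∈ s.erase i
      · simp only [if_pos hj]; exact h2 i hi j hj
      · simp only [if_neg hj]; simp
    rw [sum_congr rfl fun j _ => this j, sum_ite_mem, univ_inter, sum_const,
      card_erase_of_mem hi, hs]
    simp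
  have : ∀ i, ∑ j, ∑ k, (if i ∈ s then (if j ∈ s.erase i then
      (if k ∈ (s.erase i).erase j then (1 : ℝ) else 0) else 0) else 0)
      = if i ∈ s then 2 else 0 := by
    intro i
    by_cases hi : i ∈ s
    · simp only [if_pos hi]; exact h3 i hi
    · simp only [if_neg hi]; simp
  rw [sum_congr rfl fun i _ => this i, sum_ite_mem, univ_inter, sum_const, hs]
  norm_num

theorem sum_h3_le (F : Finset V → ℝ) (hF : ∀ s, 0 ≤ F s) :
    ∑ i, ∑ j, ∑ k, h3 A E i j k * F {i, j, k}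
      ≤ 6 * ∑ e ∈ A.filter (fun e => (E e).card = 3), F (E e) := by
  have h1 : ∀ i j k, h3 A E i j k * F {i, j, k} ≤ ∑ e ∈ A.filter (fun e => (E e).card = 3),
      (if E e = {i, j, k} ∧ i ≠ j ∧ i ≠ k ∧ j ≠ k then (1 : ℝ) else 0) * F (E e) := by
    intro i j k
    have hnn : ∀ e ∈ A.filter (fun e => (E e).card = 3),
        0 ≤ (if E e = {i, j, k} ∧ i ≠ j ∧ i ≠ k ∧ j ≠ k then (1 : ℝ) else 0) * F (E e) :=
      fun e _ => mul_nonneg (by split_ifs <;> norm_num) (hF _)
    rcases h3_zo A E i j k with h | h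
    · rw [h, zero_mul]; exact sum_nonneg hnn
    · obtain ⟨⟨e, he, hE⟩, h1, h2, h3'⟩ := h3_spec A E (by rw [h]; exact one_ne_zero)
      have hm : e ∈ A.filter (fun e => (E e).card = 3) := by
        rw [mem_filter, hE]
        exact ⟨he, card_eq_three.2 ⟨i, j, k, h1, h2, h3', rfl⟩⟩
      refine le_trans (le_of_eq ?_) (single_le_sum hnn hm)
      rw [h, if_pos ⟨hE, h1, h2, h3'⟩, hE]
  calc ∑ i, ∑ j, ∑ k, h3 A E i j k * F {i, j, k}
      ≤ ∑ i, ∑ j, ∑ k, ∑ e ∈ A.filter (fun e => (E e).card = 3),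
        (if E e = {i, j, k} ∧ i ≠ j ∧ i ≠ k ∧ j ≠ k then (1 : ℝ) else 0) * F (E e) :=
        sum_le_sum fun i _ => sum_le_sum fun j _ => sum_le_sum fun k _ => h1 i j k
    _ = ∑ e ∈ A.filter (fun e => (E e).card = 3), (∑ i, ∑ j, ∑ k,
        (if E e = {i, j, k} ∧ i ≠ j ∧ i ≠ k ∧ j ≠ k then (1 : ℝ) else 0)) * F (E e) := by
        simp only [sum_mul]
        rw [sum_congr rfl fun i _ => sum_congr rfl fun j _ => sum_comm,
          sum_congr rfl fun i _ => sum_comm, sum_comm]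
    _ ≤ ∑ e ∈ A.filter (fun e => (E e).card = 3), 6 * F (E e) :=
        sum_le_sum fun e he => mul_le_mul_of_nonneg_right
          (count_six _ (mem_filter.1 he).2) (hF _)
    _ = _ := by rw [mul_sum]

theorem s13 (f : V → V → V → ℝ) : ∑ a, ∑ b, ∑ c, f a b c = ∑ a, ∑ b, ∑ c, f c b a := by
  rw [sum_congr rfl fun a _ => sum_comm, sum_comm]
  exact sum_congr rfl fun a _ => sum_comm

theorem s14 (f : V → V → V → V → ℝ) :
    ∑ a, ∑ b, ∑ c, ∑ d, f a b c d = ∑ a, ∑ b, ∑ c, ∑ d, f d b c a := by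
  rw [sum_comm]
  conv_rhs => rw [sum_comm]
  exact sum_congr rfl fun b _ => s13 (fun a c d => f a b c d)

/-- weighted link size -/
noncomputable def lk (x : V → ℝ) (v : V) : ℝ := ∑ i, ∑ j, h3 A E v i j * x i * x j

theorem prod_three {i j k : V} (x : V → ℝ) (h1 : i ≠ j) (h2 : i ≠ k) (h3 : j ≠ k) :
    ∏ p ∈ ({i, j, k} : Finset V), x p = x i * x j * x k := by
  rw [prod_insert (by simp [h1, h2]), prod_pair h3, mul_assoc]

theorem lk_le (x : V → ℝ) (hx : ∀ i, 0 ≤ x i) (v : V) :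
    x v * lk A E x v ≤ 2 * ∑ e ∈ A.filter (fun e => v ∈ E e ∧ (E e).card = 3), ∏ i ∈ E e, x i := by
  have h := sum_h3_le A E (fun s => if v ∈ s then ∏ i ∈ s, x i else 0)
    (fun s => by split_ifs; exacts [prod_nonneg fun i _ => hx i, le_rfl])
  have hr : ∑ e ∈ A.filter (fun e => (E e).card = 3), (if v ∈ E e then ∏ i ∈ E e, x i else 0)
      = ∑ e ∈ A.filter (fun e => v ∈ E e ∧ (E e).card = 3), ∏ i ∈ E e, x i := by
    rw [← sum_filter, filter_filter]
    exact sum_congr (filter_congr fun e _ => and_comm) fun _ _ => rfl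
  have hp : ∀ i j k, h3 A E i j k * (if v ∈ ({i, j, k} : Finset V) then
      ∏ p ∈ ({i, j, k} : Finset V), x p else 0)
      = (if i = v then h3 A E i j k * x i * x j * x k else 0)
        + (if j = v then h3 A E i j k * x i * x j * x k else 0)
        + (if k = v then h3 A E i j k * x i * x j * x k else 0) := by
    intro i j k
    by_cases h0 : h3 A E i j k = 0
    · simp [h0]
    obtain ⟨_, h1, h2, h3'⟩ := h3_spec A E h0
    rw [prod_three x h1 h2 h3']
    by_cases hi : i = v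
    · subst hi; simp [h1.symm, h2.symm]; ring
    by_cases hj : j = v
    · subst hj; simp [hi, h3'.symm]; ring
    by_cases hk : k = v
    · subst hk; simp [hi, hj]; ring
    simp [hi, hj, hk, Ne.symm hi, Ne.symm hj, Ne.symm hk]
  have e1 : ∑ i, ∑ j, ∑ k, (if i = v then h3 A E i j k * x i * x j * x k else 0)
      = x v * lk A E x v := by
    rw [sum_eq_single v (fun i _ hi => by simp [hi]) (by simp)]
    unfold lk
    simp only [if_true, mul_sum]
    exact sum_congr rfl fun j _ => sum_congr rfl fun k _ => by ring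
  have e2 : ∑ i, ∑ j, ∑ k, (if j = v then h3 A E i j k * x i * x j * x k else 0)
      = x v * lk A E x v := by
    rw [← e1, sum_comm]
    exact sum_congr rfl fun i _ => sum_congr rfl fun j _ => sum_congr rfl fun k _ => by
      rw [h3_12 A E j i k]; split_ifs <;> ring
  have e3 : ∑ i, ∑ j, ∑ k, (if k = v then h3 A E i j k * x i * x j * x k else 0)
      = x v * lk A E x v := by
    rw [← e2]
    refine sum_congr rfl fun i _ => ?_
    rw [sum_comm]
    exact sum_congr rfl fun j _ => sum_congr rfl fun k _ => by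
      rw [h3_23 A E i k j]; split_ifs <;> ring
  simp only [hp, sum_add_distrib] at h
  rw [e1, e2, e3, hr] at h
  linarith

/-- the off-diagonal part of the cubic form of a link -/
noncomputable def t0 (v i j k : V) : ℝ :=
  if i ≠ j ∧ i ≠ k ∧ j ≠ k then
    (h3 A E v i j * h3 A E v i k + h3 A E v i j * h3 A E v j k + h3 A E v i k * h3 A E v j k
      - h3 A E v i j * h3 A E v j k * h3 A E v i k) / 2 else 0

/-- indicator of a triple that is an edge missing `v` and covers a pair of the link of `v` -/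
noncomputable def rd (v i j k : V) : ℝ :=
  if v ≠ i ∧ v ≠ j ∧ v ≠ k then
    h3 A E i j k * (1 - (1 - h3 A E v i j) * (1 - h3 A E v i k) * (1 - h3 A E v j k)) else 0

theorem rd_nonneg (v i j k : V) : 0 ≤ rd A E v i j k := by
  unfold rd
  split_ifs
  · rcases h3_zo A E i j k with h | h <;> rcases h3_zo A E v i j with h1 | h1 <;>
      rcases h3_zo A E v i k with h2 | h2 <;> rcases h3_zo A E v j k with h3 | h3 <;>
      rw [h, h1, h2, h3] <;> norm_num
  · exact le_rfl

theorem t0_zero {v i j k : V} (h : ¬ (v ≠ i ∧ v ≠ j ∧ v ≠ k ∧ i ≠ j ∧ i ≠ k ∧ j ≠ k)) :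
    t0 A E v i j k = 0 := by
  unfold t0
  split_ifs with h1
  · by_cases hi : v = i
    · subst hi; simp [h3_aab]
    by_cases hj : v = j
    · subst hj; simp [h3_aab, h3_aba]
    by_cases hk : v = k
    · subst hk; simp [h3_aba]
    exact absurd ⟨hi, hj, hk, h1⟩ h
  · rfl

theorem four_set (v i j k : V) :
    (t0 A E v i j k - rd A E v i j k) + (t0 A E i v j k - rd A E i v j k)
      + (t0 A E j i v k - rd A E j i v k) + (t0 A E k i j v - rd A E k i j v) ≤ 0 := by
  by_cases h : v ≠ i ∧ v ≠ j ∧ v ≠ k ∧ i ≠ j ∧ i ≠ k ∧ j ≠ k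
  · obtain ⟨h1, h2, h3', h4, h5, h6⟩ := h
    unfold t0 rd
    rw [if_pos ⟨h4, h5, h6⟩, if_pos ⟨h1, h2, h3'⟩, if_pos ⟨h2, h3', h6⟩, if_pos ⟨h1.symm, h4, h5⟩,
      if_pos ⟨h1.symm, h5, h3'⟩, if_pos ⟨h4.symm, h2.symm, h6⟩,
      if_pos ⟨h4, h1.symm, h2.symm⟩, if_pos ⟨h5.symm, h6.symm, h3'.symm⟩]
    have a1 : h3 A E i v j = h3 A E v i j := h3_12 A E i v j
    have a2 : h3 A E i v k = h3 A E v i k := h3_12 A E i v k
    have a3 : h3 A E j i v = h3 A E v i j := by
      rw [h3_23 A E j i v, h3_12 A E j v i, h3_23 A E v j i]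
    have a4 : h3 A E j i k = h3 A E i j k := h3_12 A E j i k
    have a5 : h3 A E j v k = h3 A E v j k := h3_12 A E j v k
    have a6 : h3 A E k i j = h3 A E i j k := by rw [h3_12 A E k i j, h3_23 A E i k j]
    have a7 : h3 A E k i v = h3 A E v i k := by
      rw [h3_23 A E k i v, h3_12 A E k v i, h3_23 A E v k i]
    have a8 : h3 A E k j v = h3 A E v j k := by
      rw [h3_23 A E k j v, h3_12 A E k v j, h3_23 A E v k j]
    have a9 : h3 A E i j v = h3 A E v i j := by rw [h3_23 A E i j v, h3_12 A E i v j]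
    rw [a1, a2, a3, a4, a5, a6, a7, a8, a9]
    rcases h3_zo A E i j k with h | h <;> rcases h3_zo A E v i j with h1 | h1 <;>
      rcases h3_zo A E v i k with h2 | h2 <;> rcases h3_zo A E v j k with h3 | h3 <;>
      rw [h, h1, h2, h3] <;> norm_num
  · have b1 := t0_zero A E h
    have b2 : t0 A E i v j k = 0 := t0_zero A E (by tauto)
    have b3 : t0 A E j i v k = 0 := t0_zero A E (by tauto)
    have b4 : t0 A E k i j v = 0 := t0_zero A E (by tauto)
    have := rd_nonneg A E v i j k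
    have := rd_nonneg A E i v j k
    have := rd_nonneg A E j i v k
    have := rd_nonneg A E k i j v
    linarith

theorem sum_t0_le (x : V → ℝ) (hx : ∀ i, 0 ≤ x i) :
    ∑ v, x v * ∑ i, ∑ j, ∑ k, t0 A E v i j k * x i * x j * x k
      ≤ ∑ v, x v * ∑ i, ∑ j, ∑ k, rd A E v i j k * x i * x j * x k := by
  set W : V → V → V → V → ℝ := fun v i j k =>
    (t0 A E v i j k - rd A E v i j k) * (x v * x i * x j * x k) with hW
  have e0 : ∑ v, x v * ∑ i, ∑ j, ∑ k, t0 A E v i j k * x i * x j * x k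
      - ∑ v, x v * ∑ i, ∑ j, ∑ k, rd A E v i j k * x i * x j * x k
      = ∑ v, ∑ i, ∑ j, ∑ k, W v i j k := by
    simp only [mul_sum, ← sum_sub_distrib]
    exact sum_congr rfl fun v _ => sum_congr rfl fun i _ => sum_congr rfl fun j _ =>
      sum_congr rfl fun k _ => by rw [hW]; ring
  have e1 : ∑ v, ∑ i, ∑ j, ∑ k, W v i j k = ∑ v, ∑ i, ∑ j, ∑ k, W i v j k := sum_comm
  have e2 : ∑ v, ∑ i, ∑ j, ∑ k, W v i j k = ∑ v, ∑ i, ∑ j, ∑ k, W j i v k :=
    s13 (fun v i j => ∑ k, W v i j k)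
  have e3 : ∑ v, ∑ i, ∑ j, ∑ k, W v i j k = ∑ v, ∑ i, ∑ j, ∑ k, W k i j v := s14 W
  have e4 : ∑ v, ∑ i, ∑ j, ∑ k, (W v i j k + W i v j k + W j i v k + W k i j v) ≤ 0 := by
    refine sum_nonpos fun v _ => sum_nonpos fun i _ => sum_nonpos fun j _ =>
      sum_nonpos fun k _ => ?_
    have hp : 0 ≤ x v * x i * x j * x k :=
      mul_nonneg (mul_nonneg (mul_nonneg (hx v) (hx i)) (hx j)) (hx k)
    have := mul_nonneg (neg_nonneg.2 (four_set A E v i j k)) hp
    simp only [hW]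
    nlinarith [this]
  simp only [sum_add_distrib] at e4
  linarith

end Pool.Agent.P.MP_1e26d1_co
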