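import Mathlib

/-!
Turan numbers and densities of complete hypergraphs, in the conventions of the problem file.
-/

namespace Pool.Agent.P.MP_1e26d1_co

open Filter

/-- `H` is an `r`-graph on `n` vertices all of whose independent sets have fewer than `k`
vertices. -/
def IsTuranSystem (n k r : ℕ) (H : Finset (Finset (Fin n))) : Prop :=
  (∀ e ∈ H, e.card = r) ∧ ∀ S : Finset (Fin n), (∀ e ∈ H, ¬ e ⊆ S) → S.card < k

/-- `T(n,k,r)`: the least number of edges of an `r`-graph on `n` vertices with independence
number below `k`. -/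
noncomputable def turanNumber (n k r : ℕ) : ℕ :=
  sInf {m | ∃ H, IsTuranSystem n k r H ∧ H.card = m}

/-- the ratio `T(n,k,r) / C(n,r)` -/
noncomputable def turanRatio (k r n : ℕ) : ℝ := (turanNumber n k r : ℝ) / (n.choose r : ℝ)

/-- `t(k,r)`, the limit of the ratio -/
noncomputable def turanDensity (k r : ℕ) : ℝ := limUnder atTop (turanRatio k r)

/-- `t_*(k,r) = (k-1)^(r-1) / r! * t(k,r)` -/
noncomputable def rescaledDensity (k r : ℕ) : ℝ :=
  ((k : ℝ) - 1) ^ (r - 1) / (r.factorial : ℝ) * turanDensity k r

end Pool.Agent.P.MP_1e26d1_co
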