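import Pool.Agent.P.MP_1e26d1_co.Count

/-!
The potential of a weighted hypergraph with edges of size at least three is a lower bound
for its independence number.
-/

namespace Pool.Agent.P.MP_1e26d1_co

open Finset

set_option linter.unusedSectionVars false

variable {V ι : Type*} [Fintype V] [DecidableEq V]
variable (A : Finset ι) (E : ι → Finset V)

/-- closed adjacency of the link of `v` -/
noncomputable def adj (v i j : V) : ℝ := if i = j then 1 else h3 A E v i j

theorem adj_Adj (v : V) : Adj (adj A E v) where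
  symm i j := by
    unfold adj
    rw [h3_23 A E v i j]
    simp only [eq_comm]
  diag i := by simp [adj]
  zo i j := by
    unfold adj
    split_ifs
    · exact Or.inr rfl
    · exact h3_zo A E v i j

/-- weighted degree over the edges selected by `P` -/
noncomputable def dg (P : ι → Prop) [DecidablePred P] (x : V → ℝ) (v : V) : ℝ :=
  ∑ e ∈ A.filter (fun e => v ∈ E e ∧ P e), ∏ i ∈ (E e).erase v, x i

theorem dg_nonneg (P : ι → Prop) [DecidablePred P] (x : V → ℝ) (hx : ∀ i, 0 ≤ x i) (v : V) :
    0 ≤ dg A E P x v := sum_nonneg fun _ _ => prod_nonneg fun i _ => hx i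

theorem mul_dg (P : ι → Prop) [DecidablePred P] (x : V → ℝ) (v : V) :
    x v * dg A E P x v = ∑ e ∈ A.filter (fun e => v ∈ E e ∧ P e), ∏ i ∈ E e, x i := by
  unfold dg
  rw [mul_sum]
  exact sum_congr rfl fun e he => mul_prod_erase _ _ (mem_filter.1 he).2.1

theorem prod_update_erase (x : V → ℝ) (v : V) (y : ℝ) (s : Finset V) :
    ∏ i ∈ s.erase v, Function.update x v y i = ∏ i ∈ s.erase v, x i :=
  prod_congr rfl fun _ hi => Function.update_of_ne (ne_of_mem_erase hi) _ _

theorem sum_update (x : V → ℝ) (v : V) (y : ℝ) (f : ℝ → ℝ) :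
    ∑ i, f (Function.update x v y i) = ∑ i, f (x i) - f (x v) + f y := by
  rw [← add_sum_erase _ _ (mem_univ v), ← add_sum_erase _ (fun i => f (x i)) (mem_univ v)]
  rw [sum_congr rfl fun i hi => congrArg f (Function.update_of_ne (ne_of_mem_erase hi) y x)]
  simp only [Function.update_self]
  ring

theorem edge_split (x : V → ℝ) (v : V) :
    ∑ e ∈ A, ∏ i ∈ E e, x i = ∑ e ∈ A.filter (fun e => v ∉ E e), ∏ i ∈ E e, x i
      + x v * (dg A E (fun e => (E e).card = 3) x v + dg A E (fun e => (E e).card ≠ 3) x v) := by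
  rw [mul_add, mul_dg, mul_dg, sum_filter, sum_filter, sum_filter, ← sum_add_distrib,
    ← sum_add_distrib]
  refine sum_congr rfl fun e _ => ?_
  by_cases h1 : v ∈ E e <;> by_cases h2 : (E e).card = 3 <;> simp [h1, h2]

theorem pot_update (x : V → ℝ) (v : V) (y : ℝ) :
    pot A E (Function.update x v y) = pot A E x - gv (x v) + gv y - cm * (y - x v) *
      (dg A E (fun e => (E e).card = 3) x v + dg A E (fun e => (E e).card ≠ 3) x v) := by
  unfold pot
  rw [sum_update x v y gv, edge_split A E x v, edge_split A E (Function.update x v y) v]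
  have h1 : ∑ e ∈ A.filter (fun e => v ∉ E e), ∏ i ∈ E e, Function.update x v y i
      = ∑ e ∈ A.filter (fun e => v ∉ E e), ∏ i ∈ E e, x i :=
    sum_congr rfl fun e he => prod_congr rfl fun i hi =>
      Function.update_of_ne (fun h : i = v => (mem_filter.1 he).2 (h ▸ hi)) _ _
  have h2 : ∀ (P : ι → Prop) [DecidablePred P],
      dg A E P (Function.update x v y) v = dg A E P x v :=
    fun P _ => sum_congr rfl fun e _ => prod_update_erase x v y _
  rw [h1, h2, h2, Function.update_self]
  ring

theorem qf_update (x : V → ℝ) (v : V) :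
    qf (adj A E v) (Function.update x v 0) = ∑ i, x i ^ 2 - x v ^ 2 + lk A E x v := by
  have h := sum_update x v 0 (fun y => y ^ 2)
  simp only [ne_eq, OfNat.ofNat_ne_zero, not_false_eq_true, zero_pow, add_zero] at h
  rw [← h]
  unfold qf lk
  rw [← sum_add_distrib]
  refine sum_congr rfl fun i _ => ?_
  have : Function.update x v 0 i ^ 2
      = ∑ j, if i = j then Function.update x v 0 i * Function.update x v 0 j else 0 := by
    simp [sq]
  rw [this, ← sum_add_distrib]
  refine sum_congr rfl fun j _ => ?_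
  unfold adj
  by_cases hij : i = j
  · subst hij; simp [h3_abb]
  by_cases hi : i = v
  · subst hi; simp [hij, h3_aab]
  by_cases hj : j = v
  · subst hj; simp [hij, h3_aba]
  simp [hij, hi, hj]

theorem tf_update (x : V → ℝ) (v : V) :
    tf (adj A E v) (Function.update x v 0) = ∑ i, x i ^ 3 - x v ^ 3
      + 3 * ∑ i, ∑ k, h3 A E v i k * x i ^ 2 * x k
      + ∑ i, ∑ j, ∑ k, t0 A E v i j k * x i * x j * x k := by
  have h := sum_update x v 0 (fun y => y ^ 3)
  simp only [ne_eq, OfNat.ofNat_ne_zero, not_false_eq_true, zero_pow, add_zero] at h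
  rw [← h]
  set z := Function.update x v 0 with hz
  have hp : ∀ i j k, tau (adj A E v) i j k * z i * z j * z k
      = (if i = j then (if i = k then z i ^ 3 else 0) else 0)
        + (if i = j then h3 A E v i k * x i ^ 2 * x k else 0)
        + (if i = k then h3 A E v i j * x i ^ 2 * x j else 0)
        + (if j = k then h3 A E v j i * x j ^ 2 * x i else 0)
        + t0 A E v i j k * x i * x j * x k := by
    intro i j k
    have zv : z v = 0 := by simp [hz]
    have zn : ∀ p, p ≠ v → z p = x p := fun p hp => by simp [hz, hp]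
    by_cases hi : i = v
    · subst hi
      rw [t0_zero A E (by tauto), zv]
      simp [h3_aab, h3_aba]
    by_cases hj : j = v
    · subst hj
      rw [t0_zero A E (by tauto), zv]
      simp [h3_aab, h3_aba, hi]
    by_cases hk : k = v
    · subst hk
      rw [t0_zero A E (by tauto), zv]
      simp [h3_aba, hi, hj]
    rw [zn i hi, zn j hj, zn k hk]
    by_cases hij : i = j
    · subst hij
      rw [tau_diag (adj_Adj A E v), t0_zero A E (by tauto)]
      by_cases hik : i = k
      · subst hik; simp [adj, h3_abb]; ring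
      · simp only [adj, if_neg hik, if_true]; ring
    by_cases hik : i = k
    · subst hik
      rw [tau_perm23 (adj_Adj A E v), tau_diag (adj_Adj A E v), t0_zero A E (by tauto)]
      simp [adj, hij, Ne.symm hij]; ring
    by_cases hjk : j = k
    · subst hjk
      rw [tau_perm12 (adj_Adj A E v), tau_perm23 (adj_Adj A E v), tau_diag (adj_Adj A E v),
        t0_zero A E (by tauto)]
      simp [adj, hij, Ne.symm hij]; ring
    unfold tau t0 adj
    simp [hij, hik, hjk]
  unfold tf
  simp only [hp, sum_add_distrib]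
  have e1 : ∑ i, ∑ j, ∑ k, (if i = j then (if i = k then z i ^ 3 else 0) else 0)
      = ∑ i, z i ^ 3 := by
    refine sum_congr rfl fun i _ => ?_
    rw [sum_eq_single i (fun j _ hj => by simp [hj.symm]) (by simp)]
    simp
  have e2 : ∑ i, ∑ j, ∑ k, (if i = j then h3 A E v i k * x i ^ 2 * x k else 0)
      = ∑ i, ∑ k, h3 A E v i k * x i ^ 2 * x k := by
    refine sum_congr rfl fun i _ => ?_
    rw [sum_eq_single i (fun j _ hj => by simp [hj.symm]) (by simp)]
    simp
  have e3 : ∑ i, ∑ j, ∑ k, (if i = k then h3 A E v i j * x i ^ 2 * x j else 0)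
      = ∑ i, ∑ k, h3 A E v i k * x i ^ 2 * x k := by
    refine sum_congr rfl fun i _ => sum_congr rfl fun j _ => ?_
    simp
  have e4 : ∑ i, ∑ j, ∑ k, (if j = k then h3 A E v j i * x j ^ 2 * x i else 0)
      = ∑ i, ∑ k, h3 A E v i k * x i ^ 2 * x k := by
    rw [sum_comm]
    refine sum_congr rfl fun i _ => sum_congr rfl fun j _ => ?_
    simp
  rw [e1, e2, e3, e4]
  ring

/-- the edges kept after `v` is chosen -/
def keep (v : V) : Finset ι := A.filter (fun e => ¬ (v ∈ E e ∧ (E e).card = 3))

/-- `s` covers no pair of the link of `v` -/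
def free (v : V) (s : Finset V) : Prop := ∀ p ∈ s, ∀ q ∈ s, p ≠ q → adj A E v p q = 0

open Classical in
/-- the kept edges that cover no pair of the link of `v` -/
noncomputable def clean (v : V) : Finset ι :=
  (keep A E v).filter (fun e => free A E v ((E e).erase v))

theorem clean_le (x : V → ℝ) (hx : ∀ i, 0 ≤ x i) (v : V) :
    ∑ e ∈ clean A E v, ∏ i ∈ (E e).erase v, Function.update x v 0 i
      ≤ ∑ e ∈ A.filter (fun e => v ∉ E e), ∏ i ∈ E e, x i
        - (∑ i, ∑ j, ∑ k, rd A E v i j k * x i * x j * x k) / 6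
        + dg A E (fun e => (E e).card ≠ 3) x v := by
  classical
  have h := sum_h3_le A E (fun s => if v ∉ s ∧ ¬ free A E v s
    then ∏ i ∈ s, x i else 0)
    (fun s => by split_ifs; exacts [prod_nonneg fun i _ => hx i, le_rfl])
  have h1 : ∑ i, ∑ j, ∑ k, rd A E v i j k * x i * x j * x k ≤ ∑ i, ∑ j, ∑ k, h3 A E i j k *
      (if v ∉ ({i, j, k} : Finset V) ∧ ¬ free A E v {i, j, k}
      then ∏ p ∈ ({i, j, k} : Finset V), x p else 0) := by
    refine sum_le_sum fun i _ => sum_le_sum fun j _ => sum_le_sum fun k _ => ?_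
    have hp : 0 ≤ x i * x j * x k := mul_nonneg (mul_nonneg (hx i) (hx j)) (hx k)
    by_cases h0 : h3 A E i j k = 0
    · simp [rd, h0]
    obtain ⟨_, h1, h2, h3'⟩ := h3_spec A E h0
    have h11 := (h3_zo A E i j k).resolve_left h0
    rw [prod_three x h1 h2 h3', h11]
    unfold rd
    rw [h11]
    by_cases hv : v ≠ i ∧ v ≠ j ∧ v ≠ k
    · rw [if_pos hv]
      by_cases hc : free A E v {i, j, k}
      · have c1 := hc i (by simp) j (by simp) h1
        have c2 := hc i (by simp) k (by simp) h2
        have c3 := hc j (by simp) k (by simp) h3'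
        simp only [adj, if_neg h1, if_neg h2, if_neg h3'] at c1 c2 c3
        rw [c1, c2, c3, if_neg (fun hh => hh.2 hc)]
        simp
      · rw [if_pos ⟨by simp [hv.1, hv.2.1, hv.2.2], hc⟩]
        rcases h3_zo A E v i j with a1 | a1 <;> rcases h3_zo A E v i k with a2 | a2 <;>
          rcases h3_zo A E v j k with a3 | a3 <;> rw [a1, a2, a3] <;> nlinarith [hp]
    · rw [if_neg hv]
      split_ifs <;> nlinarith [hp]
  have h2 : ∑ e ∈ clean A E v, ∏ i ∈ (E e).erase v, Function.update x v 0 i
      + ∑ e ∈ A.filter (fun e => (E e).card = 3),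
        (if v ∉ E e ∧ ¬ free A E v (E e)
          then ∏ i ∈ E e, x i else 0)
      ≤ ∑ e ∈ A.filter (fun e => v ∉ E e), ∏ i ∈ E e, x i
        + dg A E (fun e => (E e).card ≠ 3) x v := by
    unfold clean keep dg
    rw [filter_filter, sum_filter, sum_filter, sum_filter, sum_filter, ← sum_add_distrib,
      ← sum_add_distrib]
    refine sum_le_sum fun e _ => ?_
    rw [prod_update_erase]
    have p1 : 0 ≤ ∏ i ∈ E e, x i := prod_nonneg fun i _ => hx i
    have p2 : 0 ≤ ∏ i ∈ (E e).erase v, x i := prod_nonneg fun i _ => hx i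
    by_cases hv : v ∈ E e
    · by_cases hc : (E e).card = 3
      · simp [hv, hc]
      · simp only [hv, hc, ne_eq, not_false_eq_true, and_false, true_and, not_true_eq_false,
          if_false, if_true, and_self, add_zero, zero_add]
        split_ifs <;> linarith
    · rw [erase_eq_of_notMem hv]
      by_cases hq : free A E v (E e)
      · rw [if_pos ⟨fun hh => hv hh.1, hq⟩, if_neg (fun hh : v ∉ E e ∧ ¬ _ => hh.2 hq), if_pos hv,
          if_neg (fun hh : v ∈ E e ∧ _ => hv hh.1)]
        simp
      · rw [if_neg (fun hh : _ ∧ _ => hq hh.2), if_pos hv,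
          if_neg (fun hh : v ∈ E e ∧ _ => hv hh.1)]
        split_ifs <;> linarith
  linarith

theorem poly_bound {y D3 D4 : ℝ} (hy : 0 ≤ y) (h3 : 0 ≤ D3) (h4 : 0 ≤ D4)
    (hs : cm * (D3 + D4) ≤ 1 - cl * y - 3 * cr * y ^ 2) :
    0 ≤ 1 - gv y + cm * y * (D3 + D4) - cm * D4 - cl * D3 - 6 * cr * y * D3 := by
  unfold gv
  unfold cm cl cr at *
  have hy2 : y ≤ 183 / 100 := by nlinarith
  have a0 : 0 ≤ 1 - (y - 49 / 125 / 2 * y ^ 2 - 71 / 2500 * y ^ 3) := by
    nlinarith [mul_nonneg hy (sq_nonneg (y - 1826 / 1000)), sq_nonneg (y - 1826 / 1000)]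
  have a3 : 0 ≤ 19 / 48 * (1 - (y - 49 / 125 / 2 * y ^ 2 - 71 / 2500 * y ^ 3))
      + (1 - 49 / 125 * y - 3 * (71 / 2500) * y ^ 2)
        * (19 / 48 * y - 49 / 125 - 6 * (71 / 2500) * y) := by
    nlinarith [mul_nonneg (sub_nonneg.2 hy2) (sq_nonneg (y - 1 / 2)),
      mul_nonneg hy (sq_nonneg (y - 1 / 2)), mul_nonneg hy (sub_nonneg.2 hy2)]
  have a4 : 0 ≤ (1 - (y - 49 / 125 / 2 * y ^ 2 - 71 / 2500 * y ^ 3))
      + (1 - 49 / 125 * y - 3 * (71 / 2500) * y ^ 2) * (y - 1) := by
    nlinarith [mul_nonneg (mul_nonneg hy hy) (sub_nonneg.2 hy2), mul_nonneg hy (sub_nonneg.2 hy2)]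
  set G := 1 - (y - 49 / 125 / 2 * y ^ 2 - 71 / 2500 * y ^ 3) with hG
  set g' := 1 - 49 / 125 * y - 3 * (71 / 2500) * y ^ 2 with hg'
  set m3 := 19 / 48 * y - 49 / 125 - 6 * (71 / 2500) * y with hm3
  set m4 := 19 / 48 * y - 19 / 48 with hm4
  have goal : 0 ≤ G + D3 * m3 + D4 * m4 := by
    have a4' : 0 ≤ 19 / 48 * G + g' * m4 := by rw [hm4]; nlinarith
    have key : ∀ m : ℝ, m ≤ 0 → m ≤ m3 → m ≤ m4 → 0 ≤ 19 / 48 * G + g' * m →
        0 ≤ G + D3 * m3 + D4 * m4 := by
      intro m hm h1 h2 h5
      nlinarith [mul_nonneg h3 (sub_nonneg.2 h1), mul_nonneg h4 (sub_nonneg.2 h2),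
        mul_nonneg (sub_nonneg.2 hs) (neg_nonneg.2 hm)]
    rcases le_total m3 m4 with h | h
    · rcases le_total m3 0 with h' | h'
      · exact key m3 h' le_rfl h a3
      · exact key 0 le_rfl h' (h'.trans h) (by nlinarith)
    · rcases le_total m4 0 with h' | h'
      · exact key m4 h' h le_rfl a4'
      · exact key 0 le_rfl (h'.trans h) h' (by nlinarith)
  rw [hm3, hm4] at goal
  linarith

theorem exists_pick (x : V → ℝ) (hx : ∀ i, 0 ≤ x i) (hne : ∃ v, x v ≠ 0)
    (hst : ∀ v, x v ≠ 0 → cm * (dg A E (fun e => (E e).card = 3) x v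
      + dg A E (fun e => (E e).card ≠ 3) x v) ≤ 1 - cl * x v - 3 * cr * x v ^ 2) :
    ∃ v, x v ≠ 0 ∧ pot A E x ≤ 1 + mpot (adj A E v) (clean A E v) (fun e => (E e).erase v)
      (Function.update x v 0) := by
  set D3 := fun v => dg A E (fun e => (E e).card = 3) x v with hD3
  set D4 := fun v => dg A E (fun e => (E e).card ≠ 3) x v with hD4
  set P := fun v => ∑ i, ∑ k, h3 A E v i k * x i ^ 2 * x k with hP
  set T := fun v => ∑ i, ∑ j, ∑ k, t0 A E v i j k * x i * x j * x k with hT
  set R := fun v => ∑ i, ∑ j, ∑ k, rd A E v i j k * x i * x j * x k with hR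
  have hcm : 0 < cm := by unfold cm; norm_num
  have hcl : 0 < cl := by unfold cl; norm_num
  have hcr : 0 < cr := by unfold cr; norm_num
  have h6 : 6 * cr ≤ cm := by unfold cr cm; norm_num
  set gain := fun v => 1 - gv (x v) + cm * x v * (D3 v + D4 v) - cm * D4 v
    - cl / 2 * lk A E x v - 3 * cr * P v - cr * T v + cm / 6 * R v with hgain
  have step : ∀ v, pot A E x + gain v ≤ 1 + mpot (adj A E v) (clean A E v)
      (fun e => (E e).erase v) (Function.update x v 0) := by
    intro v
    have h1 := clean_le A E x hx v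
    have h2 := sum_update x v 0 (fun y => y)
    have h3 := mul_le_mul_of_nonneg_left h1 hcm.le
    unfold mpot pot
    rw [qf_update, tf_update, h2, edge_split A E x v]
    simp only [hgain, gv, sum_sub_distrib, ← mul_sum]
    linarith
  have hl : ∀ v, x v * lk A E x v ≤ 2 * (x v * D3 v) := by
    intro v
    have := lk_le A E x hx v
    rwa [← mul_dg A E (fun e => (E e).card = 3) x v] at this
  have hPs : ∑ v, x v * P v = ∑ v, x v * (x v * lk A E x v) := by
    simp only [hP, lk, mul_sum]
    rw [sum_comm]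
    exact sum_congr rfl fun i _ => sum_congr rfl fun v _ => sum_congr rfl fun k _ => by
      rw [h3_12 A E v i k]; ring
  have hTR : ∑ v, x v * T v ≤ ∑ v, x v * R v := sum_t0_le A E x hx
  have hR0 : 0 ≤ ∑ v, x v * R v := sum_nonneg fun v _ => mul_nonneg (hx v)
    (sum_nonneg fun i _ => sum_nonneg fun j _ => sum_nonneg fun k _ =>
      mul_nonneg (mul_nonneg (mul_nonneg (rd_nonneg A E v i j k) (hx i)) (hx j)) (hx k))
  have hsum : 0 ≤ ∑ v, x v * gain v := by
    have e1 : ∑ v, x v * gain v = ∑ v, (x v * (1 - gv (x v) + cm * x v * (D3 v + D4 v) - cm * D4 v)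
        - cl / 2 * (x v * lk A E x v) - 3 * cr * (x v * (x v * lk A E x v)))
        - cr * ∑ v, x v * T v + cm / 6 * ∑ v, x v * R v := by
      rw [sum_sub_distrib, ← mul_sum (f := fun v => x v * (x v * lk A E x v)), ← hPs]
      simp only [mul_sum, ← sum_sub_distrib, ← sum_add_distrib]
      exact sum_congr rfl fun v _ => by simp only [hgain]; ring
    have e2 : 0 ≤ ∑ v, (x v * (1 - gv (x v) + cm * x v * (D3 v + D4 v) - cm * D4 v)
        - cl / 2 * (x v * lk A E x v) - 3 * cr * (x v * (x v * lk A E x v))) := by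
      refine sum_nonneg fun v _ => ?_
      by_cases h0 : x v = 0
      · simp [h0]
      have p := poly_bound (hx v) (dg_nonneg A E _ x hx v) (dg_nonneg A E _ x hx v) (hst v h0)
      have q1 := mul_le_mul_of_nonneg_left (hl v) (by positivity : 0 ≤ cl / 2)
      have q2 := mul_le_mul_of_nonneg_left (hl v)
        (mul_nonneg (by positivity : 0 ≤ 3 * cr) (hx v))
      have q3 := mul_nonneg (hx v) p
      simp only [hD3, hD4] at *
      nlinarith
    rw [e1]
    nlinarith [mul_le_mul_of_nonneg_left hTR hcr.le, mul_le_mul_of_nonneg_right h6 hR0]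
  by_contra hcon
  push Not at hcon
  obtain ⟨w, hw⟩ := hne
  have : ∑ v, x v * gain v < ∑ _v : V, (0 : ℝ) := by
    refine sum_lt_sum (fun v _ => ?_) ⟨w, mem_univ _, ?_⟩
    · by_cases h0 : x v = 0
      · simp [h0]
      have := hcon v h0
      have := step v
      exact mul_nonpos_of_nonneg_of_nonpos (hx v) (by linarith)
    · have := hcon w hw
      have := step w
      exact mul_neg_of_pos_of_neg (lt_of_le_of_ne (hx w) (Ne.symm hw)) (by linarith)
  simp only [sum_const_zero] at this
  linarith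

theorem exists_stationary (x : V → ℝ) (hx : ∀ i, 0 ≤ x i) :
    ∃ z : V → ℝ, (∀ i, 0 ≤ z i) ∧ supp z ⊆ supp x ∧ pot A E x ≤ pot A E z ∧
      ∀ v, z v ≠ 0 → cm * (dg A E (fun e => (E e).card = 3) z v
        + dg A E (fun e => (E e).card ≠ 3) z v) ≤ 1 - cl * z v - 3 * cr * z v ^ 2 := by
  have hc : Continuous (pot A E) := by
    unfold pot gv
    fun_prop
  obtain ⟨z, hz, hmax⟩ := (isCompact_Icc (a := (0 : V → ℝ)) (b := x)).exists_isMaxOn
    ⟨x, hx, le_rfl⟩ hc.continuousOn
  refine ⟨z, hz.1, fun i hi => ?_, hmax ⟨hx, le_rfl⟩, fun v hv => ?_⟩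
  · rw [mem_supp] at hi ⊢
    intro h
    exact hi (le_antisymm (h ▸ hz.2 i) (hz.1 i))
  · have hzv : 0 < z v := lt_of_le_of_ne (hz.1 v) (Ne.symm hv)
    have hcl : 0 < cl := by unfold cl; norm_num
    have hcr : 0 < cr := by unfold cr; norm_num
    set D := dg A E (fun e => (E e).card = 3) z v + dg A E (fun e => (E e).card ≠ 3) z v
    have key : ∀ t, 0 < t → t ≤ z v →
        cm * D ≤ 1 - cl * z v - 3 * cr * z v ^ 2 + t * (cl / 2 + 3 * cr * z v) := by
      intro t ht htz
      have hm : Function.update z v (z v - t) ∈ Set.Icc (0 : V → ℝ) x := by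
        constructor
        · intro i
          by_cases h : i = v
          · subst h; simp; linarith
          · simpa [h] using hz.1 i
        · intro i
          by_cases h : i = v
          · subst h; have := hz.2 i; simp; linarith
          · simpa [h] using hz.2 i
      have h1 : pot A E (Function.update z v (z v - t)) ≤ pot A E z := hmax hm
      rw [pot_update] at h1
      unfold gv at h1
      have h2 : t * (cm * D) ≤ t * (1 - cl * z v - 3 * cr * z v ^ 2
          + t * (cl / 2 + 3 * cr * z v)) := by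
        nlinarith [mul_pos hcr (pow_pos ht 3)]
      exact le_of_mul_le_mul_left h2 ht
    refine le_of_forall_pos_le_add fun ε hε => ?_
    have hC : 0 < cl / 2 + 3 * cr * z v := by positivity
    have h1 := key (min (z v) (ε / (cl / 2 + 3 * cr * z v))) (lt_min hzv (div_pos hε hC))
      (min_le_left _ _)
    have h2 : min (z v) (ε / (cl / 2 + 3 * cr * z v)) * (cl / 2 + 3 * cr * z v) ≤ ε := by
      rw [← le_div_iff₀ hC]; exact min_le_right _ _
    linarith

theorem pot_le_indep : ∀ (n : ℕ) (A : Finset ι) (E : ι → Finset V) (x : V → ℝ),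
    (supp x).card ≤ n → (∀ i, 0 ≤ x i) → (∀ e ∈ A, 3 ≤ (E e).card) →
      ∃ I : Finset V, I ⊆ supp x ∧ (∀ e ∈ A, ¬ E e ⊆ I) ∧ pot A E x ≤ I.card := by
  intro n
  induction n using Nat.strong_induction_on with
  | _ n ih =>
  intro A E x hn hx hA
  obtain ⟨z, hz0, hzs, hzp, hst⟩ := exists_stationary A E x hx
  by_cases hne : ∃ v, z v ≠ 0
  swap
  · push Not at hne
    refine ⟨∅, empty_subset _, fun e he h => ?_, hzp.trans ?_⟩
    · have := hA e he
      rw [subset_empty.1 h] at this
      simp at this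
    · unfold pot gv
      have : 0 ≤ cm * ∑ e ∈ A, ∏ i ∈ E e, z i :=
        mul_nonneg (by unfold cm; norm_num) (sum_nonneg fun _ _ => prod_nonneg fun i _ => hz0 i)
      simp only [hne] at this ⊢
      simp only [card_empty, Nat.cast_zero]
      norm_num at this ⊢
      exact this
  obtain ⟨v, hv, hpick⟩ := exists_pick A E z hz0 hne hst
  have hu0 : ∀ i, 0 ≤ Function.update z v 0 i := by
    intro i
    by_cases h : i = v
    · subst h; simp
    · simpa [h] using hz0 i
  have hus : supp (Function.update z v 0) ⊆ (supp z).erase v := by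
    intro i hi
    rw [mem_supp] at hi
    by_cases h : i = v
    · subst h; simp at hi
    · rw [mem_erase, mem_supp]
      exact ⟨h, by simpa [h] using hi⟩
  classical
  obtain ⟨y, hy0, hys, hyi, hyl⟩ := merge (adj_Adj A E v) (clean A E v) (fun e => (E e).erase v)
    (fun e he => (mem_filter.1 he).2) _ _ le_rfl hu0
  rw [mpot_eq_pot (adj_Adj A E v) _ _ y hyi] at hyl
  have hcard : (supp y).card < n := by
    have h1 := card_le_card (hys.trans hus)
    rw [card_erase_of_mem (mem_supp.2 hv)] at h1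
    have h2 := card_le_card hzs
    have h3 : 0 < (supp z).card := card_pos.2 ⟨v, mem_supp.2 hv⟩
    omega
  obtain ⟨I, hIs, hIi, hIp⟩ := ih _ hcard (clean A E v) (fun e => (E e).erase v) y le_rfl hy0
    (fun e he => by
      have he1 := mem_filter.1 (mem_filter.1 he).1
      have := hA e he1.1
      by_cases h : v ∈ E e
      · rw [card_erase_of_mem h]
        have : (E e).card ≠ 3 := fun hh => he1.2 ⟨h, hh⟩
        omega
      · rwa [erase_eq_of_notMem h])
  have hvI : v ∉ I := fun h => by simpa using hus (hys (hIs h))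
  refine ⟨insert v I, ?_, fun e he hsub => ?_, ?_⟩
  · rw [insert_subset_iff]
    exact ⟨hzs (mem_supp.2 hv), hIs.trans (hys.trans (hus.trans ((erase_subset _ _).trans hzs)))⟩
  · have hsub' : (E e).erase v ⊆ I := by
      intro p hp
      rcases mem_insert.1 (hsub (mem_of_mem_erase hp)) with h | h
      · exact absurd h (ne_of_mem_erase hp)
      · exact h
    have hfree : ∀ p ∈ (E e).erase v, ∀ q ∈ (E e).erase v, p ≠ q → adj A E v p q = 0 :=
      fun p hp q hq hpq => hyi p q hpq (mem_supp.1 (hIs (hsub' hp))) (mem_supp.1 (hIs (hsub' hq)))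
    by_cases h : v ∈ E e ∧ (E e).card = 3
    · have h2 : ((E e).erase v).card = 2 := by rw [card_erase_of_mem h.1, h.2]
      obtain ⟨p, q, hpq, hE⟩ := card_eq_two.1 h2
      have hp : p ∈ (E e).erase v := by rw [hE]; simp
      have hq : q ∈ (E e).erase v := by rw [hE]; simp
      have h0 := hfree p hp q hq hpq
      unfold adj h3 at h0
      rw [if_neg hpq, if_pos] at h0
      · exact one_ne_zero h0
      · refine ⟨⟨e, he, ?_⟩, (ne_of_mem_erase hp).symm, (ne_of_mem_erase hq).symm, hpq⟩
        rw [← hE, insert_erase h.1]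
    · exact hIi e (mem_filter.2 ⟨mem_filter.2 ⟨he, h⟩, hfree⟩) hsub'
  · rw [card_insert_of_notMem hvI]
    push_cast
    linarith

end Pool.Agent.P.MP_1e26d1_co
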