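import Pool.Agent.P.MP_1e26d1_co.Limit
import Pool.Agent.P.MP_1e26d1_co.Pick

/-!
From the potential bound to the Turan density.
-/

namespace Pool.Agent.P.MP_1e26d1_co

open Finset Filter Topology

theorem uniform_bound {n k r : ℕ} (hr : 3 ≤ r) (hk : r ≤ k) (y : ℝ) (hy : 0 ≤ y) :
    n * gv y - cm * (turanNumber n k r * y ^ r) ≤ (k : ℝ) - 1 := by
  obtain ⟨H, hH, hc⟩ := exists_opt (n := n) hk
  obtain ⟨I, _, hI, hp⟩ := pot_le_indep _ H id (fun _ => y) le_rfl (fun _ => hy)
    (fun e he => by rw [id, hH.1 e he]; exact hr)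
  have h1 : (I.card : ℝ) + 1 ≤ k := by exact_mod_cast hH.2 I hI
  unfold pot at hp
  rw [sum_congr rfl fun e he => (show ∏ _i ∈ id e, y = y ^ r by rw [prod_const, id, hH.1 e he])]
    at hp
  simp only [sum_const, card_univ, Fintype.card_fin, nsmul_eq_mul, hc] at hp
  linarith

theorem ratio_bound {k r : ℕ} (hr : 3 ≤ r) (hk : r ≤ k) (X : ℝ) (hX : 0 < X) (n : ℕ) (hn : r ≤ n) :
    X - (k - 1) - (cl / 2 * X ^ 2 + cr * X ^ 3) / n
      ≤ cm * X ^ r / r.factorial * turanRatio k r n := by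
  have hn0 : (1 : ℝ) ≤ n := by exact_mod_cast (show 1 ≤ n by omega)
  have hn1 : (0 : ℝ) < n := by linarith
  have h := uniform_bound (n := n) hr hk (X / n) (by positivity)
  have hcm : 0 < cm := by unfold cm; norm_num
  have hcr : 0 < cr := by unfold cr; norm_num
  have p1 : (0 : ℝ) < n.choose r := by exact_mod_cast Nat.choose_pos hn
  have p2 : (n.choose r : ℝ) ≤ (n : ℝ) ^ r / r.factorial := Nat.choose_le_pow_div r n
  have p3 : (0 : ℝ) < r.factorial := by exact_mod_cast r.factorial_pos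
  have e1 : (n : ℝ) * gv (X / n) = X - cl / 2 * X ^ 2 / n - cr * X ^ 3 / n / n := by
    unfold gv; field_simp
  have e2 : cr * X ^ 3 / n / n ≤ cr * X ^ 3 / n := div_le_self (by positivity) hn0
  have e3 : (turanNumber n k r : ℝ) * (X / n) ^ r ≤ X ^ r / r.factorial * turanRatio k r n := by
    unfold turanRatio
    have : (turanNumber n k r : ℝ) * (X / n) ^ r
        = X ^ r / r.factorial * (turanNumber n k r / ((n : ℝ) ^ r / r.factorial)) := by
      rw [div_pow]; field_simp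
    rw [this]
    gcongr
  have e4 := mul_le_mul_of_nonneg_left e3 hcm.le
  rw [e1] at h
  have e5 : cm * X ^ r / r.factorial * turanRatio k r n
      = cm * (X ^ r / r.factorial * turanRatio k r n) := by ring
  rw [e5, add_div]
  linarith

theorem density_bound {k r : ℕ} (hr : 3 ≤ r) (hk : r ≤ k) (X : ℝ) (hX : 0 < X) :
    X - (k - 1) ≤ cm * X ^ r / r.factorial * turanDensity k r := by
  have h1 : Tendsto (fun n : ℕ => X - (k - 1) - (cl / 2 * X ^ 2 + cr * X ^ 3) / n) atTop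
      (𝓝 (X - (k - 1) - 0)) :=
    tendsto_const_nhds.sub (tendsto_const_div_atTop_nhds_zero_nat _)
  rw [sub_zero] at h1
  exact le_of_tendsto_of_tendsto h1 ((ratio_tendsto hk).const_mul _)
    (eventually_atTop.2 ⟨r, fun n hn => ratio_bound hr hk X hX n hn⟩)

theorem rescaled_bound {k r : ℕ} (hr : 3 ≤ r) (hk : r ≤ k) :
    48 / 19 * (((r : ℝ) - 1) ^ (r - 1) / (r : ℝ) ^ r) ≤ rescaledDensity k r := by
  obtain ⟨s, rfl⟩ : ∃ s, r = s + 1 := ⟨r - 1, by omega⟩
  have hs : (0 : ℝ) < s := by exact_mod_cast (show 0 < s by omega)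
  have ha : (0 : ℝ) < (k : ℝ) - 1 := by
    have : (2 : ℝ) ≤ k := by exact_mod_cast (show 2 ≤ k by omega)
    linarith
  have h := density_bound hr hk (((k : ℝ) - 1) * (s + 1) / s) (by positivity)
  unfold rescaledDensity
  set a := (k : ℝ) - 1
  have p3 : (0 : ℝ) < (s + 1).factorial := by exact_mod_cast (s + 1).factorial_pos
  simp only [Nat.add_sub_cancel, Nat.cast_add, Nat.cast_one, add_sub_cancel_right]
  have e1 : a * (s + 1) / s - a = a / s := by field_simp; ring
  have e2 : cm * (a * (s + 1) / s) ^ (s + 1) / (s + 1).factorial * turanDensity k (s + 1)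
      = (a / s) * (19 / 48 * ((s + 1 : ℝ) ^ (s + 1) / (s : ℝ) ^ s)
        * (a ^ s / (s + 1).factorial * turanDensity k (s + 1))) := by
    unfold cm
    rw [div_pow, mul_pow, pow_succ a, pow_succ (s : ℝ)]
    field_simp
  rw [e1, e2] at h
  have h2 : 1 ≤ 19 / 48 * ((s + 1 : ℝ) ^ (s + 1) / (s : ℝ) ^ s)
      * (a ^ s / (s + 1).factorial * turanDensity k (s + 1)) := by
    have hp : 0 < a / s := by positivity
    exact le_of_mul_le_mul_left (by rw [mul_one]; exact h) hp
  have h3 : 48 / 19 * ((s : ℝ) ^ s / (s + 1 : ℝ) ^ (s + 1))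
      * (19 / 48 * ((s + 1 : ℝ) ^ (s + 1) / (s : ℝ) ^ s)) = 1 := by field_simp
  have h4 : 0 < 48 / 19 * ((s : ℝ) ^ s / (s + 1 : ℝ) ^ (s + 1)) := by positivity
  have h5 := mul_le_mul_of_nonneg_left h2 h4.le
  rw [← mul_assoc, h3, mul_one, one_mul] at h5
  exact h5

end Pool.Agent.P.MP_1e26d1_co
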