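import Pool.Agent.P.MP_1e26d1_co.Defs

/-!
The Turan ratio is nondecreasing and converges.
-/

namespace Pool.Agent.P.MP_1e26d1_co

open Finset Filter Topology

theorem complete_system {n k r : ℕ} (hk : r ≤ k) :
    IsTuranSystem n k r (powersetCard r univ) := by
  refine ⟨fun e he => (mem_powersetCard.1 he).2, fun S hS => ?_⟩
  by_contra h
  obtain ⟨e, he, hc⟩ := exists_subset_card_eq (show r ≤ S.card by omega)
  exact hS e (mem_powersetCard.2 ⟨subset_univ _, hc⟩) he

theorem exists_opt {n k r : ℕ} (hk : r ≤ k) :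
    ∃ H, IsTuranSystem n k r H ∧ H.card = turanNumber n k r :=
  Nat.sInf_mem (s := {m | ∃ H, IsTuranSystem n k r H ∧ H.card = m})
    ⟨_, _, complete_system hk, rfl⟩

theorem turan_le {n k r : ℕ} {H : Finset (Finset (Fin n))} (h : IsTuranSystem n k r H) :
    turanNumber n k r ≤ H.card := Nat.sInf_le ⟨H, h, rfl⟩

theorem turan_le_choose {n k r : ℕ} (hk : r ≤ k) : turanNumber n k r ≤ n.choose r := by
  simpa using turan_le (complete_system (n := n) hk)

theorem turan_le_delete {n k r : ℕ} {H : Finset (Finset (Fin (n + 1)))}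
    (h : IsTuranSystem (n + 1) k r H) (v : Fin (n + 1)) :
    turanNumber n k r ≤ (H.filter (fun e => v ∉ e)).card := by
  classical
  set f : Fin n ↪ Fin (n + 1) := ⟨v.succAbove, Fin.succAbove_right_injective⟩ with hf
  have hmap : ∀ e : Finset (Fin (n + 1)), v ∉ e →
      (univ.filter (fun i => f i ∈ e)).map f = e := by
    intro e he
    ext j
    simp only [Finset.mem_map, mem_filter, mem_univ, true_and]
    constructor
    · rintro ⟨i, hi, rfl⟩; exact hi
    · intro hj
      obtain ⟨i, hi⟩ := Fin.exists_succAbove_eq (show j ≠ v from fun hh => he (hh ▸ hj))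
      exact ⟨i, by rw [show f i = j from hi]; exact hj, hi⟩
  have hsys : IsTuranSystem n k r ((H.filter (fun e => v ∉ e)).image
      (fun e => univ.filter (fun i => f i ∈ e))) := by
    constructor
    · intro e he
      obtain ⟨e', he', rfl⟩ := mem_image.1 he
      rw [← card_map f, hmap e' (mem_filter.1 he').2]
      exact h.1 e' (mem_filter.1 he').1
    · intro S hS
      rw [← card_map f]
      refine h.2 _ fun e he hsub => ?_
      have hv : v ∉ e := fun hv => by
        obtain ⟨i, _, hi⟩ := Finset.mem_map.1 (hsub hv)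
        exact Fin.succAbove_ne v i hi
      refine hS _ (mem_image.2 ⟨e, mem_filter.2 ⟨he, hv⟩, rfl⟩) fun i hi => ?_
      exact (Finset.mem_map' f).1 (hsub (mem_filter.1 hi).2)
  exact (turan_le hsys).trans card_image_le

theorem turan_step {n k r : ℕ} (hk : r ≤ k) :
    (n + 1) * turanNumber n k r ≤ (n + 1 - r) * turanNumber (n + 1) k r := by
  obtain ⟨H, hH, hc⟩ := exists_opt (n := n + 1) hk
  have h1 : ∑ _v : Fin (n + 1), turanNumber n k r
      ≤ ∑ v : Fin (n + 1), (H.filter (fun e => v ∉ e)).card :=
    sum_le_sum fun v _ => turan_le_delete hH v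
  have h2 : ∑ v : Fin (n + 1), (H.filter (fun e => v ∉ e)).card = ∑ _e ∈ H, (n + 1 - r) := by
    simp only [card_filter]
    rw [sum_comm]
    refine sum_congr rfl fun e he => ?_
    rw [← card_filter, filter_not, filter_mem_eq_inter, univ_inter, card_univ_sdiff, hH.1 e he]
    simp
  rw [h2] at h1
  simp only [sum_const, card_univ, Fintype.card_fin, smul_eq_mul, hc] at h1
  rwa [mul_comm (turanNumber (n + 1) k r)] at h1

theorem ratio_nonneg (k r n : ℕ) : 0 ≤ turanRatio k r n := by
  unfold turanRatio; positivity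

theorem ratio_le_one {k r : ℕ} (hk : r ≤ k) (n : ℕ) : turanRatio k r n ≤ 1 := by
  unfold turanRatio
  refine div_le_one_of_le₀ ?_ (by positivity)
  exact_mod_cast turan_le_choose hk

theorem ratio_mono {k r : ℕ} (hk : r ≤ k) : Monotone (turanRatio k r) := by
  refine monotone_nat_of_le_succ fun n => ?_
  rcases lt_or_ge n r with h | h
  · have : turanRatio k r n = 0 := by simp [turanRatio, Nat.choose_eq_zero_of_lt h]
    rw [this]; exact ratio_nonneg _ _ _
  unfold turanRatio
  have p1 : (0 : ℝ) < n.choose r := by exact_mod_cast Nat.choose_pos h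
  have p2 : (0 : ℝ) < (n + 1).choose r := by exact_mod_cast Nat.choose_pos (by omega)
  rw [div_le_div_iff₀ p1 p2]
  have e1 : n.choose r * (n + 1) = (n + 1).choose r * (n + 1 - r) := Nat.choose_mul_succ_eq n r
  have e2 := turan_step (n := n) hk
  have e3 : turanNumber n k r * (n + 1).choose r ≤ turanNumber (n + 1) k r * n.choose r := by
    have hp : 0 < n + 1 - r := by omega
    refine Nat.le_of_mul_le_mul_right ?_ hp
    calc turanNumber n k r * (n + 1).choose r * (n + 1 - r)
        = n.choose r * ((n + 1) * turanNumber n k r) := by rw [mul_assoc, ← e1]; ring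
      _ ≤ n.choose r * ((n + 1 - r) * turanNumber (n + 1) k r) := Nat.mul_le_mul_left _ e2
      _ = _ := by ring
  exact_mod_cast e3

theorem ratio_tendsto {k r : ℕ} (hk : r ≤ k) :
    Tendsto (turanRatio k r) atTop (𝓝 (turanDensity k r)) :=
  tendsto_nhds_limUnder ⟨_, tendsto_atTop_ciSup (ratio_mono hk)
    ⟨1, by rintro _ ⟨n, rfl⟩; exact ratio_le_one hk n⟩⟩

end Pool.Agent.P.MP_1e26d1_co
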