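import Mathlib

/-!
Weighted Zykov merging for a graph laid over a hypergraph.
-/

namespace Pool.Agent.P.MP_1e26d1_co

open Finset

set_option linter.unusedSectionVars false

variable {V ι : Type*} [Fintype V] [DecidableEq V]

/-- quadratic coefficient -/
noncomputable def cl : ℝ := 49 / 125
/-- cubic coefficient -/
noncomputable def cr : ℝ := 71 / 2500
/-- cost of an edge -/
noncomputable def cm : ℝ := 19 / 48

/-- value of a vertex of weight `y` -/
noncomputable def gv (y : ℝ) : ℝ := y - cl / 2 * y ^ 2 - cr * y ^ 3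

/-- the potential of a weighted hypergraph -/
noncomputable def pot (A : Finset ι) (E : ι → Finset V) (x : V → ℝ) : ℝ :=
  ∑ i, gv (x i) - cm * ∑ e ∈ A, ∏ i ∈ E e, x i

/-- weight of an ordered triple: 1 on triangles, 1/2 on induced paths -/
noncomputable def tau (a : V → V → ℝ) (i j k : V) : ℝ :=
  (a i j * a i k + a i j * a j k + a i k * a j k - a i j * a j k * a i k) / 2

noncomputable def qf (a : V → V → ℝ) (x : V → ℝ) : ℝ := ∑ i, ∑ j, a i j * x i * x j

noncomputable def tf (a : V → V → ℝ) (x : V → ℝ) : ℝ :=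
  ∑ i, ∑ j, ∑ k, tau a i j k * x i * x j * x k

/-- the potential with a graph (closed adjacency `a`) laid over the hypergraph -/
noncomputable def mpot (a : V → V → ℝ) (B : Finset ι) (E : ι → Finset V) (x : V → ℝ) : ℝ :=
  ∑ i, x i - cl / 2 * qf a x - cr * tf a x - cm * ∑ e ∈ B, ∏ i ∈ E e, x i

/-- closed adjacency matrices -/
structure Adj (a : V → V → ℝ) : Prop where
  symm : ∀ i j, a i j = a j i
  diag : ∀ i, a i i = 1
  zo : ∀ i j, a i j = 0 ∨ a i j = 1

def Aff (F : ℝ → ℝ) : Prop := ∃ S, ∀ t, F t = F 0 + t * S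

theorem Aff.const (c : ℝ) : Aff (fun _ => c) := ⟨0, by simp⟩

theorem Aff.sub {F G : ℝ → ℝ} (hF : Aff F) (hG : Aff G) : Aff (fun t => F t - G t) := by
  obtain ⟨S, hS⟩ := hF
  obtain ⟨T, hT⟩ := hG
  exact ⟨S - T, fun t => by beta_reduce; rw [hS t, hT t]; ring⟩

theorem Aff.mul {F : ℝ → ℝ} (c : ℝ) (hF : Aff F) : Aff (fun t => c * F t) := by
  obtain ⟨S, hS⟩ := hF
  exact ⟨c * S, fun t => by beta_reduce; rw [hS t]; ring⟩

theorem Aff.sum {κ : Type*} (s : Finset κ) (F : κ → ℝ → ℝ) (h : ∀ k ∈ s, Aff (F k)) :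
    Aff (fun t => ∑ k ∈ s, F k t) := by
  choose! S hS using h
  refine ⟨∑ k ∈ s, S k, fun t => ?_⟩
  beta_reduce
  rw [mul_sum, ← sum_add_distrib]
  exact sum_congr rfl fun k hk => hS k hk t

theorem Aff.le_max {F : ℝ → ℝ} (hF : Aff F) {p q : ℝ} (hp : 0 ≤ p) (hq : 0 ≤ q) :
    F 0 ≤ F q ∨ F 0 ≤ F (-p) := by
  obtain ⟨S, hS⟩ := hF
  rcases le_total 0 S with h | h
  · left; rw [hS q]; nlinarith [mul_nonneg hq h]
  · right; rw [hS (-p)]; nlinarith [mul_nonneg hp (neg_nonneg.2 h)]

/-- the direction moving weight from `j` to `i` -/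
def dir (i j : V) (k : V) : ℝ := (if k = i then 1 else 0) - (if k = j then 1 else 0)

theorem sum_dir (i j : V) (f : V → ℝ) : ∑ k, f k * dir i j k = f i - f j := by
  simp [dir, mul_sub, sum_sub_distrib]

theorem tau_perm12 {a : V → V → ℝ} (ha : Adj a) (i j k : V) : tau a i j k = tau a j i k := by
  unfold tau; rw [ha.symm j i]; ring

theorem tau_perm23 {a : V → V → ℝ} (ha : Adj a) (i j k : V) : tau a i j k = tau a i k j := by
  unfold tau; rw [ha.symm k j]; ring

theorem tau_diag {a : V → V → ℝ} (ha : Adj a) (i k : V) : tau a i i k = a i k := by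
  unfold tau; rw [ha.diag i]; ring

theorem tau_dd {a : V → V → ℝ} (ha : Adj a) {i j : V} (hij : a i j = 1) (k : V) :
    ∑ p, ∑ q, tau a p q k * dir i j p * dir i j q = 0 := by
  have h1 : ∀ p, ∑ q, tau a p q k * dir i j p * dir i j q
      = (tau a p i k - tau a p j k) * dir i j p := by
    intro p
    rw [← sum_dir i j (fun q => tau a p q k), sum_mul]
    exact sum_congr rfl fun q _ => by ring
  rw [sum_congr rfl fun p _ => h1 p, sum_dir i j (fun p => tau a p i k - tau a p j k)]
  rw [tau_diag ha, tau_diag ha, tau_perm12 ha j i k]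
  unfold tau
  rw [hij]; ring

theorem aff_qf {a : V → V → ℝ} (ha : Adj a) {i j : V} (hij : a i j = 1) (x : V → ℝ) :
    Aff (fun t => qf a (fun k => x k + t * dir i j k)) := by
  have h0 : ∑ p, ∑ q, a p q * dir i j p * dir i j q = 0 := by
    have h1 : ∀ p, ∑ q, a p q * dir i j p * dir i j q = (a p i - a p j) * dir i j p := by
      intro p
      rw [← sum_dir i j (fun q => a p q), sum_mul]
      exact sum_congr rfl fun q _ => by ring
    rw [sum_congr rfl fun p _ => h1 p, sum_dir i j (fun p => a p i - a p j)]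
    rw [ha.diag, ha.diag, ha.symm j i, hij]; ring
  refine ⟨∑ p, ∑ q, a p q * (dir i j p * x q + x p * dir i j q), fun t => ?_⟩
  have : qf a (fun k => x k + t * dir i j k) = qf a (fun k => x k + 0 * dir i j k)
      + t * ∑ p, ∑ q, a p q * (dir i j p * x q + x p * dir i j q)
      + t ^ 2 * ∑ p, ∑ q, a p q * dir i j p * dir i j q := by
    unfold qf
    simp only [mul_sum, ← sum_add_distrib]
    exact sum_congr rfl fun p _ => sum_congr rfl fun q _ => by ring
  beta_reduce
  rw [this, h0]; ring

theorem aff_tf {a : V → V → ℝ} (ha : Adj a) {i j : V} (hij : a i j = 1) (x : V → ℝ) :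
    Aff (fun t => tf a (fun k => x k + t * dir i j k)) := by
  have h3 : ∀ y : V → ℝ, ∑ p, ∑ q, ∑ r, tau a p q r * dir i j p * dir i j q * y r = 0 := by
    intro y
    have : ∑ p, ∑ q, ∑ r, tau a p q r * dir i j p * dir i j q * y r
        = ∑ r, (∑ p, ∑ q, tau a p q r * dir i j p * dir i j q) * y r := by
      simp only [sum_mul]
      rw [sum_congr rfl fun p _ => sum_comm, sum_comm]
    rw [this]
    exact sum_eq_zero fun r _ => by rw [tau_dd ha hij r, zero_mul]
  have h2 : ∑ p, ∑ q, ∑ r, tau a p q r * dir i j p * x q * dir i j r = 0 := by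
    rw [← h3 x]
    refine sum_congr rfl fun p _ => ?_
    rw [sum_comm]
    exact sum_congr rfl fun q _ => sum_congr rfl fun r _ => by rw [tau_perm23 ha p r q]; ring
  have h1 : ∑ p, ∑ q, ∑ r, tau a p q r * x p * dir i j q * dir i j r = 0 := by
    rw [← h2, sum_comm]
    exact sum_congr rfl fun p _ => sum_congr rfl fun q _ => sum_congr rfl fun r _ => by
      rw [tau_perm12 ha q p r]; ring
  refine ⟨∑ p, ∑ q, ∑ r, tau a p q r *
    (dir i j p * x q * x r + x p * dir i j q * x r + x p * x q * dir i j r), fun t => ?_⟩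
  have : tf a (fun k => x k + t * dir i j k) = tf a (fun k => x k + 0 * dir i j k)
      + t * ∑ p, ∑ q, ∑ r, tau a p q r *
        (dir i j p * x q * x r + x p * dir i j q * x r + x p * x q * dir i j r)
      + t ^ 2 * ∑ p, ∑ q, ∑ r, tau a p q r * dir i j p * dir i j q * x r
      + t ^ 2 * ∑ p, ∑ q, ∑ r, tau a p q r * dir i j p * x q * dir i j r
      + t ^ 2 * ∑ p, ∑ q, ∑ r, tau a p q r * x p * dir i j q * dir i j r
      + t ^ 3 * ∑ p, ∑ q, ∑ r, tau a p q r * dir i j p * dir i j q * dir i j r := by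
    unfold tf
    simp only [mul_sum, ← sum_add_distrib]
    exact sum_congr rfl fun p _ => sum_congr rfl fun q _ => sum_congr rfl fun r _ => by ring
  beta_reduce
  rw [this, h1, h2, h3, h3]; ring

theorem aff_prod {i j : V} (s : Finset V) (hs : ¬ (i ∈ s ∧ j ∈ s)) (x : V → ℝ) :
    Aff (fun t => ∏ k ∈ s, (x k + t * dir i j k)) := by
  by_cases hi : i ∈ s
  · have hj : j ∉ s := fun h => hs ⟨hi, h⟩
    refine ⟨∏ k ∈ s.erase i, x k, fun t => ?_⟩
    have h : ∀ t : ℝ, ∏ k ∈ s, (x k + t * dir i j k) = (x i + t) * ∏ k ∈ s.erase i, x k := by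
      intro t
      rw [← mul_prod_erase s _ hi]
      have hij : i ≠ j := fun h => hj (h ▸ hi)
      congr 1
      · simp [dir, hij]
      · refine prod_congr rfl fun k hk => ?_
        have h1 : k ≠ i := ne_of_mem_erase hk
        have h2 : k ≠ j := fun h => hj (h ▸ mem_of_mem_erase hk)
        simp [dir, h1, h2]
    beta_reduce; rw [h t, h 0]; ring
  · by_cases hj : j ∈ s
    · refine ⟨-∏ k ∈ s.erase j, x k, fun t => ?_⟩
      have h : ∀ t : ℝ, ∏ k ∈ s, (x k + t * dir i j k) = (x j - t) * ∏ k ∈ s.erase j, x k := by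
        intro t
        rw [← mul_prod_erase s _ hj]
        have hij : j ≠ i := fun h => hi (h ▸ hj)
        congr 1
        · simp [dir, hij]; ring
        · refine prod_congr rfl fun k hk => ?_
          have h1 : k ≠ j := ne_of_mem_erase hk
          have h2 : k ≠ i := fun h => hi (h ▸ mem_of_mem_erase hk)
          simp [dir, h1, h2]
      beta_reduce; rw [h t, h 0]; ring
    · refine ⟨0, fun t => ?_⟩
      have h : ∀ t : ℝ, ∏ k ∈ s, (x k + t * dir i j k) = ∏ k ∈ s, x k := by
        intro t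
        refine prod_congr rfl fun k hk => ?_
        have h1 : k ≠ j := fun h => hj (h ▸ hk)
        have h2 : k ≠ i := fun h => hi (h ▸ hk)
        simp [dir, h1, h2]
      beta_reduce; rw [h t, h 0]; ring

theorem aff_mpot {a : V → V → ℝ} (ha : Adj a) {i j : V} (hij : a i j = 1) (hne : i ≠ j)
    (B : Finset ι) (E : ι → Finset V)
    (hB : ∀ e ∈ B, ∀ p ∈ E e, ∀ q ∈ E e, p ≠ q → a p q = 0) (x : V → ℝ) :
    Aff (fun t => mpot a B E (fun k => x k + t * dir i j k)) := by
  unfold mpot
  refine ((Aff.sub ?_ ((aff_qf ha hij x).mul _)).sub ((aff_tf ha hij x).mul _)).sub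
    (Aff.mul _ (Aff.sum B (fun e t => ∏ k ∈ E e, (x k + t * dir i j k)) fun e he => ?_))
  · exact Aff.sum univ (fun k t => x k + t * dir i j k) fun k _ => ⟨dir i j k, fun t => by ring⟩
  · refine aff_prod _ (fun h => ?_) x
    have := hB e he i h.1 j h.2 hne
    rw [hij] at this
    exact one_ne_zero this

/-- the support of a weighting -/
noncomputable def supp (x : V → ℝ) : Finset V := univ.filter (fun i => x i ≠ 0)

theorem mem_supp {x : V → ℝ} {i : V} : i ∈ supp x ↔ x i ≠ 0 := by simp [supp]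

theorem merge {a : V → V → ℝ} (ha : Adj a) (B : Finset ι) (E : ι → Finset V)
    (hB : ∀ e ∈ B, ∀ p ∈ E e, ∀ q ∈ E e, p ≠ q → a p q = 0) :
    ∀ (n : ℕ) (x : V → ℝ), (supp x).card ≤ n → (∀ i, 0 ≤ x i) →
      ∃ y : V → ℝ, (∀ i, 0 ≤ y i) ∧ supp y ⊆ supp x ∧
        (∀ p q, p ≠ q → y p ≠ 0 → y q ≠ 0 → a p q = 0) ∧ mpot a B E x ≤ mpot a B E y := by
  intro n
  induction n with
  | zero =>
    intro x hx h0
    refine ⟨x, h0, Subset.rfl, fun p q _ hp _ => ?_, le_rfl⟩
    have : p ∈ supp x := mem_supp.2 hp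
    rw [card_eq_zero.1 (Nat.le_zero.1 hx)] at this
    simp at this
  | succ n ih =>
    intro x hx h0
    by_cases hind : ∀ p q, p ≠ q → x p ≠ 0 → x q ≠ 0 → a p q = 0
    · exact ⟨x, h0, Subset.rfl, hind, le_rfl⟩
    push Not at hind
    obtain ⟨i, j, hne, hi, hj, hij⟩ := hind
    have hij1 : a i j = 1 := (ha.zo i j).resolve_left hij
    have key : ∀ t : ℝ, (t = x j ∨ t = - x i) →
        mpot a B E x ≤ mpot a B E (fun k => x k + t * dir i j k) →
        ∃ y : V → ℝ, (∀ i, 0 ≤ y i) ∧ supp y ⊆ supp x ∧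
          (∀ p q, p ≠ q → y p ≠ 0 → y q ≠ 0 → a p q = 0) ∧ mpot a B E x ≤ mpot a B E y := by
      intro t ht hle
      have hsub : supp (fun k => x k + t * dir i j k) ⊆ supp x := by
        intro k hk
        rw [mem_supp] at hk ⊢
        intro hk0
        have h1 : k ≠ i := fun h => hi (h ▸ hk0)
        have h2 : k ≠ j := fun h => hj (h ▸ hk0)
        simp [dir, h1, h2, hk0] at hk
      have hss : supp (fun k => x k + t * dir i j k) ⊂ supp x := by
        refine ⟨hsub, fun h => ?_⟩
        rcases ht with rfl | rfl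
        · have := h (mem_supp.2 hj)
          rw [mem_supp] at this
          simp [dir, hne.symm] at this
        · have := h (mem_supp.2 hi)
          rw [mem_supp] at this
          simp [dir, hne] at this
      have hnn : ∀ k, 0 ≤ x k + t * dir i j k := by
        intro k
        have := h0 i
        have := h0 j
        have := h0 k
        by_cases h1 : k = i
        · subst h1
          rcases ht with rfl | rfl
          · simp [dir, hne]; linarith
          · simp [dir, hne]
        · by_cases h2 : k = j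
          · subst h2
            rcases ht with rfl | rfl
            · simp [dir, h1]
            · simp [dir, h1]; linarith
          · simp [dir, h1, h2, this]
      obtain ⟨y, hy0, hys, hyi, hyl⟩ := ih (fun k => x k + t * dir i j k)
        (by have := card_lt_card hss; omega) hnn
      exact ⟨y, hy0, hys.trans hsub, hyi, hle.trans hyl⟩
    have hA := (aff_mpot ha hij1 hne B E hB x).le_max (h0 i) (h0 j)
    simp only [zero_mul, add_zero] at hA
    rcases hA with h | h
    · exact key _ (Or.inl rfl) h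
    · exact key _ (Or.inr rfl) h

theorem mpot_eq_pot {a : V → V → ℝ} (ha : Adj a) (B : Finset ι) (E : ι → Finset V) (y : V → ℝ)
    (hy : ∀ p q, p ≠ q → y p ≠ 0 → y q ≠ 0 → a p q = 0) : mpot a B E y = pot B E y := by
  have hq : qf a y = ∑ i, y i ^ 2 := by
    unfold qf
    refine sum_congr rfl fun i _ => ?_
    rw [sum_eq_single i]
    · rw [ha.diag]; ring
    · intro j _ hj
      by_cases h1 : y i = 0
      · simp [h1]
      by_cases h2 : y j = 0
      · simp [h2]
      rw [hy i j hj.symm h1 h2]; ring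
    · simp
  have ht : tf a y = ∑ i, y i ^ 3 := by
    unfold tf
    refine sum_congr rfl fun i _ => ?_
    by_cases h1 : y i = 0
    · simp [h1]
    rw [sum_eq_single i]
    · rw [sum_eq_single i]
      · rw [tau_diag ha, ha.diag]; ring
      · intro k _ hk
        by_cases h2 : y k = 0
        · simp [h2]
        rw [tau_diag ha, hy i k hk.symm h1 h2]; ring
      · simp
    · intro j _ hj
      by_cases h2 : y j = 0
      · simp [h2]
      refine sum_eq_zero fun k _ => ?_
      by_cases h3 : y k = 0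
      · simp [h3]
      have hij := hy i j hj.symm h1 h2
      by_cases hk : k = i
      · subst hk
        unfold tau
        rw [ha.symm j k, hij]; ring
      · have := hy i k (Ne.symm hk) h1 h3
        unfold tau
        rw [hij, this]; ring
    · simp
  unfold mpot pot gv
  rw [hq, ht, sum_sub_distrib, sum_sub_distrib, ← mul_sum, ← mul_sum]

end Pool.Agent.P.MP_1e26d1_co
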