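import Pool.Agent.P.MP_1e26d1_co.UProb
import Pool.Agent.P.MP_1e26d1_co.Limit

/-!
The rescaled Turan density times the uniformity tends to infinity, uniformly in the clique size.
-/

namespace Pool.Agent.P.MP_1e26d1_co.U

section Fixed


open Finset

variable {V : Type} [Fintype V] [DecidableEq V]
variable {H : Finset (Finset V)} {B : Finset V} {w Δ M μ θ C η D a : ℝ} {s r T : ℕ}

/-- The number of edges through `v` inside `X` that meet `e` only in `B`. -/
noncomputable def Al (H : Finset (Finset V)) (e : Finset V) (v : V) (B X : Finset V) : ℝ :=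
  ∑ e' ∈ H, ind (v ∈ e' ∧ e ∩ e' ⊆ B ∧ e' ⊆ X)

omit [Fintype V] in
theorem al_nonneg (e : Finset V) (v : V) (B X : Finset V) : 0 ≤ Al H e v B X :=
  sum_nonneg fun _ _ => ind_nonneg _

theorem ex_resid (e B : Finset V) : E w (fun W => ind (e ⊆ B ∪ W)) = w ^ (e \ B).card := by
  rw [← prod_const, ← ex_subset (p := fun _ => w) (subset_univ _)]
  exact ex_congr fun W _ => ind_congr sdiff_le_iff.symm

theorem levels (hw : 0 ≤ w) (hw1 : w ≤ 1) (hη : 0 < η) (hη1 : η ≤ 1) (hT : μ ≤ η * (T + 1))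
    (hM : 1 ≤ M * η ^ T) (A : Finset (Finset V)) (P : Prop)
    (hP : P → ∑ e ∈ A, w ^ (e \ B).card ≤ μ) : ∃ (j : ℕ) (c : ℝ), (¬ P → j = 0) ∧
      (0 ≤ c ∧ c ≤ M) ∧ c * E w (fun W => ind (Pk A B (j - 1) W)) = 1 ∧
      c * E w (fun W => ind (Pk A B j W)) ≤ η + ind (¬ P) := by
  have h0 : 0 < η ^ T := by positivity
  have hM0 : 0 ≤ M := by nlinarith
  by_cases h : P
  · obtain ⟨t, h1, h2⟩ := exists_level hw hw1 hη.le hη1 ((hP h).trans hT)
    have h3 := h0.trans_le h2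
    refine ⟨t + 1, (E w fun W => ind (Pk A B t W))⁻¹, fun h' => (h' h).elim,
      ⟨by positivity, ?_⟩, inv_mul_cancel₀ h3.ne', ?_⟩
    · rw [inv_le_iff_one_le_mul₀ h3]
      exact hM.trans (mul_le_mul_of_nonneg_left h2 hM0)
    · rw [ind_neg (not_not.2 h), add_zero, inv_mul_le_iff₀ h3, mul_comm]
      exact h1
  · refine ⟨0, 1, fun _ => rfl, ⟨zero_le_one, hM.trans ?_⟩, ?_, ?_⟩
    · exact mul_le_of_le_one_right hM0 (pow_le_one₀ hη.le hη1)
    · simp only [E, Nat.zero_sub, ind_pos pk_zero, ex_const, mul_one]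
    · simp only [E, ind_pos pk_zero, ex_const, mul_one, ind_pos h]
      linarith

theorem partner (hw : 0 ≤ w) (hw1 : w ≤ 1) (hD : 0 < D) (e : Finset V) {v : V}
    (hv : ∑ e ∈ H with v ∈ e, w ^ (e \ B).card ≤ μ) :
    w ^ (e \ B).card * E w (fun W => ind (NL H θ e v B (B ∪ W))) ≤ w ^ (e \ B).card * (μ / D) +
      E w fun W => ind (e ⊆ B ∪ W) * ind (NL H θ e v B (B ∪ W) ∧ Al H e v B (B ∪ W) ≤ D) := by
  have hp := pb_const (V := V) hw hw1
  have h1 : ∀ W, ind (NL H θ e v B (B ∪ W)) ≤ Al H e v B (B ∪ W) * D⁻¹ +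
      ind (NL H θ e v B (B ∪ (W ∪ e \ B)) ∧ Al H e v B (B ∪ (W ∪ e \ B)) ≤ D) := fun W => by
    have h2 : ∀ e', e ∩ e' ⊆ B → (e' ⊆ B ∪ (W ∪ e \ B) ↔ e' ⊆ B ∪ W) := fun e' h => by
      refine ⟨fun h' u hu => ?_, fun h' => h'.trans (union_subset_union_right subset_union_left)⟩
      have h3 := h' hu
      have h4 := @h u
      simp only [mem_union, mem_sdiff, mem_inter] at h3 h4 ⊢
      tauto
    have h3 : Al H e v B (B ∪ (W ∪ e \ B)) = Al H e v B (B ∪ W) :=
      sum_congr rfl fun e' _ => ind_congr (and_congr_right fun _ => and_congr_right (h2 e'))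
    have h4 := mul_nonneg (al_nonneg (H := H) e v B (B ∪ W)) (inv_nonneg.2 hD.le)
    rw [h3]
    rcases le_total (Al H e v B (B ∪ W)) D with h | h
    · refine le_add_of_nonneg_of_le h4 (ind_mono ?_)
      rintro ⟨e', k1, k2, k3, k4, k5⟩
      exact ⟨⟨e', k1, k2, k3, k4, (h2 e' k3).2 k5⟩, h⟩
    · refine le_add_of_le_of_nonneg ((ind_le_one _).trans ?_) (ind_nonneg _)
      rwa [← div_eq_mul_inv, one_le_div hD]
  have h2 : E w (fun W => Al H e v B (B ∪ W)) ≤ μ := by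
    refine le_trans ?_ hv
    rw [sum_filter]
    unfold Al E
    rw [ex_sum]
    refine sum_le_sum fun e' _ => ?_
    split_ifs with h
    · exact (ex_mono hp fun W => ind_mono fun h => h.2.2).trans_eq (ex_resid e' B)
    · exact ex_le hp fun W => (ind_neg fun h' => h h'.1).le
  have h3 := ex_mono (s := univ) hp h1
  rw [ex_add, ex_mul'] at h3
  have h4 := ex_plant (p := fun _ => w) (subset_univ (e \ B))
    fun W => ind (NL H θ e v B (B ∪ W) ∧ Al H e v B (B ∪ W) ≤ D)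
  rw [prod_const] at h4
  have h5 : ∀ W, ind (e ⊆ B ∪ W) = ind (e \ B ⊆ W) := fun W => ind_congr sdiff_le_iff.symm
  simp only [h5]
  unfold E at h2 ⊢
  rw [h4, ← mul_add]
  refine mul_le_mul_of_nonneg_left (h3.trans (add_le_add_left ?_ _)) (by positivity)
  exact mul_le_mul_of_nonneg_right h2 (inv_nonneg.2 hD.le)

/-- The quantity whose expectation is at most the independence number. -/
noncomputable def Z (H : Finset (Finset V)) (θ D x y z : ℝ) (s : ℕ) (B X : Finset V) : ℝ :=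
  x * X.card - ∑ e ∈ H, ind (e ⊆ X) * (y + ind (¬ ((e \ B).Nonempty ∧ (e \ B).card ≤ s)) +
    z * ∑ v ∈ e, ind (NL H θ e v B X ∧ Al H e v B X ≤ D))

theorem heavy (hw : 0 ≤ w) (hμ : 0 < μ) (hH : ∀ e ∈ H, e.card = r) :
    ∑ v, ind (¬ ∑ e ∈ H with v ∈ e, w ^ (e \ B).card ≤ μ) ≤
      r * (∑ e ∈ H, w ^ (e \ B).card) / μ := by
  have h1 : ∀ v, ind (¬ ∑ e ∈ H with v ∈ e, w ^ (e \ B).card ≤ μ) ≤
      (∑ e ∈ H, ind (v ∈ e) * w ^ (e \ B).card) / μ := fun v => by
    have h2 : ∑ e ∈ H with v ∈ e, w ^ (e \ B).card =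
        ∑ e ∈ H, ind (v ∈ e) * w ^ (e \ B).card := by
      rw [sum_filter]
      refine sum_congr rfl fun e _ => ?_
      split_ifs with h
      · rw [ind_pos h, one_mul]
      · rw [ind_neg h, zero_mul]
    rw [← h2]
    by_cases h : ∑ e ∈ H with v ∈ e, w ^ (e \ B).card ≤ μ
    · rw [ind_neg (not_not.2 h)]
      exact div_nonneg (sum_nonneg fun _ _ => by positivity) hμ.le
    · rw [ind_pos h, one_le_div hμ]
      exact (not_le.1 h).le
  refine (sum_le_sum fun v _ => h1 v).trans_eq ?_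
  rw [← sum_div, sum_comm, mul_sum]
  congr 1
  exact sum_congr rfl fun e he => by rw [← sum_mul, ← card_eq_sum_ind, hH e he]

theorem fixed (hw : 0 < w) (hw1 : w ≤ 1) (hΔ : 0 < Δ) (hθ : 0 ≤ θ) (hμ : 0 < μ) (hC : 0 < C)
    (hη : 0 < η) (hη1 : η ≤ 1) (hT : μ ≤ η * (T + 1)) (hM : 1 ≤ M * η ^ T) (hD : 0 < D)
    (hr : 0 < r) (hsr : 2 * s ≤ r) (hH : ∀ e ∈ H, e.card = r) (ha : Bd H a) (B : Finset V) :
    E w (fun W => Z H θ D (1 - C * η / r) (C / μ + 1 / Δ + 8 / C +
      64 * M ^ 2 * θ * s * 2 ^ s * Δ * μ / r + 4 * M * r * w + 4 * M * μ / D) (4 * M / r) s B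
      (B ∪ W)) ≤ a := by
  classical
  have hp := pb_const (V := V) hw.le hw1
  have hr' : (0 : ℝ) < r := by exact_mod_cast hr
  have hM0 : 0 ≤ M := by nlinarith [pow_pos hη T]
  have hms : ∀ e : Finset V, 0 ≤ w ^ (e \ B).card := fun e => by positivity
  obtain ⟨F, hF, G, hG, hFG, hGs, hS⟩ := spread B hw.le hΔ.le
    (H.filter fun e => (e \ B).Nonempty ∧ (e \ B).card ≤ s)
  have hFH : F ⊆ H := hF.trans (filter_subset _ _)
  set Gd : Finset V := univ.filter fun v => ∑ e ∈ H with v ∈ e, w ^ (e \ B).card ≤ μ with hGd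
  have hGd' : ∀ v, v ∈ Gd ↔ ∑ e ∈ H with v ∈ e, w ^ (e \ B).card ≤ μ := fun v => by
    rw [hGd, mem_filter_univ]
  have hGF : ∀ v ∈ Gd, ∑ e ∈ F with v ∈ e, w ^ (e \ B).card ≤ μ := fun v hv =>
    (sum_le_sum_of_subset_of_nonneg (filter_subset_filter _ hFH) fun e _ _ => hms e).trans
      ((hGd' v).1 hv)
  choose j c hj hc hc1 hc2 using fun v =>
    levels (B := B) hw.le hw1 hη hη1 hT hM (F.filter (v ∈ ·)) (v ∈ Gd) (hGF v)
  set x : Finset V → V → ℝ := fun W v => if v ∈ B then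
    Real.exp (-(C / r * (c v * ind (Pk (F.filter (v ∈ ·)) B (j v) W)))) else ind (v ∈ W) with hx
  have hz : ∀ W v, 0 ≤ C / r * (c v * ind (Pk (F.filter (v ∈ ·)) B (j v) W)) := fun W v =>
    mul_nonneg (by positivity) (mul_nonneg (hc v).1 (ind_nonneg _))
  have hxp : ∀ W, Pb (x W) := fun W v => by
    simp only [hx]
    split_ifs
    · exact ⟨(Real.exp_pos _).le, Real.exp_le_one_iff.2 (neg_nonpos.2 (hz W v))⟩
    · exact ⟨ind_nonneg _, ind_le_one _⟩
  have hxe : ∀ W e, ∏ v ∈ e, x W v ≤ ind (e ⊆ B ∪ W) := fun W e => by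
    simp only [hx, prod_split]
    rw [ind_congr (sdiff_le_iff (a := e) (b := B) (c := W))]
    exact mul_le_of_le_one_right (ind_nonneg _)
      (Real.exp_le_one_iff.2 (neg_nonpos.2 (sum_nonneg fun v _ => hz W v)))
  set A := H.filter fun e => ¬ ((e \ B).Nonempty ∧ (e \ B).card ≤ s) with hA
  have h1 : ∀ W, ((B ∪ W).card : ℝ) -
      C / r * ∑ v ∈ B, c v * ind (Pk (F.filter (v ∈ ·)) B (j v) W) -
      (∑ e ∈ A, ind (e ⊆ B ∪ W) + ∑ e ∈ F, ∏ v ∈ e, x W v + ∑ e ∈ G, ind (e ⊆ B ∪ W)) ≤ a := by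
    intro W
    have h2 := cover (H := A ∪ F ∪ G) (a := a) (fun e he => ?_) (fun I hI => ha I fun e he h => ?_)
      (hxp W)
    · have h0 : ∀ e : Finset V, 0 ≤ ∏ v ∈ e, x W v := fun e => prod_nonneg fun v _ => (hxp W v).1
      have h3 := sum_union_inter (s₁ := A ∪ F) (s₂ := G) (f := fun e => ∏ v ∈ e, x W v)
      have h4 := sum_union_inter (s₁ := A) (s₂ := F) (f := fun e => ∏ v ∈ e, x W v)
      have h5 := sum_nonneg fun e (_ : e ∈ (A ∪ F) ∩ G) => h0 e
      have h6 := sum_nonneg fun e (_ : e ∈ A ∩ F) => h0 e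
      have h7 := sum_le_sum fun e (_ : e ∈ A) => hxe W e
      have h8 := sum_le_sum fun e (_ : e ∈ G) => hxe W e
      have h9 : ((B ∪ W).card : ℝ) -
          C / r * ∑ v ∈ B, c v * ind (Pk (F.filter (v ∈ ·)) B (j v) W) ≤ ∑ v, x W v := by
        rw [card_eq_sum_ind, mul_sum, ← Fintype.sum_ite_mem B, ← sum_sub_distrib]
        refine sum_le_sum fun v _ => ?_
        simp only [hx]
        split_ifs with h
        · rw [ind_pos (mem_union_left _ h)]
          exact Real.one_sub_le_exp_neg _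
        · rw [sub_zero]
          exact ind_mono fun h' => (mem_union.1 h').resolve_left h
      linarith
    · rcases mem_union.1 he with he | he
      · have : e ∈ H := (mem_union.1 he).elim (fun h => (mem_filter.1 h).1) fun h => hFH h
        exact card_pos.1 (by rw [hH e this]; exact hr)
      · exact (hG e he).1
    · by_cases h1 : (e \ B).Nonempty ∧ (e \ B).card ≤ s
      · by_cases h2 : e ∈ F
        · exact hI e (mem_union_left _ (mem_union_right _ h2)) h
        · obtain ⟨Q, h3, h4⟩ := hFG e (mem_filter.2 ⟨he, h1⟩) h2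
          exact hI Q (mem_union_right _ h3) (h4.trans h)
      · exact hI e (mem_union_left _ (mem_union_left _ (mem_filter.2 ⟨he, h1⟩))) h
  have h2 := ex_le (s := univ) hp h1
  have hres := fun e => ex_resid (w := w) e B
  unfold E at hres
  simp only [ex_sub, ex_add, ex_mul, ex_sum, hres] at h2
  set N := Ex univ (fun _ : V => w) fun W => ((B ∪ W).card : ℝ) with hN
  set S := ∑ e ∈ H, w ^ (e \ B).card with hS'
  have k0 : (B.card : ℝ) ≤ N := (ex_const _).symm.trans_le (ex_mono hp fun W => by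
    exact_mod_cast card_le_card subset_union_left)
  have k1 : ∑ v ∈ B, c v * Ex univ (fun _ : V => w)
      (fun W => ind (Pk (F.filter (v ∈ ·)) B (j v) W)) ≤ η * N + r * S / μ := by
    refine (sum_le_sum fun v _ => hc2 v).trans ?_
    rw [sum_add_distrib, sum_const, nsmul_eq_mul, mul_comm]
    refine add_le_add (mul_le_mul_of_nonneg_left k0 hη.le) (le_trans ?_ (heavy hw.le hμ hH))
    simp only [hGd']
    exact sum_le_univ_sum_of_nonneg fun _ => ind_nonneg _
  have k2 : ∑ e ∈ A, w ^ (e \ B).card =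
      ∑ e ∈ H, w ^ (e \ B).card * ind (¬ ((e \ B).Nonempty ∧ (e \ B).card ≤ s)) := by
    rw [hA, sum_filter]
    refine sum_congr rfl fun e _ => ?_
    split_ifs with h
    · rw [ind_neg (not_not.2 h), mul_zero]
    · rw [ind_pos h, mul_one]
  have k3 : ∑ e ∈ G, w ^ (e \ B).card ≤ 1 / Δ * S := by
    rw [sum_congr rfl fun e he => by rw [sdiff_eq_left.2 (hG e he).2], one_div, le_inv_mul_iff₀ hΔ]
    exact hGs.trans (sum_le_sum_of_subset_of_nonneg (filter_subset _ _) fun e _ _ => hms e)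
  set P : Finset V → V → ℝ := fun e v => E w fun W =>
    ind (e ⊆ B ∪ W) * ind (NL H θ e v B (B ∪ W) ∧ Al H e v B (B ∪ W) ≤ D) with hP
  have hP0 : ∀ e v, 0 ≤ P e v := fun e v =>
    ex_nonneg hp fun _ => mul_nonneg (ind_nonneg _) (ind_nonneg _)
  have k4 : ∑ e ∈ F, Ex univ (fun _ : V => w) (fun W => ∏ v ∈ e, x W v) ≤
      ∑ e ∈ H, (w ^ (e \ B).card * (8 / C + 64 * M ^ 2 * θ * s * 2 ^ s * Δ * μ / r +
        4 * M * r * w + 4 * M * μ / D) + 4 * M / r * ∑ v ∈ e, P e v) := by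
    refine (sum_le_sum fun e he => ?_).trans (sum_le_sum_of_subset_of_nonneg hFH fun e _ _ =>
      add_nonneg (by positivity) (mul_nonneg (by positivity) (sum_nonneg fun v _ => hP0 e v)))
    refine (edge_bound hw hw1 hΔ.le hθ hμ.le hC hM0 hr hsr hFH hS
      (fun e he => (mem_filter.1 (hF he)).2.2) hGF hj hc hc1 he (mem_filter.1 (hF he)).2.1
      (hH e (hFH he))).trans ?_
    have h3 : ∀ v ∈ e, w ^ (e \ B).card * (ind (v ∈ Gd) *
        (r * w + E w fun W => ind (NL H θ e v B (B ∪ W)))) ≤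
        w ^ (e \ B).card * (r * w + μ / D) + P e v := fun v _ => by
      by_cases hv : v ∈ Gd
      · have := partner (θ := θ) hw.le hw1 hD e ((hGd' v).1 hv)
        rw [ind_pos hv, one_mul, mul_add, mul_add, add_assoc]
        exact add_le_add_right this _
      · rw [ind_neg hv, zero_mul, mul_zero]
        exact add_nonneg (by positivity) (hP0 e v)
    have h4 := mul_le_mul_of_nonneg_left (sum_le_sum h3) (show 0 ≤ 4 * M / r by positivity)
    rw [← mul_sum, sum_add_distrib, sum_const, hH e (hFH he), nsmul_eq_mul, mul_add] at h4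
    have h5 : 4 * M / r * (r * (w ^ (e \ B).card * (r * w + μ / D))) =
        w ^ (e \ B).card * (4 * M * r * w + 4 * M * μ / D) := by field_simp
    rw [h5] at h4
    linarith
  have k5 := mul_le_mul_of_nonneg_left k1 (show 0 ≤ C / r by positivity)
  have k6 : C / r * (η * N + r * S / μ) = C * η / r * N + C / μ * S := by field_simp
  have k7 : ∀ (y : ℝ) (e : Finset V), Ex univ (fun _ : V => w) (fun W => ind (e ⊆ B ∪ W) *
      (y + ind (¬ ((e \ B).Nonempty ∧ (e \ B).card ≤ s)) + 4 * M / r *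
        ∑ v ∈ e, ind (NL H θ e v B (B ∪ W) ∧ Al H e v B (B ∪ W) ≤ D))) =
      w ^ (e \ B).card * y + w ^ (e \ B).card * ind (¬ ((e \ B).Nonempty ∧ (e \ B).card ≤ s)) +
        4 * M / r * ∑ v ∈ e, P e v := fun y e => by
    simp only [mul_add, ex_add, ex_mul', hres, mul_left_comm (ind (e ⊆ _)), ex_mul]
    simp only [mul_sum, ex_sum, hP, E]
  unfold E Z
  rw [ex_sub, ex_mul, ex_sum]
  simp only [k7]
  rw [sum_add_distrib, sum_add_distrib, ← sum_mul, ← k2]
  rw [sum_add_distrib, ← sum_mul] at k4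
  rw [← hN, ← hS']
  rw [← hS'] at k4
  linarith

end Fixed

section Core


open Finset Filter

variable {V : Type} [Fintype V] [DecidableEq V]
variable {H : Finset (Finset V)} {p β ρ θ D x y z : ℝ} {s r : ℕ}

/-- The potential. -/
noncomputable def Psi (H : Finset (Finset V)) (p D β : ℝ) : ℝ :=
  ∑ e ∈ H, ∑ v ∈ e, E p fun X => ind (e ⊆ X) * E β fun U => min (Al H e v (X ∩ U) X) D

theorem psi_nonneg (hp : Pb fun _ : V => p) (hβ : Pb fun _ : V => β) (hD : 0 ≤ D) :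
    0 ≤ Psi H p D β :=
  sum_nonneg fun _ _ => sum_nonneg fun _ _ => ex_nonneg hp fun _ => mul_nonneg (ind_nonneg _)
    (ex_nonneg hβ fun _ => le_min (al_nonneg _ _ _ _) hD)

theorem psi_le (hp : Pb fun _ : V => p) (hβ : Pb fun _ : V => β) (hH : ∀ e ∈ H, e.card = r) :
    Psi H p D β ≤ H.card * p ^ r * (r * D) := by
  refine (sum_le_card_nsmul _ _ (p ^ r * (r * D)) fun e he => ?_).trans_eq (by simp [mul_assoc])
  refine (sum_le_card_nsmul _ _ (p ^ r * D) fun v _ => ?_).trans_eq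
    (by rw [hH e he, nsmul_eq_mul]; ring)
  refine (ex_mono hp fun X => mul_le_mul_of_nonneg_left (ex_le hβ fun U => min_le_right _ D)
    (ind_nonneg _)).trans_eq ?_
  rw [ex_mul', ex_subset (subset_univ _), prod_const, hH e he]

theorem drop (hρ : Pb fun _ : V => ρ) (hθ : ∀ j : ℕ, θ ≤ j → ρ ^ j ≤ 1 / 2) (e : Finset V) (v : V)
    (B X : Finset V) : ind (NL H θ e v B X ∧ Al H e v B X ≤ D) ≤
      2 * (min (Al H e v B X) D - E ρ fun U => min (Al H e v (B ∩ U) X) D) := by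
  have h0 : ∀ U e', ind (v ∈ e' ∧ e ∩ e' ⊆ B ∩ U ∧ e' ⊆ X) ≤ ind (v ∈ e' ∧ e ∩ e' ⊆ B ∧ e' ⊆ X) :=
    fun U e' => ind_mono fun h => ⟨h.1, h.2.1.trans inter_subset_left, h.2.2⟩
  by_cases h : NL H θ e v B X ∧ Al H e v B X ≤ D
  · obtain ⟨⟨e', h1, h2, h3, h4, h5⟩, h6⟩ := id h
    have h7 : ∀ U, min (Al H e v (B ∩ U) X) D ≤ Al H e v B X - 1 + ind (e ∩ e' ⊆ U) := fun U => by
      refine (min_le_left _ _).trans ?_
      unfold Al
      rw [← add_sum_erase _ _ h1, ← add_sum_erase _ _ h1,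
        ind_pos (show v ∈ e' ∧ e ∩ e' ⊆ B ∧ e' ⊆ X from ⟨h2, h3, h5⟩)]
      have h8 := sum_le_sum fun e'' (_ : e'' ∈ H.erase e') => h0 U e''
      have h9 : ind (v ∈ e' ∧ e ∩ e' ⊆ B ∩ U ∧ e' ⊆ X) ≤ ind (e ∩ e' ⊆ U) :=
        ind_mono fun h => h.2.1.trans inter_subset_right
      linarith
    have h8 := ex_mono (s := univ) hρ h7
    rw [ex_add, ex_const, ex_subset (subset_univ _), prod_const] at h8
    rw [ind_pos h, min_eq_left h6]
    unfold E
    linarith [hθ _ h4]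
  · rw [ind_neg h]
    exact mul_nonneg zero_le_two (sub_nonneg.2 (ex_le hρ fun U =>
      min_le_min_right _ (sum_le_sum fun e' _ => h0 U e')))

theorem average (hp : Pb fun _ : V => p) (hβ : Pb fun _ : V => β) (hρ : Pb fun _ : V => ρ)
    (hθ : ∀ j : ℕ, θ ≤ j → ρ ^ j ≤ 1 / 2) (hz : 0 ≤ z) (hs : 0 < s) (hH : ∀ e ∈ H, e.card = r) :
    x * (Fintype.card V * p) - H.card * p ^ r * (y + β ^ r + r * (1 - β) / s) -
      2 * z * (Psi H p D β - Psi H p D (β * ρ)) ≤
      E p fun X => E β fun U => Z H θ D x y z s (X ∩ U) X := by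
  have hs' : (0 : ℝ) < s := by exact_mod_cast hs
  have h1 : ∀ X U : Finset V, x * ∑ v, ind (v ∈ X) - ∑ e ∈ H, ind (e ⊆ X) *
      (y + (ind (e ⊆ U) + (∑ v ∈ e, (1 - ind (v ∈ U))) * (s : ℝ)⁻¹) + z * ∑ v ∈ e,
        2 * (min (Al H e v (X ∩ U) X) D - E ρ fun U' => min (Al H e v (X ∩ (U ∩ U')) X) D)) ≤
      Z H θ D x y z s (X ∩ U) X := fun X U => by
    rw [Z, card_eq_sum_ind]
    refine sub_le_sub_left (sum_le_sum fun e _ => ?_) _
    by_cases he : e ⊆ X
    · refine mul_le_mul_of_nonneg_left (add_le_add (add_le_add_right ?_ _)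
        (mul_le_mul_of_nonneg_left (sum_le_sum fun v _ => ?_) hz)) (ind_nonneg _)
      · have h2 : e \ (X ∩ U) = e \ U := by
          rw [sdiff_inter_distrib_right, sdiff_eq_empty_iff_subset.2 he, empty_union]
        have h3 : ∑ v ∈ e, (1 - ind (v ∈ U)) = (e \ U).card := by
          rw [sdiff_eq_filter, card_filter, Nat.cast_sum]
          refine sum_congr rfl fun v _ => ?_
          by_cases h : v ∈ U <;> simp [ind, h]
        rw [h2, h3]
        by_cases h4 : e ⊆ U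
        · rw [ind_pos h4]
          exact le_add_of_le_of_nonneg (ind_le_one _) (by positivity)
        · rw [ind_neg h4, zero_add]
          by_cases h5 : (e \ U).card ≤ s
          · rw [ind_neg (not_not.2 ⟨sdiff_nonempty.2 h4, h5⟩)]
            positivity
          · refine (ind_le_one _).trans ?_
            rw [← div_eq_mul_inv, one_le_div hs']
            exact_mod_cast (not_le.1 h5).le
      · simp only [← inter_assoc]
        exact drop hρ hθ e v _ X
    · simp only [ind_neg he, zero_mul, le_refl]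
  refine le_trans (le_of_eq ?_) (ex_mono hp fun X => ex_mono hβ fun U => h1 X U)
  have h2 : ∀ e v X, E (β * ρ) (fun U => min (Al H e v (X ∩ U) X) D) =
      Ex univ (fun _ => β) fun U => E ρ fun U' => min (Al H e v (X ∩ (U ∩ U')) X) D :=
    fun e v X => (ex_thin (p := fun _ => β) (q := fun _ => ρ) _).symm
  have h3 : ∀ e ∈ H, Ex univ (fun _ : V => p) (fun X => ind (e ⊆ X) * Ex univ (fun _ : V => β)
      fun U => y + (ind (e ⊆ U) + (∑ v ∈ e, (1 - ind (v ∈ U))) * (s : ℝ)⁻¹) + z * ∑ v ∈ e,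
        2 * (min (Al H e v (X ∩ U) X) D - E ρ fun U' => min (Al H e v (X ∩ (U ∩ U')) X) D)) =
      p ^ r * (y + β ^ r + r * (1 - β) / s) + 2 * z *
        (∑ v ∈ e, E p (fun X => ind (e ⊆ X) * E β fun U => min (Al H e v (X ∩ U) X) D) -
        ∑ v ∈ e, E p fun X => ind (e ⊆ X) * E (β * ρ) fun U => min (Al H e v (X ∩ U) X) D) := by
    intro e he
    simp only [h2, ex_add, ex_const, ex_mul', ex_mul, ex_sum, ex_sub, ex_mem (mem_univ _),
      ex_subset (subset_univ _), prod_const, sum_const, hH e he, nsmul_eq_mul, mul_add (ind _),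
      mul_left_comm (ind _) z]
    simp only [mul_sum, mul_left_comm (ind _) 2, mul_sub (ind _), ex_sum, ex_mul, ex_sub,
      ← sum_sub_distrib, E]
    congr 1
    · ring
    · exact sum_congr rfl fun _ _ => by ring
  simp only [ex_sub, ex_const, ex_mul, ex_sum H, ex_sum univ, ex_mem (mem_univ _)]
  rw [sum_congr rfl h3, sum_add_distrib, ← mul_sum _ _ (2 * z), sum_sub_distrib]
  simp only [Psi, sum_const, nsmul_eq_mul, card_univ]
  ring

theorem pigeon {σ : ℝ → ℕ} {ε : ℝ → ℝ} (hε : ∀ κ, 0 < ε κ) (L : ℕ) (κ : ℝ) :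
    ∀ᶠ r : ℕ in atTop, ∀ β : ℝ, 0 ≤ β → β ≤ 1 → r * (1 - β) ≤ κ → ∀ Ψ : ℝ → ℝ,
      (∀ b, 0 ≤ b → b ≤ 1 → 0 ≤ Ψ b) → ∃ b k : ℝ, 0 ≤ b ∧ b ≤ β ∧ r * (1 - b) ≤ k ∧
        2 * σ k ≤ r ∧ 1 ≤ ε k * r ∧ L * (Ψ b - Ψ (b * (1 - 1 / (ε k * r)))) ≤ Ψ β := by
  have h0 : ∀ k, ∀ᶠ r : ℕ in atTop, 2 * σ k ≤ r ∧ 1 ≤ ε k * r := fun k =>
    (eventually_ge_atTop _).and
      ((tendsto_natCast_atTop_atTop.const_mul_atTop (hε k)).eventually_ge_atTop 1)
  induction L generalizing κ with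
  | zero =>
    filter_upwards [h0 κ] with r h β h1 h2 h3 Ψ h4
    exact ⟨β, κ, h1, le_rfl, h3, h.1, h.2, by simpa using h4 β h1 h2⟩
  | succ L ih =>
    filter_upwards [h0 κ, ih (κ + 1 / ε κ)] with r h ih β h1 h2 h3 Ψ h4
    have h5 := hε κ
    have h6 : (0 : ℝ) < r := by nlinarith [h.2]
    have h7 : 1 / (ε κ * r) ≤ 1 := (div_le_one (by positivity)).2 h.2
    have h8 : 0 ≤ 1 / (ε κ * r) := by positivity
    have h9 : β * (1 - 1 / (ε κ * r)) ≤ β := mul_le_of_le_one_right h1 (by linarith)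
    obtain ⟨b, k, k1, k2, k3, k4, k5, k6⟩ := ih (β * (1 - 1 / (ε κ * r)))
      (mul_nonneg h1 (by linarith)) (h9.trans h2) (by
        have : r * (1 - β * (1 - 1 / (ε κ * r))) = r * (1 - β) + β * (1 / ε κ) := by
          field_simp
          ring
        rw [this]
        exact add_le_add h3 (mul_le_of_le_one_left (by positivity) h2)) Ψ h4
    by_cases h10 : (L + 1 : ℕ) * (Ψ β - Ψ (β * (1 - 1 / (ε κ * r)))) ≤ Ψ β
    · exact ⟨β, κ, h1, le_rfl, h3, h.1, h.2, h10⟩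
    · refine ⟨b, k, k1, k2.trans h9, k3, k4, k5, ?_⟩
      push_cast at h10 ⊢
      by_contra h11
      have h12 : (0 : ℝ) ≤ L := Nat.cast_nonneg _
      nlinarith [mul_le_mul_of_nonneg_left (not_le.1 h11).le h12,
        mul_le_mul_of_nonneg_left k6 (show (0 : ℝ) ≤ L + 1 by positivity)]

theorem pow_bound {t : ℝ} (h0 : 0 ≤ t) (h1 : t ≤ 1) (j : ℕ) : (1 - t) ^ j * (1 + j * t) ≤ 1 := by
  refine (mul_le_mul_of_nonneg_left (one_add_mul_le_pow (by linarith) j)
    (pow_nonneg (by linarith) j)).trans ?_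
  rw [← mul_pow]
  exact pow_le_one₀ (mul_nonneg (by linarith) (by linarith)) (by nlinarith)

theorem core {μ : ℝ} (hμ : 1 ≤ μ) : ∀ᶠ r : ℕ in atTop, ∃ p₀ : ℝ, 0 < p₀ ∧
    ∀ (n : ℕ) (H : Finset (Finset (Fin n))) (a p : ℝ), 0 < p → p ≤ p₀ → (∀ e ∈ H, e.card = r) →
      Bd H a → H.card * p ^ r ≤ μ * (n * p) / r → n * p * (1 - 1 / r) ≤ a := by
  obtain ⟨δ, hδ, hδ1, hδμ⟩ : ∃ δ : ℝ, 0 < δ ∧ δ ≤ 1 ∧ δ * μ = 1 / 18 :=
    ⟨1 / (18 * μ), by positivity, (div_le_one (by positivity)).2 (by linarith), by field_simp⟩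
  obtain ⟨T, hT⟩ := exists_nat_ge (8 / δ / δ / (δ / 16))
  obtain ⟨M, hM1, hM⟩ : ∃ M : ℝ, 1 ≤ M ∧ 1 ≤ M * (δ / 16) ^ T :=
    ⟨((δ / 16) ^ T)⁻¹, (one_le_inv₀ (by positivity)).2 (pow_le_one₀ (by positivity) (by linarith)),
      (inv_mul_cancel₀ (by positivity)).ge⟩
  obtain ⟨D, hD, hD1⟩ : ∃ D : ℝ, 0 < D ∧ 4 * M * (8 / δ / δ) / D = δ :=
    ⟨4 * M * (8 / δ / δ) / δ, by positivity, by field_simp⟩
  obtain ⟨L, hL⟩ := exists_nat_ge (8 * M * D / δ)
  filter_upwards [pigeon (σ := fun k => ⌈k / δ⌉₊ + 1) (ε := fun k =>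
    δ / (64 * M ^ 2 * (⌈k / δ⌉₊ + 1 : ℕ) * 2 ^ (⌈k / δ⌉₊ + 1) * (1 / δ) * (8 / δ / δ)))
    (fun k => by positivity) L (1 / δ), tendsto_natCast_atTop_atTop.eventually_ge_atTop (1 / δ)]
    with r hpig hr
  have hr1 : (1 : ℝ) ≤ r := ((one_le_div hδ).2 hδ1).trans hr
  have hr0 : (0 : ℝ) < r := by linarith
  refine ⟨δ / (4 * M * r), by positivity, fun n H a p hp0 hp hH ha hm => ?_⟩
  have hp' : 4 * M * r * p ≤ δ := by rwa [le_div_iff₀ (by positivity), mul_comm] at hp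
  have hp1 : p ≤ 1 := by nlinarith [mul_le_mul hM1 hr1 zero_le_one (by linarith)]
  have hP := pb_const (V := Fin n) hp0.le hp1
  have ht0 : 0 < 1 / δ / r := by positivity
  have ht1 : 1 / δ / r ≤ 1 := (div_le_one hr0).2 hr
  obtain ⟨b, k, b0, b1, b2, b3, b4, b5⟩ := hpig (1 - 1 / δ / r) (by linarith) (by linarith)
    (le_of_eq (by field_simp; ring)) (Psi H p D) fun b h0 h1 => psi_nonneg hP (pb_const h0 h1) hD.le
  set s := ⌈k / δ⌉₊ + 1 with hs
  set θ := δ / (64 * M ^ 2 * s * 2 ^ s * (1 / δ) * (8 / δ / δ)) * r with hθ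
  have hs0 : (0 : ℝ) < s := by positivity
  have hb : b < 1 := by linarith
  have hpb : p * b < 1 := (mul_le_of_le_one_left b0 hp1).trans_lt hb
  set w := p * (1 - b) / (1 - p * b) with hw
  have hw0 : 0 < w := div_pos (mul_pos hp0 (by linarith)) (by linarith)
  have hwp : w ≤ p := by
    rw [hw, div_le_iff₀ (by linarith)]
    exact mul_le_mul_of_nonneg_left (by linarith [mul_le_of_le_one_left b0 hp1]) hp0.le
  have h1 := ex_le (s := univ) (pb_const (mul_nonneg hp0.le b0) hpb.le) (fixed (θ := θ) (T := T)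
    hw0 (hwp.trans hp1) (show 0 < 1 / δ by positivity) (by linarith)
    (show 0 < 8 / δ / δ by positivity) (show 0 < 8 / δ by positivity)
    (show 0 < δ / 16 by positivity) (by linarith)
    (by rw [div_le_iff₀ (by positivity)] at hT; nlinarith) hM hD (by exact_mod_cast hr0) b3 hH ha)
  have hθ0 : 0 < θ := by linarith
  have hθ1 : 1 / θ ≤ 1 := (div_le_one hθ0).2 b4
  have hθ2 : 0 ≤ 1 / θ := by positivity
  have h2 := (average hP (pb_const b0 hb.le) (pb_const (w := 1 - 1 / θ) (by linarith) (by linarith))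
    (fun j hj => by
      have h3 := pow_bound hθ2 hθ1 j
      have h4 : 1 ≤ j * (1 / θ) := by rwa [mul_one_div, one_le_div hθ0]
      nlinarith [pow_nonneg (sub_nonneg.2 hθ1) j])
    (show 0 ≤ 4 * M / r by positivity) (Nat.succ_pos _) hH).trans
    ((ex_split (fun _ => div_mul_cancel₀ _ (sub_pos.2 hpb).ne') _).trans_le h1)
  have e1 : 8 / δ * (δ / 16) / r = 1 / 2 * (1 / r) := by field_simp; norm_num
  have e2 : 8 / δ / (8 / δ / δ) = δ := by field_simp
  have e3 : 1 / (1 / δ) = δ := by field_simp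
  have e4 : 8 / (8 / δ) = δ := by field_simp
  have e5 : 64 * M ^ 2 * θ * s * 2 ^ s * (1 / δ) * (8 / δ / δ) / r = δ := by
    rw [hθ]
    field_simp
  have e6 : 4 * M * r * w ≤ δ := (mul_le_mul_of_nonneg_left hwp (by positivity)).trans hp'
  have e7 : b ^ r ≤ δ := by
    have h3 := pow_bound ht0.le ht1 r
    rw [mul_div_cancel₀ _ hr0.ne', ← le_div_iff₀ (by positivity)] at h3
    exact (pow_le_pow_left₀ b0 b1 r).trans (h3.trans
      ((one_div_le_one_div_of_le (by positivity) (by linarith)).trans_eq e3))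
  have e8 : r * (1 - b) / s ≤ δ := by
    have h3 := Nat.le_ceil (k / δ)
    rw [div_le_iff₀ hδ] at h3
    rw [div_le_iff₀ hs0, hs]
    push_cast
    nlinarith
  have hm0 : 0 ≤ H.card * p ^ r := by positivity
  have e9 : 2 * (4 * M / r) * (Psi H p D b - Psi H p D (b * (1 - 1 / θ))) ≤
      H.card * p ^ r * δ := by
    rcases le_total (Psi H p D b - Psi H p D (b * (1 - 1 / θ))) 0 with h | h
    · exact (mul_nonpos_of_nonneg_of_nonpos (by positivity) h).trans (by positivity)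
    · have h3 := (mul_le_mul_of_nonneg_right hL h).trans (b5.trans
        (psi_le hP (pb_const (by linarith) (by linarith)) hH))
      have h4 := mul_le_mul_of_nonneg_left h3 (show 0 ≤ δ / (r * D) by positivity)
      refine le_of_eq_of_le ?_ (h4.trans_eq ?_) <;> field_simp
      ring
  rw [e1, e2, e3, e4, e5, hD1, Fintype.card_fin] at h2
  have h3 := mul_le_mul_of_nonneg_left (show δ + δ + δ + δ + 4 * M * r * w + δ + b ^ r +
    r * (1 - b) / s ≤ 8 * δ by linarith) hm0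
  have h4 := mul_le_mul_of_nonneg_right hm (show 0 ≤ 9 * δ by positivity)
  have h5 : μ * (n * p) / r * (9 * δ) = 9 * (δ * μ) * (n * p * (1 / r)) := by ring
  rw [h5, hδμ] at h4
  linarith

end Core

section Dens


open Finset Filter

theorem rescaled_ge (C : ℝ) : ∀ᶠ r : ℕ in atTop, ∀ k ≥ r, C / r ≤ rescaledDensity k r := by
  filter_upwards [core (le_max_right (9 * C) 1), eventually_ge_atTop 3] with r ⟨p₀, hp₀, h⟩ hr k hk
  obtain ⟨q, rfl⟩ : ∃ q, r = q + 1 := ⟨r - 1, by omega⟩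
  set r := q + 1 with hrq
  have hr' : (3 : ℝ) ≤ r := by exact_mod_cast hr
  have hr0 : (0 : ℝ) < r := by linarith
  have hK : (0 : ℝ) < (k : ℝ) - 1 := by
    have : (r : ℝ) ≤ k := by exact_mod_cast hk
    linarith
  have hf : (0 : ℝ) < r.factorial := by exact_mod_cast r.factorial_pos
  unfold rescaledDensity
  rw [show r - 1 = q from rfl]
  set K := (k : ℝ) - 1 with hKk
  refine ge_of_tendsto ((ratio_tendsto hk).const_mul _) ?_
  filter_upwards [eventually_ge_atTop r,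
    tendsto_natCast_atTop_atTop.eventually_ge_atTop (K * (1 + 2 / r) / p₀)] with n hn hn'
  have hn0 : (0 : ℝ) < n := hr0.trans_le (by exact_mod_cast hn)
  obtain ⟨H, hH, hc⟩ := exists_opt (n := n) hk
  have e1 : n * (K * (1 + 2 / r) / n) = K * (1 + 2 / r) := mul_div_cancel₀ _ hn0.ne'
  have h1 : max (9 * C) 1 * (K * (1 + 2 / r)) / r ≤ H.card * (K * (1 + 2 / r) / n) ^ r := by
    by_contra h2
    have h3 := h n H K (K * (1 + 2 / r) / n) (by positivity)
      (by rw [div_le_iff₀ hp₀] at hn'; rwa [div_le_iff₀ hn0, mul_comm p₀]) hH.1 (fun I hI => by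
        have : (I.card : ℝ) + 1 ≤ k := by exact_mod_cast hH.2 I hI
        linarith) (by rw [e1]; exact (not_le.1 h2).le)
    rw [e1, mul_assoc, mul_le_iff_le_one_right hK] at h3
    have e2 : (1 + 2 / (r : ℝ)) * (1 - 1 / r) = 1 + (r - 2) / r ^ 2 := by field_simp; ring
    have : 0 < ((r : ℝ) - 2) / r ^ 2 := div_pos (by linarith) (by positivity)
    linarith
  have h2 : (1 + 2 / (r : ℝ)) ^ q ≤ 9 := by
    have h3 : (1 + 2 / (r : ℝ)) ^ q ≤ Real.exp (2 / r) ^ r :=
      (pow_le_pow_right₀ (le_add_of_nonneg_right (by positivity)) (Nat.le_succ q)).trans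
        (pow_le_pow_left₀ (by positivity) (by linarith [Real.add_one_le_exp (2 / (r : ℝ))]) _)
    rw [← Real.exp_nat_mul, mul_div_cancel₀ _ hr0.ne', ← one_add_one_eq_two, Real.exp_add] at h3
    nlinarith [Real.exp_one_lt_d9, Real.exp_pos 1]
  have h3 : (H.card : ℝ) / (n ^ r / r.factorial) ≤ turanRatio k r n := by
    rw [turanRatio, ← hc]
    exact div_le_div_of_nonneg_left (by positivity) (by exact_mod_cast Nat.choose_pos hn)
      (Nat.choose_le_pow_div r n)
  refine le_trans ?_ (mul_le_mul_of_nonneg_left h3 (by positivity))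
  have h4 : 9 * C / r * (K * (1 + 2 / r)) ≤ 9 * (K ^ q * H.card / n ^ r) * (K * (1 + 2 / r)) := by
    calc _ ≤ max (9 * C) 1 / r * (K * (1 + 2 / r)) := by gcongr; exact le_max_left _ _
      _ ≤ H.card * (K * (1 + 2 / r) / n) ^ r := le_of_eq_of_le (by ring) h1
      _ = (1 + 2 / r) ^ q * (K ^ q * H.card / n ^ r) * (K * (1 + 2 / r)) := by
        rw [div_pow, mul_pow, pow_succ K, pow_succ (1 + 2 / (r : ℝ))]
        ring
      _ ≤ _ := by gcongr
  have h5 := le_of_mul_le_mul_right h4 (by positivity)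
  have e3 : K ^ q / r.factorial * (H.card / (n ^ r / r.factorial)) = K ^ q * H.card / n ^ r := by
    field_simp
  rw [e3]
  rw [mul_div_assoc] at h5
  linarith

end Dens

end Pool.Agent.P.MP_1e26d1_co.U
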