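import Mathlib

/-!
Random subsets, spread families, packings of residual sets, and the bound for a planted edge.
-/

namespace Pool.Agent.P.MP_1e26d1_co.U

section Bern


open Finset

variable {V : Type} [DecidableEq V]

/-- The expectation of `F` over a random subset of `s` that contains `v` with probability
`p v`, independently. -/
noncomputable def Ex (s : Finset V) (p : V → ℝ) (F : Finset V → ℝ) : ℝ :=
  ∑ S ∈ s.powerset, (∏ v ∈ S, p v) * (∏ v ∈ s \ S, (1 - p v)) * F S

/-- Probabilities. -/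
def Pb (p : V → ℝ) : Prop := ∀ v, 0 ≤ p v ∧ p v ≤ 1

open Classical in
/-- The indicator of a proposition. -/
noncomputable def ind (P : Prop) : ℝ := if P then 1 else 0

theorem ind_pos {P : Prop} (h : P) : ind P = 1 := if_pos h

theorem ind_neg {P : Prop} (h : ¬ P) : ind P = 0 := if_neg h

theorem ind_nonneg (P : Prop) : 0 ≤ ind P := by
  unfold ind; split_ifs <;> norm_num

theorem ind_le_one (P : Prop) : ind P ≤ 1 := by
  unfold ind; split_ifs <;> norm_num

theorem ind_mono {P Q : Prop} (h : P → Q) : ind P ≤ ind Q := by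
  by_cases hP : P
  · rw [ind_pos hP, ind_pos (h hP)]
  · rw [ind_neg hP]; exact ind_nonneg Q

theorem ind_congr {P Q : Prop} (h : P ↔ Q) : ind P = ind Q := by rw [propext h]

theorem ind_mul (P Q : Prop) : ind P * ind Q = ind (P ∧ Q) := by
  by_cases hP : P <;> by_cases hQ : Q <;> simp [ind, hP, hQ]

variable {s : Finset V} {p q w : V → ℝ} {F G : Finset V → ℝ}

theorem ex_empty : Ex ∅ p F = F ∅ := by simp [Ex]

theorem ex_insert {a : V} (ha : a ∉ s) :
    Ex (insert a s) p F = p a * Ex s p (fun S => F (insert a S)) + (1 - p a) * Ex s p F := by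
  unfold Ex
  rw [sum_powerset_insert ha, add_comm, mul_sum, mul_sum]
  congr 1
  · refine sum_congr rfl fun S hS => ?_
    have h : a ∉ S := fun h => ha (mem_powerset.1 hS h)
    rw [prod_insert h, insert_sdiff_insert, sdiff_insert_of_notMem ha]
    ring
  · refine sum_congr rfl fun S hS => ?_
    have h : a ∉ S := fun h => ha (mem_powerset.1 hS h)
    rw [insert_sdiff_of_notMem _ h, prod_insert fun h => ha (mem_sdiff.1 h).1]
    ring

theorem ex_congr (h : ∀ S ⊆ s, F S = G S) : Ex s p F = Ex s p G :=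
  sum_congr rfl fun S hS => by rw [h S (mem_powerset.1 hS)]

theorem ex_mono (hp : Pb p) (h : ∀ S, F S ≤ G S) : Ex s p F ≤ Ex s p G :=
  sum_le_sum fun S _ => mul_le_mul_of_nonneg_left (h S) (mul_nonneg
    (prod_nonneg fun v _ => (hp v).1) (prod_nonneg fun v _ => sub_nonneg.2 (hp v).2))

theorem ex_const (c : ℝ) : Ex s p (fun _ => c) = c := by
  induction s using Finset.induction_on with
  | empty => exact ex_empty
  | insert a s ha ih => rw [ex_insert ha, ih]; ring

theorem ex_add : Ex s p (fun S => F S + G S) = Ex s p F + Ex s p G := by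
  simp only [Ex, mul_add, sum_add_distrib]

theorem ex_sub : Ex s p (fun S => F S - G S) = Ex s p F - Ex s p G := by
  simp only [Ex, mul_sub, sum_sub_distrib]

theorem ex_mul (c : ℝ) : Ex s p (fun S => c * F S) = c * Ex s p F := by
  simp only [Ex, mul_sum]
  exact sum_congr rfl fun _ _ => by ring

theorem ex_mul' (c : ℝ) : Ex s p (fun S => F S * c) = Ex s p F * c := by
  simp only [mul_comm _ c, ex_mul]

theorem ex_sum {ι : Type} (t : Finset ι) (F : ι → Finset V → ℝ) :
    Ex s p (fun S => ∑ i ∈ t, F i S) = ∑ i ∈ t, Ex s p (F i) := by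
  simp only [Ex, mul_sum]
  exact sum_comm

theorem ex_nonneg (hp : Pb p) (h : ∀ S, 0 ≤ F S) : 0 ≤ Ex s p F :=
  (ex_const 0).symm.trans_le (ex_mono hp h)

theorem ex_le (hp : Pb p) {c : ℝ} (h : ∀ S, F S ≤ c) : Ex s p F ≤ c :=
  (ex_mono hp h).trans_eq (ex_const c)

theorem ex_plant_one {a : V} (ha : a ∈ s) :
    Ex s p (fun S => ind (a ∈ S) * F S) = p a * Ex s p (fun S => F (insert a S)) := by
  rw [← insert_erase ha, ex_insert (notMem_erase a s), ex_insert (notMem_erase a s),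
    ex_congr (s := s.erase a) (F := fun S => ind (a ∈ S) * F S) (G := fun _ => 0) fun S hS => by
      rw [ind_neg fun h => notMem_erase a s (hS h), zero_mul], ex_const]
  simp only [ind_pos (mem_insert_self _ _), one_mul, insert_idem]
  ring

/-- Planting a set. -/
theorem ex_plant {R : Finset V} (hR : R ⊆ s) (F : Finset V → ℝ) :
    Ex s p (fun S => ind (R ⊆ S) * F S) = (∏ v ∈ R, p v) * Ex s p (fun S => F (S ∪ R)) := by
  induction R using Finset.induction_on generalizing F with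
  | empty => simp [ind]
  | insert a R ha ih =>
    have e : ∀ S, ind (insert a R ⊆ S) * F S = ind (R ⊆ S) * (ind (a ∈ S) * F S) := fun S => by
      rw [← mul_assoc, ind_mul, ind_congr (insert_subset_iff.trans and_comm)]
    simp only [e]
    rw [ih ((subset_insert _ _).trans hR), prod_insert ha]
    have e' : ∀ S, ind (a ∈ S ∪ R) * F (S ∪ R) = ind (a ∈ S) * F (S ∪ R) := fun S => by
      rw [ind_congr (show a ∈ S ∪ R ↔ a ∈ S by simp [ha])]
    simp only [e']
    rw [ex_plant_one (hR (mem_insert_self _ _))]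
    simp only [insert_union, union_insert]
    ring

theorem ex_subset {R : Finset V} (hR : R ⊆ s) :
    Ex s p (fun S => ind (R ⊆ S)) = ∏ v ∈ R, p v := by
  have := ex_plant (p := p) hR fun _ => 1
  simpa only [mul_one, ex_const] using this

theorem ex_mem {a : V} (ha : a ∈ s) : Ex s p (fun S => ind (a ∈ S)) = p a := by
  have := ex_plant_one (p := p) (F := fun _ => 1) ha
  simpa only [mul_one, ex_const] using this

/-- Two descriptions of a random set with a random subset. -/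
theorem ex_split (h : ∀ v, w v * (1 - p v * q v) = p v * (1 - q v))
    (F : Finset V → Finset V → ℝ) : Ex s p (fun X => Ex s q fun U => F (X ∩ U) X) =
      Ex s (fun v => p v * q v) fun B => Ex s w fun W => F B (B ∪ W) := by
  induction s using Finset.induction_on generalizing F with
  | empty => simp [ex_empty]
  | insert a s ha ih =>
    have e1 : Ex s p (fun X => Ex s q fun U => F (insert a X ∩ U) (insert a X)) =
        Ex s p (fun X => Ex s q fun U => F (X ∩ U) (insert a X)) :=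
      ex_congr fun X _ => ex_congr fun U hU => by
        rw [insert_inter_of_notMem fun h => ha (hU h)]
    have e2 : Ex s p (fun X => Ex s q fun U => F (X ∩ insert a U) X) =
        Ex s p (fun X => Ex s q fun U => F (X ∩ U) X) :=
      ex_congr fun X hX => ex_congr fun U _ => by
        rw [inter_insert_of_notMem fun h => ha (hX h)]
    simp only [ex_insert ha, ex_add, ex_mul, insert_union, union_insert,
      insert_idem, ← insert_inter_distrib]
    rw [e1, e2, ih (fun B X => F (insert a B) (insert a X)), ih (fun B X => F B (insert a X)),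
      ih F]
    linear_combination (Ex s (fun v => p v * q v) (fun B => Ex s w fun W => F B (B ∪ W)) -
      Ex s (fun v => p v * q v) fun B => Ex s w fun W => F B (insert a (B ∪ W))) * h a

theorem ex_thin (F : Finset V → ℝ) :
    Ex s p (fun X => Ex s q fun U => F (X ∩ U)) = Ex s (fun v => p v * q v) F := by
  induction s using Finset.induction_on generalizing F with
  | empty => simp [ex_empty]
  | insert a s ha ih =>
    have e1 : Ex s p (fun X => Ex s q fun U => F (insert a X ∩ U)) =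
        Ex s p (fun X => Ex s q fun U => F (X ∩ U)) :=
      ex_congr fun X _ => ex_congr fun U hU => by
        rw [insert_inter_of_notMem fun h => ha (hU h)]
    have e2 : Ex s p (fun X => Ex s q fun U => F (X ∩ insert a U)) =
        Ex s p (fun X => Ex s q fun U => F (X ∩ U)) :=
      ex_congr fun X hX => ex_congr fun U _ => by
        rw [inter_insert_of_notMem fun h => ha (hX h)]
    simp only [ex_insert ha, ex_add, ex_mul, ← insert_inter_distrib]
    rw [e1, e2, ih (fun B => F (insert a B)), ih F]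
    ring

theorem ex_sq_le (hp : Pb p) : Ex s p F ^ 2 ≤ Ex s p fun S => F S ^ 2 := by
  have h := ex_nonneg (s := s) hp (F := fun S => (F S - Ex s p F) ^ 2) fun _ => sq_nonneg _
  have e : ∀ S, (F S - Ex s p F) ^ 2 = F S ^ 2 - 2 * Ex s p F * F S + Ex s p F ^ 2 :=
    fun S => by ring
  simp only [e, ex_add, ex_sub, ex_mul, ex_const] at h
  nlinarith

/-- The Efron-Stein inequality. -/
theorem ex_var_le (hp : Pb p) : Ex s p (fun S => F S ^ 2) - Ex s p F ^ 2 ≤
    ∑ u ∈ s, p u * Ex s p fun S => (F (insert u S) - F (S.erase u)) ^ 2 := by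
  induction s using Finset.induction_on generalizing F with
  | empty => simp [ex_empty]
  | insert a s ha ih =>
    have h1 := ih (F := fun S => F (insert a S))
    have h0 := ih (F := F)
    have h2 := ex_sq_le (s := s) hp (F := fun S => F (insert a S) - F S)
    have e1 : Ex (insert a s) p (fun S => (F (insert a S) - F (S.erase a)) ^ 2) =
        Ex s p fun S => (F (insert a S) - F S) ^ 2 := by
      rw [ex_insert ha, ex_congr (s := s)
        (F := fun S => (F (insert a (insert a S)) - F ((insert a S).erase a)) ^ 2)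
        (G := fun S => (F (insert a S) - F S) ^ 2) fun S hS => by
          rw [insert_idem, erase_insert fun h => ha (hS h)], ex_congr (s := s)
        (F := fun S => (F (insert a S) - F (S.erase a)) ^ 2)
        (G := fun S => (F (insert a S) - F S) ^ 2) fun S hS => by
          rw [erase_eq_of_notMem fun h => ha (hS h)]]
      ring
    have e2 : ∑ u ∈ s, p u * Ex (insert a s) p (fun S => (F (insert u S) - F (S.erase u)) ^ 2) =
        p a * ∑ u ∈ s, p u * Ex s p (fun S =>
          (F (insert a (insert u S)) - F (insert a (S.erase u))) ^ 2) +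
        (1 - p a) * ∑ u ∈ s, p u * Ex s p fun S => (F (insert u S) - F (S.erase u)) ^ 2 := by
      rw [mul_sum, mul_sum, ← sum_add_distrib]
      refine sum_congr rfl fun u hu => ?_
      have hne : a ≠ u := fun h => ha (h ▸ hu)
      rw [ex_insert ha]
      simp only [insert_comm u a, erase_insert_of_ne hne]
      ring
    rw [sum_insert ha, e1, e2, ex_insert ha, ex_insert ha]
    rw [ex_sub] at h2
    obtain ⟨p0, p1⟩ := hp a
    have h3 := mul_le_mul_of_nonneg_left h1 p0
    have h4 := mul_le_mul_of_nonneg_left h0 (sub_nonneg.2 p1)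
    have h5 := mul_le_mul_of_nonneg_left h2 p0
    have h6 := mul_nonneg (mul_nonneg p0 p0)
      (sq_nonneg (Ex s p (fun S => F (insert a S)) - Ex s p F))
    nlinarith

end Bern

section Comb


open Finset

variable {V : Type} [Fintype V] [DecidableEq V]

/-- The expectation over a random set of density `w`. -/
noncomputable def E (w : ℝ) (F : Finset V → ℝ) : ℝ := Ex univ (fun _ => w) F

/-- All independent sets have at most `a` elements. -/
def Bd (H : Finset (Finset V)) (a : ℝ) : Prop :=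
  ∀ I : Finset V, (∀ e ∈ H, ¬ e ⊆ I) → (I.card : ℝ) ≤ a

omit [Fintype V] [DecidableEq V] in
theorem pb_const {w : ℝ} (h0 : 0 ≤ w) (h1 : w ≤ 1) : Pb fun _ : V => w := fun _ => ⟨h0, h1⟩

omit [Fintype V] in
theorem exists_delete {H : Finset (Finset V)} (hne : ∀ e ∈ H, e.Nonempty) (X : Finset V) :
    ∃ I ⊆ X, (∀ e ∈ H, ¬ e ⊆ I) ∧ (X.card : ℝ) ≤ I.card + ∑ e ∈ H, ind (e ⊆ X) := by
  induction H using Finset.induction_on with
  | empty => exact ⟨X, Subset.rfl, by simp, by simp⟩
  | insert e H he ih =>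
    obtain ⟨I, h1, h2, h3⟩ := ih fun e' h => hne e' (mem_insert_of_mem h)
    rw [sum_insert he]
    by_cases h : e ⊆ I
    · obtain ⟨v, hv⟩ := hne e (mem_insert_self _ _)
      refine ⟨I.erase v, (erase_subset _ _).trans h1, fun e' he' h' => ?_, ?_⟩
      · rcases mem_insert.1 he' with rfl | he'
        · exact notMem_erase v I (h' hv)
        · exact h2 e' he' (h'.trans (erase_subset _ _))
      · rw [ind_pos (h.trans h1), cast_card_erase_of_mem (h hv)]
        linarith
    · refine ⟨I, h1, fun e' he' => ?_, by linarith [ind_nonneg (e ⊆ X)]⟩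
      rcases mem_insert.1 he' with rfl | he'
      · exact h
      · exact h2 e' he'

omit [DecidableEq V] in
theorem card_eq_sum_ind (X : Finset V) : (X.card : ℝ) = ∑ v, ind (v ∈ X) := by
  rw [← sum_subset (subset_univ X) fun v _ h => ind_neg h, sum_congr rfl fun v h => ind_pos h]
  simp

/-- The multilinear lower bound for the independence number. -/
theorem cover {H : Finset (Finset V)} {a : ℝ} (hne : ∀ e ∈ H, e.Nonempty) (ha : Bd H a)
    {x : V → ℝ} (hx : Pb x) : ∑ v, x v - ∑ e ∈ H, ∏ v ∈ e, x v ≤ a := by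
  have h := ex_le (s := univ) hx (F := fun X => ∑ v, ind (v ∈ X) - ∑ e ∈ H, ind (e ⊆ X))
    (c := a) fun X => by
      obtain ⟨I, -, h2, h3⟩ := exists_delete hne X
      rw [← card_eq_sum_ind]
      linarith [ha I h2]
  rw [ex_sub, ex_sum, ex_sum] at h
  simpa only [ex_mem (mem_univ _), ex_subset (subset_univ _)] using h

omit [Fintype V] in
/-- Removing the popular subsets of residual sets. -/
theorem spread (B : Finset V) {w Δ : ℝ} (hw : 0 ≤ w) (hΔ : 0 ≤ Δ) (A : Finset (Finset V)) :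
    ∃ F ⊆ A, ∃ G : Finset (Finset V), (∀ Q ∈ G, Q.Nonempty ∧ Disjoint Q B) ∧
      (∀ e ∈ A, e ∉ F → ∃ Q ∈ G, Q ⊆ e) ∧
      Δ * ∑ Q ∈ G, w ^ Q.card ≤ ∑ e ∈ A, w ^ (e \ B).card ∧
      ∀ Q : Finset V, Q.Nonempty →
        ∑ e ∈ F with Q ⊆ e \ B, w ^ (e \ B).card ≤ Δ * w ^ Q.card := by
  induction A using Finset.strongInduction with
  | H A ih =>
    by_cases h : ∀ Q : Finset V, Q.Nonempty →
        ∑ e ∈ A with Q ⊆ e \ B, w ^ (e \ B).card ≤ Δ * w ^ Q.card
    · exact ⟨A, Subset.rfl, ∅, by simp, fun e he h => (h he).elim,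
        by simpa using sum_nonneg fun e _ => pow_nonneg hw _, h⟩
    push Not at h
    obtain ⟨Q, hQ, h⟩ := h
    obtain ⟨e₀, he₀⟩ : (A.filter fun e => Q ⊆ e \ B).Nonempty := by
      by_contra h0
      rw [not_nonempty_iff_eq_empty.1 h0, sum_empty] at h
      exact h.not_ge (by positivity)
    obtain ⟨F, h1, G, h2, h3, h4, h5⟩ := ih (A.filter fun e => ¬ Q ⊆ e \ B)
      (filter_ssubset.2 ⟨e₀, (mem_filter.1 he₀).1, not_not.2 (mem_filter.1 he₀).2⟩)
    refine ⟨F, h1.trans (filter_subset _ _), insert Q G, fun Q' hQ' => ?_, fun e he hF => ?_, ?_,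
      h5⟩
    · rcases mem_insert.1 hQ' with rfl | hQ'
      · exact ⟨hQ, disjoint_of_subset_left (mem_filter.1 he₀).2 sdiff_disjoint⟩
      · exact h2 Q' hQ'
    · by_cases hs : Q ⊆ e \ B
      · exact ⟨Q, mem_insert_self _ _, hs.trans sdiff_subset⟩
      · obtain ⟨Q', h6, h7⟩ := h3 e (mem_filter.2 ⟨he, hs⟩) hF
        exact ⟨Q', mem_insert_of_mem h6, h7⟩
    · have h6 : ∑ Q ∈ insert Q G, w ^ Q.card ≤ w ^ Q.card + ∑ Q ∈ G, w ^ Q.card := by
        by_cases hG : Q ∈ G
        · rw [insert_eq_of_mem hG]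
          exact le_add_of_nonneg_left (pow_nonneg hw _)
        · rw [sum_insert hG]
      rw [← sum_filter_add_sum_filter_not A fun e => Q ⊆ e \ B]
      nlinarith [mul_le_mul_of_nonneg_left h6 hΔ]

omit [Fintype V] in
/-- Planting a small set raises the expected number of edges that meet it by a bounded amount. -/
theorem boost {B R : Finset V} {w Δ : ℝ} (hw : 0 < w) (hΔ : 0 ≤ Δ) {F : Finset (Finset V)}
    (h : ∀ Q : Finset V, Q.Nonempty →
      ∑ e ∈ F with Q ⊆ e \ B, w ^ (e \ B).card ≤ Δ * w ^ Q.card) :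
    ∑ e ∈ F, ind (R ∩ (e \ B)).Nonempty * w ^ (R ∪ e \ B).card ≤
      2 ^ R.card * Δ * w ^ R.card := by
  have h1 : ∀ e ∈ F, ind (R ∩ (e \ B)).Nonempty * w ^ (R ∪ e \ B).card ≤
      ∑ Q ∈ R.powerset, ind Q.Nonempty * (w ^ R.card / w ^ Q.card) *
        if Q ⊆ e \ B then w ^ (e \ B).card else 0 := fun e _ => by
    refine le_trans (le_of_eq ?_) (single_le_sum (a := R ∩ (e \ B)) (fun Q _ => ?_)
      (mem_powerset.2 inter_subset_left))
    · rw [if_pos inter_subset_right, mul_assoc, div_mul_eq_mul_div, ← pow_add,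
        ← card_union_add_card_inter, pow_add, mul_div_cancel_right₀ _ (by positivity)]
    · have := ind_nonneg Q.Nonempty
      split_ifs <;> positivity
  refine (sum_le_sum h1).trans ?_
  rw [sum_comm]
  refine (sum_le_card_nsmul _ _ (Δ * w ^ R.card) fun Q _ => ?_).trans_eq (by simp [mul_assoc])
  rw [← mul_sum, ← sum_filter]
  by_cases hQ : Q.Nonempty
  · rw [ind_pos hQ, one_mul]
    refine (mul_le_mul_of_nonneg_left (h Q hQ) (by positivity)).trans_eq ?_
    field_simp
  · rw [ind_neg hQ, zero_mul, zero_mul]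
    positivity

/-- The set `W` contains `j` pairwise disjoint residual sets of members of `A`. -/
def Pk (A : Finset (Finset V)) (B : Finset V) (j : ℕ) (W : Finset V) : Prop :=
  ∃ M ⊆ A, M.card = j ∧ (∀ e ∈ M, e \ B ⊆ W) ∧
    ∀ e ∈ M, ∀ e' ∈ M, e ≠ e' → Disjoint (e \ B) (e' \ B)

variable {A A' : Finset (Finset V)} {B W W' : Finset V} {j : ℕ} {w : ℝ}

omit [Fintype V] in
theorem pk_zero : Pk A B 0 W := ⟨∅, empty_subset _, rfl, by simp, by simp⟩

omit [Fintype V] in
theorem Pk.mono (h : Pk A B j W) (h' : ∀ e ∈ A, e \ B ⊆ W → e ∈ A' ∧ e \ B ⊆ W') :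
    Pk A' B j W' := by
  obtain ⟨M, h1, h2, h3, h4⟩ := h
  exact ⟨M, fun e he => (h' e (h1 he) (h3 e he)).1, h2, fun e he => (h' e (h1 he) (h3 e he)).2, h4⟩

omit [Fintype V] in
theorem Pk.add (h : Pk A B j W) {e : Finset V} (he : e ∈ A') (hne : (e \ B).Nonempty)
    (h' : ∀ e' ∈ A, e' ∈ A' ∧ Disjoint (e \ B) (e' \ B)) : Pk A' B (j + 1) (W ∪ e \ B) := by
  obtain ⟨M, h1, h2, h3, h4⟩ := h
  have hM : e ∉ M := fun h => hne.ne_empty (disjoint_self.1 (h' e (h1 h)).2)
  refine ⟨insert e M, insert_subset he fun e' h => (h' e' (h1 h)).1,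
    by rw [card_insert_of_notMem hM, h2], fun e' h => ?_, fun e₁ h₁ e₂ h₂ hn => ?_⟩
  · rcases mem_insert.1 h with rfl | h
    · exact subset_union_right
    · exact (h3 e' h).trans subset_union_left
  · rcases mem_insert.1 h₁ with k₁ | k₁ <;> rcases mem_insert.1 h₂ with k₂ | k₂
    · exact (hn (k₁.trans k₂.symm)).elim
    · exact k₁ ▸ (h' _ (h1 k₂)).2
    · exact k₂ ▸ (h' _ (h1 k₁)).2.symm
    · exact h4 _ k₁ _ k₂ hn

theorem pk_step (h0 : 0 ≤ w) (h1 : w ≤ 1) : (j + 1) * E w (fun W => ind (Pk A B (j + 1) W)) ≤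
    (∑ e ∈ A, w ^ (e \ B).card) * E w fun W => ind (Pk A B j W) := by
  have hp := pb_const (V := V) h0 h1
  have h : ∀ W, (j + 1 : ℝ) * ind (Pk A B (j + 1) W) ≤
      ∑ e ∈ A, ind (e \ B ⊆ W) * ind (Pk A B j (W \ (e \ B))) := fun W => by
    by_cases hW : Pk A B (j + 1) W
    · obtain ⟨M, h1, h2, h3, h4⟩ := id hW
      rw [ind_pos hW, mul_one]
      refine le_trans ?_ (sum_le_sum_of_subset_of_nonneg h1 fun e _ _ =>
        mul_nonneg (ind_nonneg _) (ind_nonneg _))
      refine le_trans (le_of_eq ?_) (card_nsmul_le_sum M _ 1 fun e he => ?_)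
      · simp [h2]
      · rw [ind_pos (h3 e he), ind_pos, one_mul]
        refine ⟨M.erase e, (erase_subset _ _).trans h1, by rw [card_erase_of_mem he, h2]; rfl,
          fun e' h => subset_sdiff.2 ⟨h3 e' (mem_of_mem_erase h),
            h4 _ (mem_of_mem_erase h) _ he (ne_of_mem_erase h)⟩,
          fun e₁ h₁ e₂ h₂ => h4 _ (mem_of_mem_erase h₁) _ (mem_of_mem_erase h₂)⟩
    · rw [ind_neg hW, mul_zero]
      exact sum_nonneg fun e _ => mul_nonneg (ind_nonneg _) (ind_nonneg _)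
  unfold E
  rw [← ex_mul, sum_mul]
  refine (ex_mono hp h).trans ?_
  rw [ex_sum]
  refine sum_le_sum fun e _ => ?_
  rw [ex_plant (subset_univ _), prod_const]
  refine mul_le_mul_of_nonneg_left (ex_mono hp fun W => ind_mono fun h => h.mono fun e' he' h' =>
    ⟨he', h'.trans ?_⟩) (pow_nonneg h0 _)
  rw [union_sdiff_right]
  exact sdiff_subset

/-- A level at which the probability of a packing drops. -/
theorem exists_level (h0 : 0 ≤ w) (h1 : w ≤ 1) {η : ℝ} (hη : 0 ≤ η) (hη1 : η ≤ 1) {T : ℕ}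
    (hT : ∑ e ∈ A, w ^ (e \ B).card ≤ η * (T + 1)) :
    ∃ t, E w (fun W => ind (Pk A B (t + 1) W)) ≤ η * E w (fun W => ind (Pk A B t W)) ∧
      η ^ T ≤ E w fun W => ind (Pk A B t W) := by
  classical
  have hT' : E w (fun W => ind (Pk A B (T + 1) W)) ≤ η * E w fun W => ind (Pk A B T W) := by
    have h2 := (pk_step (A := A) (B := B) (j := T) h0 h1).trans (mul_le_mul_of_nonneg_right hT
      (ex_nonneg (pb_const h0 h1) fun _ => ind_nonneg _))
    have h3 : (0 : ℝ) < T + 1 := by positivity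
    exact le_of_mul_le_mul_left (h2.trans_eq (by unfold E; ring)) h3
  have hex : ∃ t, E w (fun W => ind (Pk A B (t + 1) W)) ≤ η * E w fun W => ind (Pk A B t W) :=
    ⟨T, hT'⟩
  refine ⟨Nat.find hex, Nat.find_spec hex,
    (pow_le_pow_of_le_one hη hη1 (Nat.find_min' hex hT')).trans ?_⟩
  have key : ∀ t ≤ Nat.find hex, η ^ t ≤ E w fun W => ind (Pk A B t W) := by
    intro t ht
    induction t with
    | zero => simp only [E, ind_pos pk_zero, ex_const, pow_zero, le_refl]
    | succ t ih =>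
      have := not_le.1 (Nat.find_min hex (show t < Nat.find hex by omega))
      rw [pow_succ']
      exact (mul_le_mul_of_nonneg_left (ih (by omega)) hη).trans this.le
  exact key _ le_rfl

end Comb

section Edge


open Finset

variable {V : Type} [Fintype V] [DecidableEq V]
variable {H F : Finset (Finset V)} {B : Finset V} {w Δ M μ θ C : ℝ} {s r : ℕ}

omit [Fintype V] in
theorem pivot {L : Finset (Finset V)} {G : Finset V} {b : V → ℕ} (hb : ∀ v, v ∉ G → b v = 0)
    (u v : V) (W : Finset V) :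
    ind (Pk (L.filter (v ∈ ·)) B (b v) (insert u W)) - ind (Pk (L.filter (v ∈ ·)) B (b v) (W.erase u))
      ≤ ∑ e ∈ L, ind (u ∈ e \ B ∧ e \ B ⊆ insert u W) * ind (v ∈ G ∧ v ∈ e) := by
  have h0 : ∀ e ∈ L, 0 ≤ ind (u ∈ e \ B ∧ e \ B ⊆ insert u W) * ind (v ∈ G ∧ v ∈ e) :=
    fun e _ => mul_nonneg (ind_nonneg _) (ind_nonneg _)
  by_cases hv : v ∈ G
  · by_cases h : ∃ e ∈ L, v ∈ e ∧ u ∈ e \ B ∧ e \ B ⊆ insert u W
    · obtain ⟨e, h1, h2, h3⟩ := h
      refine le_trans ?_ (single_le_sum h0 h1)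
      rw [ind_pos h3, ind_pos (show v ∈ G ∧ v ∈ e from ⟨hv, h2⟩), one_mul]
      linarith [ind_le_one (Pk (L.filter (v ∈ ·)) B (b v) (insert u W)),
        ind_nonneg (Pk (L.filter (v ∈ ·)) B (b v) (W.erase u))]
    · refine (sub_nonpos.2 (ind_mono fun h' => h'.mono fun e he h1 => ⟨he, fun z hz => ?_⟩)).trans
        (sum_nonneg h0)
      have hne : z ≠ u := fun hu => h ⟨e, (mem_filter.1 he).1, (mem_filter.1 he).2, hu ▸ hz, h1⟩
      exact mem_erase.2 ⟨hne, mem_of_mem_insert_of_ne (h1 hz) hne⟩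
  · rw [hb v hv, ind_pos pk_zero, ind_pos pk_zero, sub_self]
    exact sum_nonneg h0

theorem second_moment (hw : 0 < w) (hΔ : 0 ≤ Δ) (hθ : 0 ≤ θ)
    (hS : ∀ Q : Finset V, Q.Nonempty →
      ∑ e ∈ F with Q ⊆ e \ B, w ^ (e \ B).card ≤ Δ * w ^ Q.card)
    (hs : ∀ e ∈ F, (e \ B).card ≤ s) {L : Finset (Finset V)} (hL : L ⊆ F) {g : Finset V → ℝ}
    (hg : ∀ e ∈ L, 0 ≤ g e ∧ g e ≤ θ) :
    ∑ u, E w (fun W => (∑ e ∈ L, ind (u ∈ e \ B ∧ e \ B ⊆ W) * g e) ^ 2) ≤
      θ * s * 2 ^ s * Δ * ∑ e ∈ L, g e * w ^ (e \ B).card := by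
  have e1 : ∀ u W, (∑ e ∈ L, ind (u ∈ e \ B ∧ e \ B ⊆ W) * g e) ^ 2 = ∑ e ∈ L, ∑ e' ∈ L,
      g e * g e' * ind (u ∈ e \ B ∩ (e' \ B)) * ind (e \ B ∪ e' \ B ⊆ W) := fun u W => by
    rw [sq, sum_mul_sum]
    refine sum_congr rfl fun e _ => sum_congr rfl fun e' _ => ?_
    rw [mul_mul_mul_comm, ind_mul, mul_assoc (g e * g e'), ind_mul, mul_comm]
    congr 1
    exact ind_congr (by rw [mem_inter, union_subset_iff]; tauto)
  simp only [E, e1, ex_sum, ex_mul, ex_subset (subset_univ _), prod_const]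
  rw [sum_comm, mul_sum]
  refine sum_le_sum fun e he => ?_
  rw [sum_comm]
  have h1 : ∀ e' ∈ L, ∑ u, g e * g e' * ind (u ∈ e \ B ∩ (e' \ B)) * w ^ (e \ B ∪ e' \ B).card ≤
      g e * θ * s * (ind (e \ B ∩ (e' \ B)).Nonempty * w ^ (e \ B ∪ e' \ B).card) := by
    intro e' he'
    rw [← sum_mul, ← mul_sum, ← card_eq_sum_ind, ← mul_assoc]
    refine mul_le_mul_of_nonneg_right ?_ (by positivity)
    by_cases hne : (e \ B ∩ (e' \ B)).Nonempty
    · rw [ind_pos hne, mul_one]
      refine mul_le_mul (mul_le_mul_of_nonneg_left (hg e' he').2 (hg e he).1) ?_ (by positivity)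
        (mul_nonneg (hg e he).1 hθ)
      exact_mod_cast (card_le_card inter_subset_left).trans (hs e (hL he))
    · rw [ind_neg hne, not_nonempty_iff_eq_empty.1 hne]
      simp
  refine (sum_le_sum h1).trans ?_
  rw [← mul_sum]
  have h2 := (sum_le_sum_of_subset_of_nonneg hL fun e' _ _ =>
    mul_nonneg (ind_nonneg (e \ B ∩ (e' \ B)).Nonempty)
      (pow_nonneg hw.le (e \ B ∪ e' \ B).card)).trans (boost (R := e \ B) hw hΔ hS)
  have h3 : (2 : ℝ) ^ (e \ B).card ≤ 2 ^ s := pow_le_pow_right₀ one_le_two (hs e (hL he))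
  have h4 := (hg e he).1
  calc _ ≤ g e * θ * s * (2 ^ s * Δ * w ^ (e \ B).card) := by
        refine mul_le_mul_of_nonneg_left (h2.trans ?_) (by positivity)
        gcongr
    _ = _ := by ring

theorem variance (hw : 0 < w) (hw1 : w ≤ 1) (hΔ : 0 ≤ Δ) (hθ : 0 ≤ θ) (hμ : 0 ≤ μ)
    (hS : ∀ Q : Finset V, Q.Nonempty →
      ∑ e ∈ F with Q ⊆ e \ B, w ^ (e \ B).card ≤ Δ * w ^ Q.card)
    (hs : ∀ e ∈ F, (e \ B).card ≤ s) {L : Finset (Finset V)} (hL : L ⊆ F) {N G : Finset V}
    (hN : ∀ e ∈ L, ((N ∩ e).card : ℝ) ≤ θ)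
    (hG : ∀ v ∈ G, ∑ e ∈ F with v ∈ e, w ^ (e \ B).card ≤ μ) {b : V → ℕ}
    (hb : ∀ v, v ∉ G → b v = 0) {c : V → ℝ} (hc : ∀ v, 0 ≤ c v ∧ c v ≤ M) (hM : 0 ≤ M) :
    E w (fun W => (∑ v ∈ N, c v * ind (Pk (L.filter (v ∈ ·)) B (b v) W)) ^ 2) -
      E w (fun W => ∑ v ∈ N, c v * ind (Pk (L.filter (v ∈ ·)) B (b v) W)) ^ 2 ≤
      M ^ 2 * (θ * s * 2 ^ s * Δ * (N.card * μ)) := by
  have hp := pb_const (V := V) hw.le hw1
  refine (ex_var_le hp).trans ?_
  have hg : ∀ e ∈ L, 0 ≤ ∑ v ∈ N, ind (v ∈ G ∧ v ∈ e) ∧ ∑ v ∈ N, ind (v ∈ G ∧ v ∈ e) ≤ θ := by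
    refine fun e he => ⟨sum_nonneg fun _ _ => ind_nonneg _, le_trans ?_ (hN e he)⟩
    rw [card_eq_sum_ind]
    refine le_trans (sum_le_sum fun v hv => ind_mono fun h => mem_inter.2 ⟨hv, h.2⟩) ?_
    exact sum_le_univ_sum_of_nonneg fun _ => ind_nonneg _
  have h1 : ∀ u, w * Ex univ (fun _ => w) (fun W =>
      (∑ v ∈ N, c v * ind (Pk (L.filter (v ∈ ·)) B (b v) (insert u W)) -
        ∑ v ∈ N, c v * ind (Pk (L.filter (v ∈ ·)) B (b v) (W.erase u))) ^ 2) ≤
      M ^ 2 * E w fun W =>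
        (∑ e ∈ L, ind (u ∈ e \ B ∧ e \ B ⊆ W) * ∑ v ∈ N, ind (v ∈ G ∧ v ∈ e)) ^ 2 := by
    intro u
    have h2 : ∀ W : Finset V,
        (∑ v ∈ N, c v * ind (Pk (L.filter (v ∈ ·)) B (b v) (insert u W)) -
          ∑ v ∈ N, c v * ind (Pk (L.filter (v ∈ ·)) B (b v) (W.erase u))) ^ 2 ≤
        M ^ 2 * (∑ e ∈ L, ind (u ∈ e \ B ∧ e \ B ⊆ insert u W) *
          ∑ v ∈ N, ind (v ∈ G ∧ v ∈ e)) ^ 2 := fun W => by
      have h3 : ∀ v, 0 ≤ ind (Pk (L.filter (v ∈ ·)) B (b v) (insert u W)) -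
          ind (Pk (L.filter (v ∈ ·)) B (b v) (W.erase u)) := fun v =>
        sub_nonneg.2 (ind_mono fun h => h.mono fun e he h1 =>
          ⟨he, h1.trans ((erase_subset _ _).trans (subset_insert _ _))⟩)
      rw [← sum_sub_distrib, ← mul_pow]
      simp only [← mul_sub]
      refine pow_le_pow_left₀ (sum_nonneg fun v _ => mul_nonneg (hc v).1 (h3 v)) ?_ 2
      simp only [mul_sum]
      rw [sum_comm]
      refine sum_le_sum fun v _ => ?_
      rw [← mul_sum]
      exact mul_le_mul (hc v).2 (pivot hb u v W) (h3 v) hM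
    refine (mul_le_mul_of_nonneg_left (ex_mono hp h2) hw.le).trans ?_
    rw [ex_mul, mul_left_comm]
    refine mul_le_mul_of_nonneg_left ?_ (sq_nonneg M)
    refine (ex_plant_one (p := fun _ => w) (F := fun W =>
      (∑ e ∈ L, ind (u ∈ e \ B ∧ e \ B ⊆ W) * ∑ v ∈ N, ind (v ∈ G ∧ v ∈ e)) ^ 2)
      (mem_univ u)).symm.le.trans (ex_mono hp fun W => ?_)
    exact mul_le_of_le_one_left (sq_nonneg _) (ind_le_one _)
  refine (sum_le_sum fun u _ => h1 u).trans ?_
  rw [← mul_sum]
  refine mul_le_mul_of_nonneg_left ((second_moment hw hΔ hθ hS hs hL hg).trans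
    (mul_le_mul_of_nonneg_left ?_ (by positivity))) (sq_nonneg M)
  simp only [sum_mul]
  rw [sum_comm]
  refine (sum_le_card_nsmul _ _ μ fun v _ => ?_).trans_eq (nsmul_eq_mul _ _)
  by_cases hv : v ∈ G
  · refine le_trans ?_ (hG v hv)
    rw [sum_filter]
    refine (sum_le_sum_of_subset_of_nonneg hL fun e _ _ =>
      mul_nonneg (ind_nonneg _) (by positivity)).trans (sum_le_sum fun e _ => ?_)
    split_ifs with h
    · exact mul_le_of_le_one_left (by positivity) (ind_le_one _)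
    · rw [ind_neg fun h' => h h'.2, zero_mul]
  · simp only [ind_neg fun h : v ∈ G ∧ _ => hv h.1, zero_mul, sum_const_zero, hμ]

theorem concentration (hw : 0 ≤ w) (hw1 : w ≤ 1) {S : Finset V → ℝ} (hS : ∀ W, 0 ≤ S W) {r σ d : ℝ}
    (hr : 0 < r) (hC : 0 < C) (hd : 0 ≤ d) (hm : r / 2 - d ≤ E w S)
    (hv : E w (fun W => S W ^ 2) - E w S ^ 2 ≤ σ) :
    E w (fun W => Real.exp (-(C / r * S W))) ≤ 8 / C + 64 * σ / r ^ 2 + 4 * d / r := by
  have hp := pb_const (V := V) hw hw1
  have hσ : 0 ≤ σ := (sub_nonneg.2 (ex_sq_le hp)).trans hv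
  have h1 : ∀ W, Real.exp (-(C / r * S W)) ≤ 1 := fun W =>
    Real.exp_le_one_iff.2 (neg_nonpos.2 (mul_nonneg (by positivity) (hS W)))
  rcases le_total (r / 4) d with h | h
  · have : 1 ≤ 4 * d / r := by rw [le_div_iff₀ hr]; linarith
    exact (ex_le hp h1).trans (this.trans (le_add_of_nonneg_left (by positivity)))
  have h2 : ∀ W, Real.exp (-(C / r * S W)) ≤
      8 / C + 64 / r ^ 2 * (S W ^ 2 - 2 * E w S * S W + E w S ^ 2) := fun W => by
    have h3 : S W ^ 2 - 2 * E w S * S W + E w S ^ 2 = (E w S - S W) ^ 2 := by ring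
    rw [h3]
    rcases le_total (S W) (r / 8) with h4 | h4
    · refine (h1 W).trans (le_add_of_nonneg_of_le (by positivity) ?_)
      rw [div_mul_eq_mul_div, le_div_iff₀ (by positivity)]
      nlinarith [pow_le_pow_left₀ (by positivity) (show r / 8 ≤ E w S - S W by linarith) 2]
    · refine le_add_of_le_of_nonneg ?_ (by positivity)
      have h5 : C / 8 ≤ C / r * S W :=
        (by field_simp : C / 8 = C / r * (r / 8)).trans_le
          (mul_le_mul_of_nonneg_left h4 (by positivity))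
      rw [Real.exp_neg, ← inv_div C 8]
      exact inv_anti₀ (by positivity) (by linarith [Real.add_one_le_exp (C / r * S W)])
  refine (ex_mono hp h2).trans ?_
  rw [ex_add, ex_const, ex_mul, ex_add, ex_sub, ex_mul, ex_const]
  have h3 : 64 / r ^ 2 * (E w (fun W => S W ^ 2) - 2 * E w S * E w S + E w S ^ 2) ≤
      64 * σ / r ^ 2 := by
    rw [div_mul_eq_mul_div]
    gcongr
    linarith
  have h4 : 0 ≤ 4 * d / r := by positivity
  unfold E at h3 ⊢
  linarith

/-- Another edge through `v` inside `X` meets `e` in a large part of `B`. -/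
def NL (H : Finset (Finset V)) (θ : ℝ) (e : Finset V) (v : V) (B X : Finset V) : Prop :=
  ∃ e' ∈ H, v ∈ e' ∧ e ∩ e' ⊆ B ∧ θ ≤ (e ∩ e').card ∧ e' ⊆ X

omit [Fintype V] in
theorem prod_split (e B W : Finset V) (z : V → ℝ) :
    ∏ v ∈ e, (if v ∈ B then Real.exp (-z v) else ind (v ∈ W)) =
      ind (e \ B ⊆ W) * Real.exp (-∑ v ∈ e ∩ B, z v) := by
  rw [prod_ite, filter_mem_eq_inter, ← sdiff_eq_filter, ← Real.exp_sum, sum_neg_distrib, mul_comm]
  congr 1
  by_cases h : e \ B ⊆ W
  · rw [ind_pos h, prod_eq_one fun v hv => ind_pos (h hv)]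
  · obtain ⟨v, h1, h2⟩ := not_subset.1 h
    rw [ind_neg h, prod_eq_zero h1 (ind_neg h2)]

theorem edge_bound (hw : 0 < w) (hw1 : w ≤ 1) (hΔ : 0 ≤ Δ) (hθ : 0 ≤ θ) (hμ : 0 ≤ μ) (hC : 0 < C)
    (hM : 0 ≤ M) (hr : 0 < r) (hsr : 2 * s ≤ r) (hF : F ⊆ H)
    (hS : ∀ Q : Finset V, Q.Nonempty →
      ∑ e ∈ F with Q ⊆ e \ B, w ^ (e \ B).card ≤ Δ * w ^ Q.card)
    (hs : ∀ e ∈ F, (e \ B).card ≤ s) {G : Finset V}
    (hG : ∀ v ∈ G, ∑ e ∈ F with v ∈ e, w ^ (e \ B).card ≤ μ) {a : V → ℕ}
    (ha : ∀ v, v ∉ G → a v = 0) {c : V → ℝ} (hc : ∀ v, 0 ≤ c v ∧ c v ≤ M)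
    (hc1 : ∀ v, c v * E w (fun W => ind (Pk (F.filter (v ∈ ·)) B (a v - 1) W)) = 1)
    {e : Finset V} (he : e ∈ F) (hne : (e \ B).Nonempty) (her : e.card = r) :
    E w (fun W => ∏ v ∈ e, if v ∈ B then
      Real.exp (-(C / r * (c v * ind (Pk (F.filter (v ∈ ·)) B (a v) W)))) else ind (v ∈ W)) ≤
      w ^ (e \ B).card * (8 / C + 64 * M ^ 2 * θ * s * 2 ^ s * Δ * μ / r + 4 * M / r *
        ∑ v ∈ e, ind (v ∈ G) * (r * w + E w fun W => ind (NL H θ e v B (B ∪ W)))) := by
  classical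
  have hp := pb_const (V := V) hw.le hw1
  have hr' : (0 : ℝ) < r := by exact_mod_cast hr
  simp only [prod_split]
  unfold E
  rw [ex_plant (subset_univ _), prod_const]
  refine mul_le_mul_of_nonneg_left ?_ (by positivity)
  set L := F.filter fun e' => ((e ∩ e').card : ℝ) < θ ∧ Disjoint (e \ B) (e' \ B) with hL
  have hLF : L ⊆ F := filter_subset _ _
  have hv := variance hw hw1 hΔ hθ hμ hS hs hLF (N := e ∩ B) (fun e' h => by
    refine le_trans ?_ (mem_filter.1 h).2.1.le
    exact_mod_cast card_le_card (inter_subset_inter_right inter_subset_left)) hG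
    (b := fun v => a v - 1) (fun v hv => by rw [ha v hv]) hc hM
  have hq : ∀ v, 0 ≤ ind (v ∈ G) * (r * w + E w fun W => ind (NL H θ e v B (B ∪ W))) := fun v =>
    mul_nonneg (ind_nonneg _) (add_nonneg (by positivity) (ex_nonneg hp fun _ => ind_nonneg _))
  have hcard : ((e ∩ B).card : ℝ) + (e \ B).card = r := by
    exact_mod_cast (card_inter_add_card_sdiff e B).trans her
  have hs' : ((e \ B).card : ℝ) ≤ s := by exact_mod_cast hs e he
  have hsr' : (2 : ℝ) * s ≤ r := by exact_mod_cast hsr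
  have hm : ∀ v, 1 - M * (ind (v ∈ G) * (r * w + E w fun W => ind (NL H θ e v B (B ∪ W)))) ≤
      c v * E w fun W => ind (Pk (L.filter (v ∈ ·)) B (a v - 1) W) := fun v => by
    have h1 : ∀ W, ind (Pk (F.filter (v ∈ ·)) B (a v - 1) W) ≤
        ind (Pk (L.filter (v ∈ ·)) B (a v - 1) W) + ind (v ∈ G) *
          (∑ u ∈ e \ B, ind (u ∈ W) + ind (NL H θ e v B (B ∪ W))) := fun W => by
      have h2 : 0 ≤ ∑ u ∈ e \ B, ind (u ∈ W) := sum_nonneg fun _ _ => ind_nonneg _
      have h3 := ind_nonneg (NL H θ e v B (B ∪ W))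
      have h4 := ind_nonneg (Pk (L.filter (v ∈ ·)) B (a v - 1) W)
      have h5 := ind_le_one (Pk (F.filter (v ∈ ·)) B (a v - 1) W)
      by_cases hv : v ∈ G
      · rw [ind_pos hv, one_mul]
        by_cases h6 : ∃ u ∈ e \ B, u ∈ W
        · obtain ⟨u, h6, h7⟩ := h6
          have := single_le_sum (f := fun u => ind (u ∈ W)) (fun _ _ => ind_nonneg _) h6
          rw [ind_pos h7] at this
          linarith
        by_cases h7 : NL H θ e v B (B ∪ W)
        · rw [ind_pos h7]
          linarith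
        refine le_add_of_le_of_nonneg (ind_mono fun h => h.mono fun e' h8 h9 => ⟨?_, h9⟩)
          (add_nonneg h2 h3)
        obtain ⟨h10, h11⟩ := mem_filter.1 h8
        have hd : Disjoint (e \ B) (e' \ B) :=
          disjoint_left.2 fun u hu hu' => h6 ⟨u, hu, h9 hu'⟩
        refine mem_filter.2 ⟨mem_filter.2 ⟨h10, not_le.1 fun h12 => h7 ⟨e', hF h10, h11,
          fun u hu => ?_, h12, sdiff_le_iff.1 h9⟩, hd⟩, h11⟩
        by_contra hB
        exact disjoint_left.1 hd (mem_sdiff.2 ⟨(mem_inter.1 hu).1, hB⟩)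
          (mem_sdiff.2 ⟨(mem_inter.1 hu).2, hB⟩)
      · rw [ha v hv, ind_pos pk_zero, ind_pos pk_zero, ind_neg hv, zero_mul, add_zero]
    have h2 := ex_mono (s := univ) hp h1
    rw [ex_add, ex_mul, ex_add, ex_sum] at h2
    simp only [ex_mem (mem_univ _), sum_const, nsmul_eq_mul] at h2
    have h3 : ind (v ∈ G) * ((e \ B).card * w + E w fun W => ind (NL H θ e v B (B ∪ W))) ≤
        ind (v ∈ G) * (r * w + E w fun W => ind (NL H θ e v B (B ∪ W))) := by
      have := ind_nonneg (v ∈ G)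
      gcongr
      exact her ▸ card_le_card sdiff_subset
    have h4 := mul_le_mul_of_nonneg_left (h2.trans (add_le_add_right h3 _)) (hc v).1
    have h5 := mul_le_mul_of_nonneg_right (hc v).2 (hq v)
    have h6 := hc1 v
    unfold E at h4 h5 h6 ⊢
    rw [mul_add] at h4
    linarith
  have hcon := concentration (V := V) hw.le hw1 (C := C)
    (S := fun W => ∑ v ∈ e ∩ B, c v * ind (Pk (L.filter (v ∈ ·)) B (a v - 1) W))
    (fun W => sum_nonneg fun v _ => mul_nonneg (hc v).1 (ind_nonneg _)) hr' hC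
    (d := M * ∑ v ∈ e, ind (v ∈ G) * (r * w + E w fun W => ind (NL H θ e v B (B ∪ W))))
    (mul_nonneg hM (sum_nonneg fun v _ => hq v)) (by
      have h1 := sum_le_sum fun v (_ : v ∈ e ∩ B) => hm v
      rw [sum_sub_distrib, ← mul_sum, sum_const, nsmul_eq_mul, mul_one] at h1
      have h2 := mul_le_mul_of_nonneg_left (sum_le_sum_of_subset_of_nonneg
        (inter_subset_left (s₁ := e) (s₂ := B)) fun v _ _ => hq v) hM
      rw [E, ex_sum]
      simp only [ex_mul]
      unfold E at h1 h2 ⊢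
      linarith) hv
  refine le_trans (ex_mono hp fun W => ?_) (hcon.trans (add_le_add (add_le_add_right ?_ _)
    (le_of_eq (by unfold E; ring))))
  · rw [← mul_sum]
    refine Real.exp_le_exp.2 (neg_le_neg (mul_le_mul_of_nonneg_left (sum_le_sum fun v hv =>
      mul_le_mul_of_nonneg_left (ind_mono fun h => ?_) (hc v).1) (by positivity)))
    rcases Nat.eq_zero_or_pos (a v) with h0 | h0
    · rw [h0]
      exact pk_zero
    · rw [← Nat.sub_add_cancel h0]
      refine h.add (mem_filter.2 ⟨he, (mem_inter.1 hv).1⟩) hne fun e' he' => ?_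
      obtain ⟨h1, h2⟩ := mem_filter.1 he'
      exact ⟨mem_filter.2 ⟨hLF h1, h2⟩, (mem_filter.1 h1).2.2⟩
  · have h1 : ((e ∩ B).card : ℝ) ≤ r := by linarith [Nat.cast_nonneg (α := ℝ) (e \ B).card]
    calc _ ≤ 64 * (M ^ 2 * (θ * s * 2 ^ s * Δ * (r * μ))) / r ^ 2 := by gcongr
      _ = _ := by field_simp

end Edge

end Pool.Agent.P.MP_1e26d1_co.U
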